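import Mathlib
import Pool.Agent.H32.Q4.Mo
import Pool.Agent.H32.Q4.En

set_option autoImplicit false

/-! # Steklov eigenvalue of a simple polygon with n sides: definitions

Points of the plane are complex numbers. A closed polygon is a sequence of vertices with period `n`.
The region is the bounded open connected set whose frontier is the union of the sides. -/

open Complex MeasureTheory Set Finset

namespace Pool.Agent.H32.SG

open Pool.Agent.H32.Stek Pool.Agent.H32.Q4

/-- union of the sides -/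
def bdr (p : ℕ → ℂ) : Set ℂ := ⋃ j, segment ℝ (p j) (p (j + 1))

/-- simple closed polygon with the `n` vertices `p 0, ..., p (n-1)`, continued with period `n`: the
sides are not degenerate, and two different sides meet at most in a common vertex of two
consecutive sides -/
structure Poly (n : ℕ) (p : ℕ → ℂ) : Prop where
  three : 3 ≤ n
  per : ∀ j, p (j + n) = p j
  ne : ∀ j, p j ≠ p (j + 1)
  meet : ∀ i j, i < j → j < n → ∀ z, z ∈ segment ℝ (p i) (p (i + 1)) →
    z ∈ segment ℝ (p j) (p (j + 1)) → (j = i + 1 ∧ z = p j) ∨ (i = 0 ∧ j + 1 = n ∧ z = p 0)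

/-- `Om` is the bounded region enclosed by the polygon -/
structure Reg (p : ℕ → ℂ) (Om : Set ℂ) : Prop where
  op : IsOpen Om
  bd : Bornology.IsBounded Om
  conn : IsConnected Om
  fr : frontier Om = bdr p

/-- integral over the boundary with respect to arc length -/
noncomputable def bd (n : ℕ) (p : ℕ → ℂ) (f : ℂ → ℝ) : ℝ :=
  ∑ j ∈ Finset.range n, segInt f (p j) (p (j + 1))

/-- perimeter -/
noncomputable def perim (n : ℕ) (p : ℕ → ℂ) : ℝ := ∑ j ∈ Finset.range n, ‖p (j + 1) - p j‖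

/-- Dirichlet integral -/
noncomputable def en (Om : Set ℂ) (u : ℂ → ℝ) : ℝ := ∫ z in Om, ‖grad u z‖ ^ 2

/-- area -/
noncomputable def area (Om : Set ℂ) : ℝ := (volume Om).toReal

/-- first nonzero Steklov eigenvalue: infimum of the Rayleigh quotient over all `C^1` functions on the
plane with boundary integral zero -/
noncomputable def sig (n : ℕ) (p : ℕ → ℂ) (Om : Set ℂ) : ℝ :=
  sInf {s | ∃ u : ℂ → ℝ, ContDiff ℝ 1 u ∧ bd n p u = 0 ∧ 0 < bd n p (fun z => u z ^ 2) ∧
    s = en Om u / bd n p (fun z => u z ^ 2)}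

/-- second moment of the boundary -/
noncomputable def JJb (n : ℕ) (p : ℕ → ℂ) : ℝ := bd n p (fun z => ‖z‖ ^ 2)

/-- the centroid of the boundary is the origin -/
def Cen (n : ℕ) (p : ℕ → ℂ) : Prop := bd n p (fun z => z.re) = 0 ∧ bd n p (fun z => z.im) = 0

/-- some point of the side `j` (no vertex) is the last point of the polygon on its ray from the
origin, and the origin is not on the line of the side -/
def Vis (p : ℕ → ℂ) (j : ℕ) : Prop :=
  cr (p j) (p (j + 1)) ≠ 0 ∧ ∃ x ∈ openSegment ℝ (p j) (p (j + 1)),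
    ∀ s : ℝ, 1 < s → (s : ℂ) * x ∉ bdr p

/-- winding number around `z`, times `2 pi` -/
noncomputable def wnd (n : ℕ) (p : ℕ → ℂ) (z : ℂ) : ℝ :=
  ∑ k ∈ Finset.range n, Complex.arg ((p (k + 1) - z) / (p k - z))

/-- polygon which is star-shaped with respect to the origin, positively oriented, in polar
coordinates -/
structure Star (n : ℕ) (p : ℕ → ℂ) (r th : ℕ → ℝ) : Prop where
  per : ∀ j, p (j + n) = p j
  rper : ∀ j, r (j + n) = r j
  rpos : ∀ j, 0 < r j
  rep : ∀ j, p j = (r j : ℂ) * exp ((th j : ℂ) * I)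
  lt : ∀ j, th j < th (j + 1)
  lt_pi : ∀ j, th (j + 1) < th j + Real.pi
  tot : ∀ j, th (j + n) = th j + 2 * Real.pi

/-- `exp (2 pi i / n)` -/
noncomputable def om (n : ℕ) : ℂ := exp (2 * Real.pi * I / n)

/-- `tan (pi / n)` -/
noncomputable def tn (n : ℕ) : ℝ := Real.tan (Real.pi / n)

/-- side vector, midpoint, area of the triangle over the side -/
noncomputable def sw (p : ℕ → ℂ) (j : ℕ) : ℂ := p (j + 1) - p j

noncomputable def mp (p : ℕ → ℂ) (j : ℕ) : ℂ := (p j + p (j + 1)) / 2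

noncomputable def al (p : ℕ → ℂ) (j : ℕ) : ℝ := cr (p j) (p (j + 1)) / 2

/-- sum of the areas of the triangles -/
noncomputable def Ast (n : ℕ) (p : ℕ → ℂ) : ℝ := ∑ j ∈ Finset.range n, al p j

/-- the complex number `sum_j l_j i conj(w_j) om^j` -/
noncomputable def Sc (n : ℕ) (p : ℕ → ℂ) : ℂ :=
  ∑ j ∈ Finset.range n, (‖sw p j‖ : ℂ) * I * (starRingEnd ℂ) (sw p j) * om n ^ j

/-- admissible perturbations of the identity on the regular polygon: class one, symmetric with
respect to the real axis, mean zero on the side `{1 + i s}` -/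
structure Tst (n : ℕ) (g : ℂ → ℂ) : Prop where
  c1 : ContDiff ℝ 1 g
  rot : ∀ z, g (om n * z) = om n * g z
  sharp : ∀ z, g ((starRingEnd ℂ) z) = (starRingEnd ℂ) (g z)
  mean : ∫ Y in (-1 : ℝ)..1, g (1 + (tn n * Y : ℝ) * I) = 0

/-- `t JJ |g_x|^2` -/
noncomputable def Hn (n : ℕ) (g : ℂ → ℂ) : ℝ :=
  tn n * JJ (fun X Y => ‖fderiv ℝ g (X + (tn n * Y : ℝ) * I) 1‖ ^ 2)

/-- `t JJ |g_y|^2` -/
noncomputable def Ht (n : ℕ) (g : ℂ → ℂ) : ℝ :=
  tn n * JJ (fun X Y => ‖fderiv ℝ g (X + (tn n * Y : ℝ) * I) I‖ ^ 2)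

/-- mean of `|g|^2` on the side -/
noncomputable def Mg (n : ℕ) (g : ℂ → ℂ) : ℝ :=
  (1 / 2) * ∫ Y in (-1 : ℝ)..1, ‖g (1 + (tn n * Y : ℝ) * I)‖ ^ 2

/-- first moment of `g` on the side (it is purely imaginary) -/
noncomputable def Ka (n : ℕ) (g : ℂ → ℂ) : ℝ :=
  (1 / 4) * ∫ Y in (-1 : ℝ)..1, Y * (g (1 + (tn n * Y : ℝ) * I)).im

/-- `sum_j [Hn |w_j|^2 / (4 t al_j) + Ht t |m_j|^2 / al_j]` -/
noncomputable def Est (n : ℕ) (p : ℕ → ℂ) (hn ht : ℝ) : ℝ :=
  ∑ j ∈ Finset.range n, (hn * (‖sw p j‖ ^ 2 / (4 * tn n * al p j)) +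
    ht * (tn n * ‖mp p j‖ ^ 2 / al p j))

end Pool.Agent.H32.SG
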