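import Mathlib
import Pool.Agent.H32.SG.Defs

set_option autoImplicit false

/-! # Elementary facts on polygons with n sides (proved) -/

open Complex MeasureTheory Set Finset

namespace Pool.Agent.H32.SG

open Pool.Agent.H32.Stek Pool.Agent.H32.Q4

variable {n : ℕ} {p : ℕ → ℂ} {Om : Set ℂ}

lemma per_add_mul (hper : ∀ j, p (j + n) = p j) (j k : ℕ) : p (j + n * k) = p j := by
  induction k with
  | zero => simp
  | succ k ih => rw [Nat.mul_succ, ← add_assoc, hper, ih]

lemma per_mod (hper : ∀ j, p (j + n) = p j) (j : ℕ) : p (j % n) = p j := by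
  conv_rhs => rw [← Nat.mod_add_div j n]
  rw [per_add_mul hper]

lemma side_mod (hper : ∀ j, p (j + n) = p j) (j : ℕ) :
    segment ℝ (p (j % n)) (p (j % n + 1)) = segment ℝ (p j) (p (j + 1)) := by
  have h : p (j % n + 1) = p (j + 1) := by
    have h1 : j + 1 = (j % n + 1) + n * (j / n) := by
      have := Nat.mod_add_div j n
      omega
    rw [h1, per_add_mul hper]
  rw [per_mod hper, h]

lemma bdr_eq (hn : 0 < n) (hper : ∀ j, p (j + n) = p j) :
    bdr p = ⋃ j ∈ Finset.range n, segment ℝ (p j) (p (j + 1)) := by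
  apply Set.Subset.antisymm
  · apply Set.iUnion_subset
    intro j
    rw [← side_mod hper j]
    exact Set.subset_biUnion_of_mem (u := fun j => segment ℝ (p j) (p (j + 1)))
      (Finset.mem_coe.mpr (Finset.mem_range.mpr (Nat.mod_lt j hn)))
  · apply Set.iUnion₂_subset
    intro j _
    exact Set.subset_iUnion (fun j => segment ℝ (p j) (p (j + 1))) j

lemma side_subset (p : ℕ → ℂ) (j : ℕ) : segment ℝ (p j) (p (j + 1)) ⊆ bdr p :=
  Set.subset_iUnion (fun j => segment ℝ (p j) (p (j + 1))) j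

lemma isCompact_bdr (hn : 0 < n) (hper : ∀ j, p (j + n) = p j) : IsCompact (bdr p) := by
  rw [bdr_eq hn hper]
  apply (Finset.range n).isCompact_biUnion
  intro j _
  rw [segment_eq_image']
  exact isCompact_Icc.image (by fun_prop)

lemma isClosed_bdr (hn : 0 < n) (hper : ∀ j, p (j + n) = p j) : IsClosed (bdr p) :=
  (isCompact_bdr hn hper).isClosed

lemma isConnected_bdr (p : ℕ → ℂ) : IsConnected (bdr p) := by
  apply IsConnected.iUnion_of_chain
  · intro j
    exact ⟨⟨p j, left_mem_segment ℝ _ _⟩, (convex_segment (p j) (p (j + 1))).isPreconnected⟩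
  · intro j
    exact ⟨p (j + 1), right_mem_segment ℝ _ _, left_mem_segment ℝ _ _⟩

lemma Poly.pos (hP : Poly n p) : 0 < n := by have := hP.three; omega

/-- the region does not meet its boundary -/
lemma Reg.disj (hR : Reg p Om) {z : ℂ} (hz : z ∈ Om) : z ∉ bdr p := by
  intro h
  rw [← hR.fr, hR.op.frontier_eq] at h
  exact h.2 hz

/-- a connected set which does not meet the polygon but meets the region is contained in it -/
lemma Reg.sub (hR : Reg p Om) {S : Set ℂ} (hS : IsPreconnected S) (hd : ∀ z ∈ S, z ∉ bdr p)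
    {x : ℂ} (hx : x ∈ S) (hxO : x ∈ Om) : S ⊆ Om := by
  have hcov : S ⊆ Om ∪ (closure Om)ᶜ := by
    intro y hy
    by_cases h : y ∈ closure Om
    · left
      by_contra h2
      apply hd y hy
      rw [← hR.fr, hR.op.frontier_eq]
      exact ⟨h, h2⟩
    · exact Or.inr h
  intro y hy
  rcases hcov hy with h | h
  · exact h
  · exfalso
    obtain ⟨z, _, hz1, hz2⟩ := hS Om (closure Om)ᶜ hR.op isClosed_closure.isOpen_compl hcov
      ⟨x, hx, hxO⟩ ⟨y, hy, h⟩
    exact hz2 (subset_closure hz1)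

/-! ### cross product -/

lemma cr_anti (z w : ℂ) : cr w z = -cr z w := by unfold cr; ring

lemma cr_self (z : ℂ) : cr z z = 0 := by unfold cr; ring

lemma cr_add_right (z w w' : ℂ) : cr z (w + w') = cr z w + cr z w' := by unfold cr; simp; ring

lemma cr_add_left (z z' w : ℂ) : cr (z + z') w = cr z w + cr z' w := by unfold cr; simp; ring

lemma cr_sub_right (z w w' : ℂ) : cr z (w - w') = cr z w - cr z w' := by unfold cr; simp; ring

lemma cr_sub_left (z z' w : ℂ) : cr (z - z') w = cr z w - cr z' w := by unfold cr; simp; ring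

lemma cr_smul_right (z w : ℂ) (a : ℝ) : cr z ((a : ℂ) * w) = a * cr z w := by unfold cr; simp; ring

lemma cr_smul_left (z w : ℂ) (a : ℝ) : cr ((a : ℂ) * z) w = a * cr z w := by unfold cr; simp; ring

lemma cr_zero_right (z : ℂ) : cr z 0 = 0 := by unfold cr; simp

lemma cr_zero_left (z : ℂ) : cr 0 z = 0 := by unfold cr; simp

lemma cr_conj (z w : ℂ) : cr ((starRingEnd ℂ) z) ((starRingEnd ℂ) w) = -cr z w := by
  unfold cr; simp; ring

/-- membership in a segment in the form with one parameter -/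
lemma mem_seg {a b z : ℂ} : z ∈ segment ℝ a b ↔ ∃ s : ℝ, 0 ≤ s ∧ s ≤ 1 ∧ z = a + (s : ℂ) * (b - a) := by
  rw [segment_eq_image']
  constructor
  · rintro ⟨s, hs, rfl⟩
    exact ⟨s, hs.1, hs.2, by simp [Complex.real_smul]⟩
  · rintro ⟨s, h0, h1, rfl⟩
    exact ⟨s, ⟨h0, h1⟩, by simp [Complex.real_smul]⟩

lemma mem_openSeg {a b z : ℂ} : z ∈ openSegment ℝ a b ↔
    ∃ s : ℝ, 0 < s ∧ s < 1 ∧ z = a + (s : ℂ) * (b - a) := by
  rw [openSegment_eq_image']
  constructor
  · rintro ⟨s, hs, rfl⟩
    exact ⟨s, hs.1, hs.2, by simp [Complex.real_smul]⟩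
  · rintro ⟨s, h0, h1, rfl⟩
    exact ⟨s, ⟨h0, h1⟩, by simp [Complex.real_smul]⟩

end Pool.Agent.H32.SG
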