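import Mathlib
import Pool.Agent.H32.SG.Basic

set_option autoImplicit false

/-! Complex conjugation -/

open Complex MeasureTheory Set Finset Filter Topology

open scoped NNReal

namespace Pool.Agent.H32.SG

open Pool.Agent.H32.Stek Pool.Agent.H32.Q4

variable {n : ℕ} {p : ℕ → ℂ} {Om : Set ℂ}

private lemma cj_seg {a b z : ℂ} (h : z ∈ segment ℝ ((starRingEnd ℂ) a) ((starRingEnd ℂ) b)) :
    (starRingEnd ℂ) z ∈ segment ℝ a b := by
  rw [mem_seg] at h ⊢
  obtain ⟨s, h0, h1, rfl⟩ := h
  refine ⟨s, h0, h1, ?_⟩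
  simp only [map_add, map_mul, map_sub, Complex.conj_conj, Complex.conj_ofReal]

private lemma cj_seg' {a b z : ℂ} (h : z ∈ segment ℝ a b) :
    (starRingEnd ℂ) z ∈ segment ℝ ((starRingEnd ℂ) a) ((starRingEnd ℂ) b) := by
  rw [mem_seg] at h ⊢
  obtain ⟨s, h0, h1, rfl⟩ := h
  refine ⟨s, h0, h1, ?_⟩
  simp only [map_add, map_mul, map_sub, Complex.conj_ofReal]

private lemma cj_image (S : Set ℂ) :
    (fun z => (starRingEnd ℂ) z) '' S = (Complex.conjLIE.toHomeomorph) '' S := rfl

/-- Cj1. -/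
theorem conj_poly (hP : Poly n p) : Poly n (fun j => (starRingEnd ℂ) (p j)) where
  three := hP.three
  per := fun j => congrArg (starRingEnd ℂ) (hP.per j)
  ne := fun j h => hP.ne j ((starRingEnd ℂ).injective h)
  meet := by
    intro i j hij hj z h1 h2
    rcases hP.meet i j hij hj _ (cj_seg h1) (cj_seg h2) with ⟨h3, h4⟩ | ⟨h3, h4, h5⟩
    · left
      refine ⟨h3, ?_⟩
      rw [← h4, Complex.conj_conj]
    · right
      refine ⟨h3, h4, ?_⟩
      rw [← h5, Complex.conj_conj]

theorem conj_reg (hR : Reg p Om) :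
    Reg (fun j => (starRingEnd ℂ) (p j)) ((fun z => (starRingEnd ℂ) z) '' Om) where
  op := by
    rw [cj_image]
    exact Complex.conjLIE.toHomeomorph.isOpenMap _ hR.op
  bd := by
    have h := Complex.conjLIE.lipschitz.isBounded_image hR.bd
    exact h
  conn := hR.conn.image _ Complex.continuous_conj.continuousOn
  fr := by
    rw [cj_image, ← Homeomorph.image_frontier, hR.fr, ← cj_image]
    apply Set.Subset.antisymm
    · rintro _ ⟨z, hz, rfl⟩
      obtain ⟨j, hj⟩ := Set.mem_iUnion.1 hz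
      exact Set.mem_iUnion.2 ⟨j, cj_seg' hj⟩
    · intro z hz
      obtain ⟨j, hj⟩ := Set.mem_iUnion.1 hz
      exact ⟨(starRingEnd ℂ) z, Set.mem_iUnion.2 ⟨j, cj_seg hj⟩, Complex.conj_conj z⟩

private lemma cj_segInt (f : ℂ → ℝ) (P Q : ℂ) :
    segInt f ((starRingEnd ℂ) P) ((starRingEnd ℂ) Q) =
      segInt (fun z => f ((starRingEnd ℂ) z)) P Q := by
  unfold segInt
  rw [← map_sub, Complex.norm_conj]
  congr 1
  apply intervalIntegral.integral_congr
  intro t _
  simp only [map_add, map_mul, Complex.conj_ofReal]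

private lemma cj_bd (f : ℂ → ℝ) :
    bd n (fun j => (starRingEnd ℂ) (p j)) f = bd n p (fun z => f ((starRingEnd ℂ) z)) := by
  unfold bd
  exact Finset.sum_congr rfl fun j _ => cj_segInt f _ _

private lemma cj_grad {u : ℂ → ℝ} (hu : ContDiff ℝ 1 u) (z : ℂ) :
    grad (fun z => u ((starRingEnd ℂ) z)) z =
      (starRingEnd ℂ) (grad u ((starRingEnd ℂ) z)) := by
  have h1 : HasFDerivAt (fun z : ℂ => (starRingEnd ℂ) z)
      (Complex.conjCLE : ℂ →L[ℝ] ℂ) z := Complex.conjCLE.hasFDerivAt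
  have h0 : DifferentiableAt ℝ u ((starRingEnd ℂ) z) :=
    (hu.differentiable one_ne_zero) _
  have h2 : HasFDerivAt (fun z => u ((starRingEnd ℂ) z))
      ((fderiv ℝ u ((starRingEnd ℂ) z)).comp (Complex.conjCLE : ℂ →L[ℝ] ℂ)) z :=
    h0.hasFDerivAt.comp z h1
  unfold grad
  rw [h2.fderiv]
  apply Complex.ext
  · simp
  · simp

private lemma cj_en (hO : MeasurableSet Om) {u : ℂ → ℝ} (hu : ContDiff ℝ 1 u) :
    en ((fun z => (starRingEnd ℂ) z) '' Om) u = en Om (fun z => u ((starRingEnd ℂ) z)) := by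
  unfold en
  have h1 := Complex.conjLIE.measurePreserving
  have h2 := Complex.conjLIE.toHomeomorph.measurableEmbedding
  have h3 := h1.setIntegral_image_emb h2 (fun z => ‖grad u z‖ ^ 2) Om
  have h4 : (fun z => (starRingEnd ℂ) z) '' Om = (Complex.conjLIE : ℂ → ℂ) '' Om := rfl
  rw [h4, h3]
  apply setIntegral_congr_fun hO
  intro z _
  simp only
  rw [cj_grad hu, Complex.norm_conj]
  rfl

/-- Cj2. `u ↦ u ∘ conj`: `grad (u ∘ conj) z = conj (grad u (conj z))`, conjugation preserves the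
measure and maps segments to segments. -/
theorem conj_sig (hO : MeasurableSet Om) :
    sig n (fun j => (starRingEnd ℂ) (p j)) ((fun z => (starRingEnd ℂ) z) '' Om) = sig n p Om := by
  unfold sig
  congr 1
  ext s
  constructor
  · rintro ⟨u, hu, h1, h2, h3⟩
    have hc : ContDiff ℝ 1 (fun z => u ((starRingEnd ℂ) z)) :=
      hu.comp (Complex.conjCLE : ℂ →L[ℝ] ℂ).contDiff
    refine ⟨fun z => u ((starRingEnd ℂ) z), hc, ?_, ?_, ?_⟩
    · rw [cj_bd] at h1
      exact h1
    · rw [cj_bd] at h2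
      exact h2
    · rw [cj_bd, cj_en hO hu] at h3
      exact h3
  · rintro ⟨v, hv, h1, h2, h3⟩
    have hc : ContDiff ℝ 1 (fun z => v ((starRingEnd ℂ) z)) :=
      hv.comp (Complex.conjCLE : ℂ →L[ℝ] ℂ).contDiff
    refine ⟨fun z => v ((starRingEnd ℂ) z), hc, ?_, ?_, ?_⟩
    · rw [cj_bd]
      simpa only [Complex.conj_conj] using h1
    · rw [cj_bd]
      simpa only [Complex.conj_conj] using h2
    · rw [cj_bd, cj_en hO hc]
      simpa only [Complex.conj_conj] using h3

theorem conj_area : area ((fun z => (starRingEnd ℂ) z) '' Om) = area Om := by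
  unfold area
  have h1 := Complex.conjLIE.measurePreserving
  have h2 := Complex.conjLIE.toHomeomorph.measurableEmbedding
  have h3 := h1.measure_preimage_emb h2 Om
  have h4 : (fun z => (starRingEnd ℂ) z) '' Om = (Complex.conjLIE : ℂ → ℂ) ⁻¹' Om := by
    ext z
    constructor
    · rintro ⟨w, hw, rfl⟩
      have : (Complex.conjLIE : ℂ → ℂ) ((starRingEnd ℂ) w) = w := Complex.conj_conj w
      rw [Set.mem_preimage, this]
      exact hw
    · intro h
      exact ⟨(starRingEnd ℂ) z, h, Complex.conj_conj z⟩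
  rw [h4, h3]

theorem conj_cen (h : Cen n p) : Cen n (fun j => (starRingEnd ℂ) (p j)) := by
  refine ⟨?_, ?_⟩
  · rw [cj_bd]
    simpa only [Complex.conj_re] using h.1
  · rw [cj_bd]
    have h1 : bd n p (fun z => ((starRingEnd ℂ) z).im) = -bd n p (fun z => z.im) := by
      unfold bd segInt
      rw [← Finset.sum_neg_distrib]
      apply Finset.sum_congr rfl
      intro j _
      simp only [Complex.conj_im]
      rw [intervalIntegral.integral_neg]
      ring
    rw [h1, h.2, neg_zero]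

end Pool.Agent.H32.SG
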