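import Mathlib
import Pool.Agent.H32.SG.Basic

set_option autoImplicit false

/-! Near a visible point the inner side belongs to the region -/

open Complex MeasureTheory Set Finset Filter Topology

open scoped NNReal

namespace Pool.Agent.H32.SG

open Pool.Agent.H32.Stek Pool.Agent.H32.Q4

variable {n : ℕ} {p : ℕ → ℂ} {Om : Set ℂ}

/-- In1. An inner point of a side is on no other side. -/
theorem only_side (hP : Poly n p) {j : ℕ} (hj : j < n) {x : ℂ}
    (hx : x ∈ openSegment ℝ (p j) (p (j + 1))) {k : ℕ} (hk : k < n)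
    (hxk : x ∈ segment ℝ (p k) (p (k + 1))) : k = j := by
  have hne := hP.ne j
  have h1 : x ≠ p j := fun h => by
    rw [h, left_mem_openSegment_iff] at hx
    exact hne hx
  have h2 : x ≠ p (j + 1) := fun h => by
    rw [h, right_mem_openSegment_iff] at hx
    exact hne hx
  have hxj := openSegment_subset_segment ℝ _ _ hx
  rcases lt_trichotomy k j with h | h | h
  · exfalso
    rcases hP.meet k j h hj x hxk hxj with ⟨_, h3⟩ | ⟨_, h3, h4⟩
    · exact h1 h3
    · apply h2
      rw [h4, h3]
      have := hP.per 0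
      rw [zero_add] at this
      exact this.symm
  · exact h
  · exfalso
    rcases hP.meet j k h hk x hxj hxk with ⟨h3, h4⟩ | ⟨h3, _, h4⟩
    · exact h2 (by rw [h4, h3])
    · exact h1 (by rw [h4, h3])

private lemma Inner_L (a b : ℂ) (s : ℝ) : cr (a + (s : ℂ) * (b - a) - a) (b - a) = 0 := by
  rw [add_sub_cancel_left, cr_smul_left, cr_self, mul_zero]

private lemma Inner_cont (a b : ℂ) : Continuous fun z : ℂ => cr (z - a) (b - a) := by
  unfold cr
  fun_prop

private lemma Inner_conv (a b x : ℂ) (r τ : ℝ) :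
    Convex ℝ {z : ℂ | z ∈ Metric.ball x r ∧ 0 < τ * cr (z - a) (b - a)} := by
  have h1 : IsLinearMap ℝ fun z : ℂ => τ * cr z (b - a) :=
    ⟨fun z z' => by rw [cr_add_left, mul_add], fun c z => by
      rw [Complex.real_smul, cr_smul_left, smul_eq_mul]
      ring⟩
  have h2 := (convex_ball x r).inter (convex_halfSpace_gt h1 (τ * cr a (b - a)))
  have h3 : {z : ℂ | z ∈ Metric.ball x r ∧ 0 < τ * cr (z - a) (b - a)} =
      Metric.ball x r ∩ {z | τ * cr a (b - a) < τ * cr z (b - a)} := by
    ext z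
    simp only [Set.mem_ofPred_eq, Set.mem_inter_iff]
    rw [cr_sub_left, mul_sub, sub_pos]
  rw [h3]
  exact h2

/-- In2. A small ball `B` around `x` meets the polygon only in the line of side `j` (`only_side`,
closedness, the end points are not in `B`). `B` minus the line is the union of two convex half balls,
`{z ∈ B : cr (z - p j) (p (j+1) - p j) > 0}` and `< 0`, which do not meet the polygon. As `x` is in
the frontier of `Om`, `Om` meets `B`, hence (it does not meet the polygon) one of the half balls,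
which is then contained in `Om` (`Reg.sub`). It is not the outer one, because the ray `s x`, `s > 1`,
would be contained in `Om`, which is bounded. So it is the inner one, which contains `(1-e) x`. -/
theorem inner_mem (hP : Poly n p) (hR : Reg p Om) {j : ℕ} (hj : j < n) {x : ℂ}
    (hx : x ∈ openSegment ℝ (p j) (p (j + 1))) (hc : cr (p j) (p (j + 1)) ≠ 0)
    (hv : ∀ s : ℝ, 1 < s → (s : ℂ) * x ∉ bdr p) :
    ∀ᶠ e in 𝓝[>] (0 : ℝ), ((1 - e : ℝ) : ℂ) * x ∈ Om := by
  have hn := hP.pos
  have hxs := openSegment_subset_segment ℝ _ _ hx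
  have hxb : x ∈ bdr p := side_subset p j hxs
  set c := cr (p j) (p (j + 1)) with hcdef
  obtain ⟨s0, -, -, hxeq⟩ := mem_seg.1 hxs
  -- the linear function which vanishes on the line
  have hLx : ∀ t : ℝ, cr ((t : ℂ) * x - p j) (p (j + 1) - p j) = (t - 1) * c := by
    intro t
    have h1 : cr x (p (j + 1) - p j) = c := by
      rw [hxeq, cr_add_left, cr_smul_left, cr_self, mul_zero, add_zero, cr_sub_right, cr_self,
        sub_zero]
    have h2 : cr (p j) (p (j + 1) - p j) = c := by
      rw [cr_sub_right, cr_self, sub_zero]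
    rw [cr_sub_left, cr_smul_left, h1, h2]
    ring
  -- a ball which meets no other side
  have hF : IsClosed (⋃ k ∈ (Finset.range n).filter (fun k => k ≠ j),
      segment ℝ (p k) (p (k + 1))) := by
    refine Set.Finite.isClosed_biUnion (Finset.finite_toSet _) fun k _ => ?_
    have : IsCompact (segment ℝ (p k) (p (k + 1))) := by
      rw [segment_eq_image']
      exact isCompact_Icc.image (by fun_prop)
    exact this.isClosed
  have hxF : x ∉ ⋃ k ∈ (Finset.range n).filter (fun k => k ≠ j),
      segment ℝ (p k) (p (k + 1)) := by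
    intro h
    obtain ⟨k, hk, hxk⟩ := Set.mem_iUnion₂.1 h
    rw [Finset.mem_filter, Finset.mem_range] at hk
    exact hk.2 (only_side hP hj hx hk.1 hxk)
  obtain ⟨r, hr, hball⟩ := Metric.mem_nhds_iff.1 (hF.isOpen_compl.mem_nhds hxF)
  have hB : ∀ z ∈ Metric.ball x r, z ∈ bdr p → cr (z - p j) (p (j + 1) - p j) = 0 := by
    intro z hz hzb
    rw [bdr_eq hn hP.per] at hzb
    obtain ⟨k, hk, hzk⟩ := Set.mem_iUnion₂.1 hzb
    by_cases hkj : k = j
    · subst hkj
      obtain ⟨s, -, -, rfl⟩ := mem_seg.1 hzk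
      exact Inner_L _ _ _
    · exfalso
      refine hball hz (Set.mem_iUnion₂.2 ⟨k, ?_, hzk⟩)
      rw [Finset.mem_filter]
      exact ⟨hk, hkj⟩
  have hhalf : ∀ τ : ℝ, ∀ z ∈ {z : ℂ | z ∈ Metric.ball x r ∧
      0 < τ * cr (z - p j) (p (j + 1) - p j)}, z ∉ bdr p := by
    intro τ z hz hzb
    have h1 := hB z hz.1 hzb
    have h2 := hz.2
    rw [h1, mul_zero] at h2
    exact lt_irrefl _ h2
  -- a point of the region in the ball, not on the line
  obtain ⟨y, hyB, hyO, hyL⟩ : ∃ y ∈ Metric.ball x r, y ∈ Om ∧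
      cr (y - p j) (p (j + 1) - p j) ≠ 0 := by
    have hxc : x ∈ closure Om := by
      have : x ∈ frontier Om := by rw [hR.fr]; exact hxb
      exact frontier_subset_closure this
    obtain ⟨y, hyB, hyO⟩ := mem_closure_iff.1 hxc (Metric.ball x r) Metric.isOpen_ball
      (Metric.mem_ball_self hr)
    by_cases hL : cr (y - p j) (p (j + 1) - p j) = 0
    · set w := p (j + 1) - p j with hw
      have hw0 : w ≠ 0 := sub_ne_zero.2 (hP.ne j).symm
      have hcw : cr (Complex.I * w) w = -(w.re ^ 2 + w.im ^ 2) := by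
        unfold cr
        simp
        ring
      have hcw0 : cr (Complex.I * w) w ≠ 0 := by
        rw [hcw]
        intro h
        have h1 : w.re = 0 := by nlinarith [sq_nonneg w.re, sq_nonneg w.im]
        have h2 : w.im = 0 := by nlinarith [sq_nonneg w.re, sq_nonneg w.im]
        exact hw0 (Complex.ext h1 h2)
      have hc1 : Continuous fun t : ℝ => y + (t : ℂ) * (Complex.I * w) := by fun_prop
      have hop : IsOpen (Metric.ball x r ∩ Om) := Metric.isOpen_ball.inter hR.op
      have h0 : (fun t : ℝ => y + (t : ℂ) * (Complex.I * w)) 0 ∈ Metric.ball x r ∩ Om := by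
        simp only [Complex.ofReal_zero, zero_mul, add_zero]
        exact ⟨hyB, hyO⟩
      have hev : ∀ᶠ t : ℝ in 𝓝[>] (0 : ℝ), y + (t : ℂ) * (Complex.I * w) ∈ Metric.ball x r ∩ Om :=
        (hc1.continuousAt.eventually_mem (hop.mem_nhds h0)).filter_mono nhdsWithin_le_nhds
      obtain ⟨t, ht, ht0⟩ := (hev.and self_mem_nhdsWithin).exists
      have ht0' : (0 : ℝ) < t := ht0
      refine ⟨y + (t : ℂ) * (Complex.I * w), ht.1, ht.2, ?_⟩
      have h3 : y + (t : ℂ) * (Complex.I * w) - p j = (y - p j) + (t : ℂ) * (Complex.I * w) := by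
        ring
      rw [h3, cr_add_left, hL, cr_smul_left, zero_add]
      exact mul_ne_zero ht0'.ne' hcw0
    · exact ⟨y, hyB, hyO, hL⟩
  have hx0 : x ≠ 0 := by
    intro h
    have h1 := hLx 0
    have h2 := hLx 1
    rw [h] at h1 h2
    rw [mul_zero] at h1 h2
    rw [h1] at h2
    apply hc
    linarith
  -- the outer half ball is not contained in the region
  have hout : ¬ {z : ℂ | z ∈ Metric.ball x r ∧ 0 < c * cr (z - p j) (p (j + 1) - p j)} ⊆ Om := by
    intro hsub
    have hxn : 0 < ‖x‖ := norm_pos_iff.2 hx0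
    set s1 : ℝ := 1 + r / (2 * ‖x‖) with hs1
    have hs1' : 1 < s1 := by
      rw [hs1]
      have : 0 < r / (2 * ‖x‖) := by positivity
      linarith
    have hmem : (s1 : ℂ) * x ∈ Om := by
      refine hsub ⟨?_, ?_⟩
      · rw [Metric.mem_ball, dist_eq_norm]
        have h1 : (s1 : ℂ) * x - x = ((r / (2 * ‖x‖) : ℝ) : ℂ) * x := by
          rw [hs1]
          push_cast
          ring
        rw [h1, norm_mul, Complex.norm_real, Real.norm_of_nonneg (by positivity)]
        have h2 : r / (2 * ‖x‖) * ‖x‖ = r / 2 := by field_simp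
        rw [h2]
        linarith
      · show 0 < c * cr ((s1 : ℂ) * x - p j) (p (j + 1) - p j)
        rw [hLx]
        have : 0 < c ^ 2 := by positivity
        nlinarith [mul_pos (sub_pos.2 hs1') this]
    have hray : (fun t : ℝ => (t : ℂ) * x) '' Set.Ioi (1 : ℝ) ⊆ Om := by
      have hpre : IsPreconnected ((fun t : ℝ => (t : ℂ) * x) '' Set.Ioi (1 : ℝ)) :=
        (isPreconnected_Ioi (a := (1 : ℝ))).image _ (Continuous.continuousOn (by fun_prop))
      refine hR.sub hpre ?_ (x := (s1 : ℂ) * x) ⟨s1, hs1', rfl⟩ hmem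
      rintro _ ⟨t, ht, rfl⟩
      exact hv t ht
    obtain ⟨M, hM⟩ := hR.bd.exists_norm_le
    have hM0 : 0 ≤ M := (norm_nonneg _).trans (hM _ hmem)
    have h3 : (((M + 1) / ‖x‖ + 1 + 1 : ℝ) : ℂ) * x ∈ Om := by
      refine hray ⟨(M + 1) / ‖x‖ + 1 + 1, ?_, rfl⟩
      have : 0 < (M + 1) / ‖x‖ := by positivity
      show (1 : ℝ) < _
      linarith
    have h4 := hM _ h3
    rw [norm_mul, Complex.norm_real, Real.norm_of_nonneg (by positivity)] at h4
    have h5 : (M + 1) / ‖x‖ * ‖x‖ = M + 1 := by field_simp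
    nlinarith
  -- so the region contains the inner half ball
  have hin : {z : ℂ | z ∈ Metric.ball x r ∧ 0 < (-c) * cr (z - p j) (p (j + 1) - p j)} ⊆ Om := by
    have hy : y ∈ {z : ℂ | z ∈ Metric.ball x r ∧ 0 < (-c) * cr (z - p j) (p (j + 1) - p j)} := by
      refine ⟨hyB, ?_⟩
      by_contra hneg
      push Not at hneg
      have h1 : c * cr (y - p j) (p (j + 1) - p j) ≠ 0 := mul_ne_zero hc hyL
      have h2 : 0 ≤ c * cr (y - p j) (p (j + 1) - p j) := by linarith
      have h3 : 0 < c * cr (y - p j) (p (j + 1) - p j) := lt_of_le_of_ne h2 h1.symm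
      exact hout (hR.sub (Inner_conv _ _ _ _ _).isPreconnected (hhalf c) (x := y) ⟨hyB, h3⟩ hyO)
    exact hR.sub (Inner_conv _ _ _ _ _).isPreconnected (hhalf (-c)) hy hyO
  have hcx : Continuous fun e : ℝ => ((1 - e : ℝ) : ℂ) * x := by fun_prop
  have hb : ∀ᶠ e in 𝓝[>] (0 : ℝ), ((1 - e : ℝ) : ℂ) * x ∈ Metric.ball x r := by
    have h0 : (fun e : ℝ => ((1 - e : ℝ) : ℂ) * x) 0 ∈ Metric.ball x r := by
      simp only [sub_zero, Complex.ofReal_one, one_mul]
      exact Metric.mem_ball_self hr
    exact (hcx.continuousAt.eventually_mem (Metric.isOpen_ball.mem_nhds h0)).filter_mono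
      nhdsWithin_le_nhds
  filter_upwards [hb, self_mem_nhdsWithin] with e he he0
  have he0' : (0 : ℝ) < e := he0
  refine hin ⟨he, ?_⟩
  show 0 < (-c) * cr (((1 - e : ℝ) : ℂ) * x - p j) (p (j + 1) - p j)
  rw [hLx]
  have : 0 < c ^ 2 := by positivity
  nlinarith [mul_pos he0' this]

end Pool.Agent.H32.SG
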