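import Mathlib
import Pool.Agent.H32.SG.Basic

set_option autoImplicit false

/-! A slightly shrunk polygon does not meet the polygon -/

open Complex MeasureTheory Set Finset Filter Topology

open scoped NNReal

namespace Pool.Agent.H32.SG

open Pool.Agent.H32.Stek Pool.Agent.H32.Q4

variable {n : ℕ} {p : ℕ → ℂ} {Om : Set ℂ}

private lemma seg_after {a b c : ℂ} (h1 : 0 < cr a b) (h2 : 0 < cr b c) {e : ℝ} (he : 0 < e)
    (he1 : e < 1) {z : ℂ} (hz : z ∈ segment ℝ a b) : ((1 - e : ℝ) : ℂ) * z ∉ segment ℝ b c := by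
  intro hy
  obtain ⟨s, hs0, hs1, rfl⟩ := mem_seg.1 hz
  obtain ⟨t, ht0, ht1, hyt⟩ := mem_seg.1 hy
  have k1 := congrArg (cr b) hyt
  rw [cr_smul_right, cr_add_right, cr_add_right, cr_smul_right, cr_smul_right, cr_sub_right,
    cr_sub_right, cr_self, cr_anti a b] at k1
  have k2 : 0 ≤ (1 - e) * ((1 - s) * cr a b) := by
    have : 0 ≤ (1 - s) * cr a b := mul_nonneg (by linarith) h1.le
    exact mul_nonneg (by linarith) this
  have k3 : 0 ≤ t * cr b c := mul_nonneg ht0 h2.le
  have k4 : (1 - e) * ((1 - s) * cr a b) = 0 := by linarith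
  have k5 : s = 1 := by
    rcases mul_eq_zero.1 k4 with h | h
    · linarith
    · rcases mul_eq_zero.1 h with h | h
      · linarith
      · linarith
  have k6 : t * cr b c = 0 := by linarith
  have k7 : t = 0 := by
    rcases mul_eq_zero.1 k6 with h | h
    · exact h
    · linarith
  subst k5
  subst k7
  have k8 : ((e : ℝ) : ℂ) * b = 0 := by
    push_cast at hyt
    linear_combination -hyt
  rcases mul_eq_zero.1 k8 with h | h
  · exact he.ne' (by exact_mod_cast h)
  · rw [h, cr_zero_left] at h2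
    exact lt_irrefl _ h2

private lemma seg_before {a b c : ℂ} (h1 : 0 < cr a b) (h2 : 0 < cr b c) {e : ℝ} (he : 0 < e)
    (he1 : e < 1) {z : ℂ} (hz : z ∈ segment ℝ b c) : ((1 - e : ℝ) : ℂ) * z ∉ segment ℝ a b := by
  intro hy
  obtain ⟨t, ht0, ht1, rfl⟩ := mem_seg.1 hz
  obtain ⟨s, hs0, hs1, hyt⟩ := mem_seg.1 hy
  have k1 := congrArg (cr b) hyt
  rw [cr_smul_right, cr_add_right, cr_add_right, cr_smul_right, cr_smul_right, cr_sub_right,
    cr_sub_right, cr_self, cr_anti a b] at k1
  have k2 : 0 ≤ (1 - e) * (t * cr b c) := by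
    have : 0 ≤ t * cr b c := mul_nonneg ht0 h2.le
    exact mul_nonneg (by linarith) this
  have k3 : 0 ≤ (1 - s) * cr a b := mul_nonneg (by linarith) h1.le
  have k4 : (1 - e) * (t * cr b c) = 0 := by linarith
  have k7 : t = 0 := by
    rcases mul_eq_zero.1 k4 with h | h
    · linarith
    · rcases mul_eq_zero.1 h with h | h
      · exact h
      · linarith
  have k6 : (1 - s) * cr a b = 0 := by linarith
  have k5 : s = 1 := by
    rcases mul_eq_zero.1 k6 with h | h
    · linarith
    · linarith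
  subst k5
  subst k7
  have k8 : ((e : ℝ) : ℂ) * b = 0 := by
    push_cast at hyt
    linear_combination -hyt
  rcases mul_eq_zero.1 k8 with h | h
  · exact he.ne' (by exact_mod_cast h)
  · rw [h, cr_zero_left] at h2
    exact lt_irrefl _ h2

private lemma seg_same {a b : ℂ} (h1 : 0 < cr a b) {e : ℝ} (he : 0 < e) {z : ℂ}
    (hz : z ∈ segment ℝ a b) : ((1 - e : ℝ) : ℂ) * z ∉ segment ℝ a b := by
  intro hy
  obtain ⟨s, hs0, hs1, rfl⟩ := mem_seg.1 hz
  obtain ⟨t, ht0, ht1, hyt⟩ := mem_seg.1 hy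
  have k1 := congrArg (fun u => cr u (b - a)) hyt
  simp only [cr_smul_left, cr_add_left, cr_sub_right, cr_sub_left, cr_self] at k1
  rw [cr_anti a b] at k1
  have k2 : e * cr a b = 0 := by linear_combination -k1
  rcases mul_eq_zero.1 k2 with h | h <;> linarith

private lemma seg_disj {a b a' b' : ℂ} (h : Disjoint (segment ℝ a b) (segment ℝ a' b')) :
    ∀ᶠ e in 𝓝[>] (0 : ℝ), ∀ z ∈ segment ℝ a b, ((1 - e : ℝ) : ℂ) * z ∉ segment ℝ a' b' := by
  have hcpt : ∀ u v : ℂ, IsCompact (segment ℝ u v) := fun u v => by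
    rw [segment_eq_image']
    exact isCompact_Icc.image (by fun_prop)
  obtain ⟨d, hd, hd2⟩ := Metric.exists_pos_forall_lt_edist (hcpt a b) (hcpt a' b').isClosed h
  obtain ⟨M, hM⟩ := (hcpt a b).isBounded.exists_norm_le
  have hM' : 0 < |M| + 1 := by positivity
  have hd' : 0 < (d : ℝ) / (|M| + 1) := div_pos (by exact_mod_cast hd) hM'
  filter_upwards [Ioo_mem_nhdsGT hd'] with e he z hz hy
  have k1 := hd2 z hz _ hy
  rw [edist_nndist, ENNReal.coe_lt_coe, ← NNReal.coe_lt_coe, coe_nndist, dist_eq_norm] at k1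
  have k2 : z - ((1 - e : ℝ) : ℂ) * z = (e : ℂ) * z := by push_cast; ring
  rw [k2, norm_mul, Complex.norm_real, Real.norm_eq_abs, abs_of_pos he.1] at k1
  have k3 : ‖z‖ ≤ |M| + 1 := by
    have := hM z hz
    have := le_abs_self M
    linarith
  have k4 : e * (|M| + 1) < d := by
    have := he.2
    rwa [lt_div_iff₀ hM'] at this
  have k5 : e * ‖z‖ ≤ e * (|M| + 1) := mul_le_mul_of_nonneg_left k3 he.1.le
  linarith

private lemma Ioo01 : ∀ᶠ e in 𝓝[>] (0 : ℝ), 0 < e ∧ e < 1 := by
  filter_upwards [Ioo_mem_nhdsGT (show (0 : ℝ) < 1 by norm_num)] with e he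
  exact he

private lemma pair (hP : Poly n p) (hc : ∀ j, 0 < cr (p j) (p (j + 1))) {i j : ℕ} (hi : i < n)
    (hj : j < n) : ∀ᶠ e in 𝓝[>] (0 : ℝ), ∀ z ∈ segment ℝ (p i) (p (i + 1)),
      ((1 - e : ℝ) : ℂ) * z ∉ segment ℝ (p j) (p (j + 1)) := by
  rcases lt_trichotomy i j with hij | hij | hij
  · by_cases hd : Disjoint (segment ℝ (p i) (p (i + 1))) (segment ℝ (p j) (p (j + 1)))
    · exact seg_disj hd
    · obtain ⟨z, hz1, hz2⟩ := Set.not_disjoint_iff.1 hd
      filter_upwards [Ioo01] with e he y hy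
      rcases hP.meet i j hij hj z hz1 hz2 with ⟨h, -⟩ | ⟨h, h', -⟩
      · subst h
        exact seg_after (hc i) (hc (i + 1)) he.1 he.2 hy
      · subst h
        have h0 : p (j + 1) = p 0 := by
          rw [h']
          simpa using hP.per 0
        have h1 := hc j
        rw [h0] at h1 ⊢
        exact seg_before h1 (hc 0) he.1 he.2 hy
  · subst hij
    filter_upwards [Ioo01] with e he y hy
    exact seg_same (hc i) he.1 hy
  · by_cases hd : Disjoint (segment ℝ (p i) (p (i + 1))) (segment ℝ (p j) (p (j + 1)))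
    · exact seg_disj hd
    · obtain ⟨z, hz1, hz2⟩ := Set.not_disjoint_iff.1 hd
      filter_upwards [Ioo01] with e he y hy
      rcases hP.meet j i hij hi z hz2 hz1 with ⟨h, -⟩ | ⟨h, h', -⟩
      · subst h
        exact seg_before (hc j) (hc (j + 1)) he.1 he.2 hy
      · subst h
        have h0 : p (i + 1) = p 0 := by
          rw [h']
          simpa using hP.per 0
        have h1 := hc i
        rw [h0] at h1 hy
        exact seg_after h1 (hc 0) he.1 he.2 hy

/-- Sh. Sides `i, j < n`. Same side: `cr z w` is constant and not zero on the side (`w` the side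
vector) and is multiplied by `1 - e`. Consecutive sides with common vertex `b` (also the pair
`n-1, 0`): for `x` on the side before `b` one has `cr b x ≤ 0` and for `y` on the side after `b`
`cr b y ≥ 0`, with equality only for multiples of `b`, that is `x = b`, `y = b`; so `(1-e) x` is on
the other side only if `x = b = (1-e) b`, impossible. Other pairs: disjoint compact sets have positive
distance and `|x - (1-e) x| ≤ e max |x|`. -/
theorem shrink (hP : Poly n p) (hc : ∀ j, 0 < cr (p j) (p (j + 1))) :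
    ∀ᶠ e in 𝓝[>] (0 : ℝ), ∀ z ∈ bdr p, ((1 - e : ℝ) : ℂ) * z ∉ bdr p := by
  have h : ∀ᶠ e in 𝓝[>] (0 : ℝ), ∀ i ∈ Finset.range n, ∀ j ∈ Finset.range n,
      ∀ z ∈ segment ℝ (p i) (p (i + 1)),
        ((1 - e : ℝ) : ℂ) * z ∉ segment ℝ (p j) (p (j + 1)) := by
    rw [Finset.eventually_all]
    intro i hi
    rw [Finset.eventually_all]
    intro j hj
    exact pair hP hc (Finset.mem_range.1 hi) (Finset.mem_range.1 hj)
  filter_upwards [h] with e he z hz hy
  rw [bdr_eq hP.pos hP.per] at hz hy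
  simp only [Set.mem_iUnion] at hz hy
  obtain ⟨i, hi, hz⟩ := hz
  obtain ⟨j, hj, hy⟩ := hy
  exact he i hi j hj z hz hy

end Pool.Agent.H32.SG
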