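import Mathlib
import Pool.Agent.H32.SG.Basic

set_option autoImplicit false

/-! Winding number: integrality, continuity, constancy on connected sets -/

open Complex MeasureTheory Set Finset Filter Topology

open scoped NNReal

namespace Pool.Agent.H32.SG

open Pool.Agent.H32.Stek Pool.Agent.H32.Q4

variable {n : ℕ} {p : ℕ → ℂ} {Om : Set ℂ}

private lemma ne_of_bdr {z : ℂ} (hz : z ∉ bdr p) (k : ℕ) : p k - z ≠ 0 := by
  intro h
  rw [sub_eq_zero] at h
  apply hz
  rw [← h]
  exact side_subset p k (left_mem_segment ℝ _ _)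

private lemma prod_quot {z : ℂ} (hz : z ∉ bdr p) (m : ℕ) :
    ∏ k ∈ Finset.range m, (p (k + 1) - z) / (p k - z) = (p m - z) / (p 0 - z) := by
  induction m with
  | zero => rw [Finset.prod_range_zero, div_self (ne_of_bdr hz 0)]
  | succ m ih =>
    rw [Finset.prod_range_succ, ih]
    have := ne_of_bdr hz m
    field_simp

/-- W1. For `z` off the polygon: `exp (i wnd) = prod_k q_k / |q_k|` with
`q_k = (p (k+1) - z) / (p k - z)`; the product of the `q_k` is `(p n - z) / (p 0 - z) = 1`. -/
theorem wnd_int (hn : 0 < n) (hper : ∀ j, p (j + n) = p j) {z : ℂ} (hz : z ∉ bdr p) :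
    ∃ m : ℤ, wnd n p z = 2 * Real.pi * m := by
  have h1 : exp ((wnd n p z : ℂ) * I) = 1 := by
    unfold wnd
    rw [Complex.ofReal_sum, Finset.sum_mul, Complex.exp_sum]
    have h2 : ∀ k ∈ Finset.range n, exp ((Complex.arg ((p (k + 1) - z) / (p k - z)) : ℂ) * I) =
        ((p (k + 1) - z) / (p k - z)) / (‖(p (k + 1) - z) / (p k - z)‖ : ℂ) := by
      intro k _
      have h3 := Complex.norm_mul_exp_arg_mul_I ((p (k + 1) - z) / (p k - z))
      have h4 : (‖(p (k + 1) - z) / (p k - z)‖ : ℂ) ≠ 0 := by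
        rw [Complex.ofReal_ne_zero]
        exact norm_ne_zero_iff.2 (div_ne_zero (ne_of_bdr hz (k + 1)) (ne_of_bdr hz k))
      rw [eq_div_iff h4, mul_comm]
      exact h3
    rw [Finset.prod_congr rfl h2, Finset.prod_div_distrib, prod_quot hz, ← Complex.ofReal_prod,
      ← norm_prod, prod_quot hz]
    have h5 : p n = p 0 := by
      have := hper 0
      rwa [zero_add] at this
    rw [h5, div_self (ne_of_bdr hz 0)]
    simp
  rw [Complex.exp_eq_one_iff] at h1
  obtain ⟨m, hm⟩ := h1
  refine ⟨m, ?_⟩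
  have h2 : (wnd n p z : ℂ) = ((2 * Real.pi * m : ℝ) : ℂ) := by
    have h3 : (wnd n p z : ℂ) * I = ((2 * Real.pi * m : ℝ) : ℂ) * I := by
      rw [hm]
      push_cast
      ring
    exact mul_right_cancel₀ I_ne_zero h3
  exact_mod_cast h2

/-- W2. `(b - z) / (a - z)` lies in the slit plane iff `z` is not on the segment `a b`. -/
theorem slit_iff {a b z : ℂ} (h : z ∉ segment ℝ a b) : (b - z) / (a - z) ∈ slitPlane := by
  by_contra hcon
  rw [Complex.mem_slitPlane_iff, not_or, not_lt, not_not] at hcon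
  obtain ⟨hre, him⟩ := hcon
  have haz : a - z ≠ 0 := by
    intro h1
    rw [sub_eq_zero] at h1
    exact h (h1 ▸ left_mem_segment ℝ _ _)
  set w := (b - z) / (a - z) with hw
  set t : ℝ := -w.re with ht
  have ht0 : 0 ≤ t := by linarith
  have hwt : w = -(t : ℂ) := by
    apply Complex.ext
    · simp [ht]
    · simp [him]
  have h1 : b - z = -(t : ℂ) * (a - z) := by
    rw [← hwt, hw, div_mul_cancel₀ _ haz]
  apply h
  rw [mem_seg]
  have h2 : (0 : ℝ) < 1 + t := by linarith
  refine ⟨1 / (1 + t), by positivity, ?_, ?_⟩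
  · rw [div_le_one h2]
    linarith
  · have h3 : ((1 : ℂ) + t) ≠ 0 := by
      have : ((1 + t : ℝ) : ℂ) ≠ 0 := Complex.ofReal_ne_zero.2 h2.ne'
      push_cast at this
      exact this
    have h4 : ((1 : ℂ) + t) * z = (t : ℂ) * a + b := by linear_combination (-1 : ℂ) * h1
    push_cast
    field_simp
    linear_combination h4

theorem wnd_cont (p : ℕ → ℂ) : ContinuousOn (wnd n p) (bdr p)ᶜ := by
  unfold wnd
  refine continuousOn_finsetSum _ fun k _ z hz => ContinuousAt.continuousWithinAt ?_
  have hz' : z ∉ bdr p := hz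
  have h1 : ContinuousAt (fun z : ℂ => (p (k + 1) - z) / (p k - z)) z :=
    ContinuousAt.div (by fun_prop) (by fun_prop) (ne_of_bdr hz' k)
  have h2 : (p (k + 1) - z) / (p k - z) ∈ slitPlane :=
    slit_iff fun h => hz' (side_subset p k h)
  exact ContinuousAt.comp (f := fun z : ℂ => (p (k + 1) - z) / (p k - z)) (g := Complex.arg)
    (Complex.continuousAt_arg h2) h1

/-- W3. continuous with values in a discrete set. -/
theorem wnd_const (hn : 0 < n) (hper : ∀ j, p (j + n) = p j) {S : Set ℂ} (hS : IsPreconnected S)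
    (hd : ∀ z ∈ S, z ∉ bdr p) {x y : ℂ} (hx : x ∈ S) (hy : y ∈ S) : wnd n p x = wnd n p y := by
  have key : ∀ x y : ℂ, x ∈ S → y ∈ S → ¬ wnd n p x < wnd n p y := by
    intro x y hx hy hlt
    obtain ⟨m, hm⟩ := wnd_int hn hper (hd x hx)
    obtain ⟨m', hm'⟩ := wnd_int hn hper (hd y hy)
    have hpi := Real.pi_pos
    have hc : ContinuousOn (wnd n p) S := (wnd_cont p).mono fun z hz => hd z hz
    have h1 := hS.intermediate_value hx hy hc
    have hmm : m < m' := by
      rw [hm, hm'] at hlt
      have h2 : (m : ℝ) < m' := lt_of_mul_lt_mul_left hlt (by positivity)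
      exact_mod_cast h2
    have hmm' : (m : ℝ) + 1 ≤ m' := by exact_mod_cast hmm
    have h2 : 2 * Real.pi * (m + 1 / 2) ∈ Icc (wnd n p x) (wnd n p y) := by
      rw [hm, hm']
      constructor
      · exact mul_le_mul_of_nonneg_left (by linarith) (by positivity)
      · exact mul_le_mul_of_nonneg_left (by linarith) (by positivity)
    obtain ⟨z, hz, hzw⟩ := h1 h2
    obtain ⟨k, hk⟩ := wnd_int hn hper (hd z hz)
    rw [hk] at hzw
    have h3 : (k : ℝ) = m + 1 / 2 := mul_left_cancel₀ (by positivity) hzw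
    have h4 : (2 * k : ℝ) = 2 * m + 1 := by linarith
    have h5 : 2 * k = 2 * m + 1 := by exact_mod_cast h4
    omega
  rcases lt_trichotomy (wnd n p x) (wnd n p y) with h | h | h
  · exact absurd h (key x y hx hy)
  · exact h
  · exact absurd h (key y x hy hx)

/-- W4. unbounded connected sets: `wnd n p z → 0` as `|z| → ∞` since every quotient tends to one. -/
theorem wnd_zero (hn : 0 < n) (hper : ∀ j, p (j + n) = p j) {S : Set ℂ} (hS : IsPreconnected S)
    (hd : ∀ z ∈ S, z ∉ bdr p) (hub : ¬ Bornology.IsBounded S) {x : ℂ} (hx : x ∈ S) :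
    wnd n p x = 0 := by
  have hpi := Real.pi_pos
  have hterm : ∀ k, Tendsto (fun z : ℂ => Complex.arg ((p (k + 1) - z) / (p k - z)))
      (Bornology.cobounded ℂ) (𝓝 0) := by
    intro k
    have h1 : Tendsto (fun z : ℂ => p k - z) (Bornology.cobounded ℂ) (Bornology.cobounded ℂ) := by
      rw [← tendsto_norm_atTop_iff_cobounded]
      have h2 : Tendsto (fun z : ℂ => ‖z‖ - ‖p k‖) (Bornology.cobounded ℂ) atTop :=
        tendsto_atTop_add_const_right _ _ tendsto_norm_cobounded_atTop
      refine tendsto_atTop_mono (fun z => ?_) h2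
      rw [norm_sub_rev]
      exact norm_sub_norm_le _ _
    have h2 : Tendsto (fun z : ℂ => 1 + (p (k + 1) - p k) * (p k - z)⁻¹) (Bornology.cobounded ℂ)
        (𝓝 (1 + (p (k + 1) - p k) * 0)) :=
      tendsto_const_nhds.add (tendsto_const_nhds.mul (tendsto_inv₀_cobounded.comp h1))
    rw [mul_zero, add_zero] at h2
    have h3 : Tendsto (fun z : ℂ => (p (k + 1) - z) / (p k - z)) (Bornology.cobounded ℂ) (𝓝 1) := by
      refine h2.congr' ?_
      have h4 : ∀ᶠ z : ℂ in Bornology.cobounded ℂ, ‖p k‖ + 1 ≤ ‖z‖ := eventually_cobounded_le_norm _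
      filter_upwards [h4] with z hz
      have h5 : p k - z ≠ 0 := by
        intro h
        rw [sub_eq_zero] at h
        rw [← h] at hz
        linarith
      field_simp
      ring
    have h4 : ContinuousAt Complex.arg 1 := Complex.continuousAt_arg (by simp)
    have h5 := h4.tendsto.comp h3
    rw [Complex.arg_one] at h5
    exact h5
  have hsum : Tendsto (wnd n p) (Bornology.cobounded ℂ) (𝓝 0) := by
    have := tendsto_finsetSum (Finset.range n) fun k _ => hterm k
    rw [Finset.sum_const_zero] at this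
    exact this
  have hev : ∀ᶠ z in Bornology.cobounded ℂ, |wnd n p z| < 2 * Real.pi := by
    have h1 : ∀ᶠ y in 𝓝 (0 : ℝ), |y| < 2 * Real.pi := by
      have : Tendsto (fun y : ℝ => |y|) (𝓝 0) (𝓝 |0|) := (continuous_abs.tendsto 0)
      rw [abs_zero] at this
      exact this.eventually (gt_mem_nhds (by positivity))
    exact hsum.eventually h1
  have hex : ∃ z ∈ S, |wnd n p z| < 2 * Real.pi := by
    by_contra hcon
    push Not at hcon
    apply hub
    have h1 : Bornology.IsBounded {z : ℂ | |wnd n p z| < 2 * Real.pi}ᶜ := by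
      rw [Bornology.isBounded_def, compl_compl]
      exact hev
    refine h1.subset fun z hz => ?_
    simp only [mem_compl_iff, mem_ofPred_eq, not_lt]
    exact hcon z hz
  obtain ⟨z, hz, hlt⟩ := hex
  rw [wnd_const hn hper hS hd hx hz]
  obtain ⟨m, hm⟩ := wnd_int hn hper (hd z hz)
  rw [hm] at hlt ⊢
  rw [abs_mul, abs_of_pos (by positivity : (0 : ℝ) < 2 * Real.pi)] at hlt
  have h1 : |(m : ℝ)| < 1 := by
    have h2 : 2 * Real.pi * |(m : ℝ)| < 2 * Real.pi * 1 := by rw [mul_one]; exact hlt
    exact lt_of_mul_lt_mul_left h2 (by positivity)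
  have h2 : |m| < 1 := by exact_mod_cast h1
  have h3 : m = 0 := Int.abs_lt_one_iff.1 h2
  rw [h3]
  simp

end Pool.Agent.H32.SG
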