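import Mathlib
import Pool.Agent.H32.SG.Basic
import Pool.Agent.H32.SG.WInt

set_option autoImplicit false

/-! Winding number: the jump across a side -/

open Complex MeasureTheory Set Finset Filter Topology

open scoped NNReal

namespace Pool.Agent.H32.SG

open Pool.Agent.H32.Stek Pool.Agent.H32.Q4

variable {n : ℕ} {p : ℕ → ℂ} {Om : Set ℂ}

private lemma wj_arg_up {u : ℝ → ℂ} {q0 : ℂ} {l : Filter ℝ} (hu : Tendsto u l (𝓝 q0))
    (h0 : q0.re < 0) (h0' : q0.im = 0) (hpos : ∀ᶠ e in l, 0 < (u e).im) :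
    Tendsto (fun e => arg (u e)) l (𝓝 Real.pi) := by
  have h1 := Complex.continuousWithinAt_arg_of_re_neg_of_im_zero h0 h0'
  have h2 : arg q0 = Real.pi := Complex.arg_eq_pi_iff.mpr ⟨h0, h0'⟩
  rw [ContinuousWithinAt, h2] at h1
  exact h1.comp (tendsto_nhdsWithin_iff.mpr ⟨hu, hpos.mono fun e he => le_of_lt he⟩)

private lemma wj_arg_down {u : ℝ → ℂ} {q0 : ℂ} {l : Filter ℝ} (hu : Tendsto u l (𝓝 q0))
    (h0 : q0.re < 0) (h0' : q0.im = 0) (hneg : ∀ᶠ e in l, (u e).im < 0) :
    Tendsto (fun e => arg (u e)) l (𝓝 (-Real.pi)) := by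
  have h1 := Complex.tendsto_arg_nhdsWithin_im_neg_of_re_neg_of_im_zero h0 h0'
  exact h1.comp (tendsto_nhdsWithin_iff.mpr ⟨hu, hneg.mono fun e he => he⟩)

private lemma wj_only (hP : Poly n p) {j : ℕ} (hj : j < n) {x : ℂ}
    (hx : x ∈ openSegment ℝ (p j) (p (j + 1))) {k : ℕ} (hk : k < n)
    (hkj : k ≠ j) : x ∉ segment ℝ (p k) (p (k + 1)) := by
  intro hxk
  have hne := hP.ne j
  have hx1 : x ≠ p j := by
    rintro rfl
    exact hne (left_mem_openSegment_iff.mp hx)
  have hx2 : x ≠ p (j + 1) := by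
    rintro rfl
    exact hne (right_mem_openSegment_iff.mp hx)
  have hxs := openSegment_subset_segment ℝ _ _ hx
  rcases lt_or_gt_of_ne hkj with h | h
  · rcases hP.meet k j h hj x hxk hxs with ⟨_, h2⟩ | ⟨_, h2, h3⟩
    · exact hx1 h2
    · apply hx2
      have := hP.per 0
      rw [zero_add] at this
      rw [h3, h2, this]
  · rcases hP.meet j k h hk x hxs hxk with ⟨h1, h2⟩ | ⟨h1, h2, h3⟩
    · apply hx2
      rw [h2, h1]
    · apply hx1
      rw [h3, h1]

private lemma wj_im {a b z : ℂ} : ((b - z) / (a - z)).im = cr (a - z) (b - z) / normSq (a - z) := by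
  rw [Complex.div_im]
  unfold cr
  ring

private lemma wj_cr {a b x : ℂ} {s : ℝ} (hx : x = a + (s : ℂ) * (b - a)) (e : ℝ) :
    cr (a - ((1 - e : ℝ) : ℂ) * x) (b - ((1 - e : ℝ) : ℂ) * x) = e * cr a b := by
  subst hx
  unfold cr
  simp
  ring

private lemma wj_mem {a b z : ℂ} (h : z ∈ segment ℝ a b) : cr (a - z) (b - z) = 0 := by
  obtain ⟨s, _, _, rfl⟩ := mem_seg.mp h
  unfold cr
  simp
  ring

/-- WJ. Let `x` be an inner point of the side `j` (so it is on no other side). The terms `k ≠ j` of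
`wnd` are continuous at `x`; the term `k = j` is the argument of `(b - z)/(a - z)`, whose imaginary
part has the sign of `cr (a - z) (b - z)`, and for `z = (1 ∓ e) x` one has
`cr (a - z) (b - z) = ± e cr a b`; at `z = x` the quotient is a negative real number. So for
`cr a b > 0` the argument tends to `pi` at `(1-e) x` and to `-pi` at `(1+e) x`
(`Complex.continuousWithinAt_arg_of_re_neg_of_im_zero`,
`Complex.tendsto_arg_nhdsWithin_im_neg_of_re_neg_of_im_zero`). The difference of the two values of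
`wnd` is an integral multiple of `2 pi` (`wnd_int`; both points are off the polygon for small `e`),
and tends to `2 pi`. For `cr a b < 0` the signs are exchanged. -/
theorem wnd_jump (hP : Poly n p) {j : ℕ} (hj : j < n) {x : ℂ}
    (hx : x ∈ openSegment ℝ (p j) (p (j + 1))) (hc : cr (p j) (p (j + 1)) ≠ 0) :
    ∀ᶠ e in 𝓝[>] (0 : ℝ), wnd n p (((1 - e : ℝ) : ℂ) * x) - wnd n p (((1 + e : ℝ) : ℂ) * x) =
      if 0 < cr (p j) (p (j + 1)) then 2 * Real.pi else -(2 * Real.pi) := by
  obtain ⟨s, hs0, hs1, hxs⟩ := mem_openSeg.mp hx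
  have hn : 0 < n := hP.pos
  set a := p j with ha
  set b := p (j + 1) with hb
  have hab : b - a ≠ 0 := sub_ne_zero.mpr (hP.ne j).symm
  have hax : a - x = (((-s : ℝ)) : ℂ) * (b - a) := by rw [hxs]; push_cast; ring
  have hbx : b - x = (((1 - s : ℝ)) : ℂ) * (b - a) := by rw [hxs]; push_cast; ring
  have haxne : a - x ≠ 0 := by
    rw [hax]
    exact mul_ne_zero (by exact_mod_cast (neg_ne_zero.mpr hs0.ne')) hab
  have hq0 : (b - x) / (a - x) = ((-((1 - s) / s) : ℝ) : ℂ) := by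
    rw [hax, hbx, mul_div_mul_right _ _ hab, ← Complex.ofReal_div]
    congr 1
    rw [div_neg]
  -- the path
  have hlim : Tendsto (fun e : ℝ => ((1 - e : ℝ) : ℂ) * x) (𝓝 0) (𝓝 x) := by
    have : Continuous (fun e : ℝ => ((1 - e : ℝ) : ℂ) * x) := by fun_prop
    have h2 := this.tendsto 0
    simpa using h2
  have hlimR : Tendsto (fun e : ℝ => ((1 - e : ℝ) : ℂ) * x) (𝓝[>] 0) (𝓝 x) :=
    hlim.mono_left nhdsWithin_le_nhds
  have hlim2 : Tendsto (fun e : ℝ => ((1 + e : ℝ) : ℂ) * x) (𝓝[>] 0) (𝓝 x) := by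
    have : Continuous (fun e : ℝ => ((1 + e : ℝ) : ℂ) * x) := by fun_prop
    have h2 := this.tendsto 0
    have h3 : Tendsto (fun e : ℝ => ((1 + e : ℝ) : ℂ) * x) (𝓝 0) (𝓝 x) := by simpa using h2
    exact h3.mono_left nhdsWithin_le_nhds
  -- terms different from j
  have hterm : ∀ k ∈ (Finset.range n).erase j, Tendsto (fun e : ℝ =>
      Complex.arg ((p (k + 1) - ((1 - e : ℝ) : ℂ) * x) / (p k - ((1 - e : ℝ) : ℂ) * x)) -
      Complex.arg ((p (k + 1) - ((1 + e : ℝ) : ℂ) * x) / (p k - ((1 + e : ℝ) : ℂ) * x)))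
      (𝓝[>] 0) (𝓝 0) := by
    intro k hk
    rw [Finset.mem_erase, Finset.mem_range] at hk
    have hns := wj_only hP hj hx hk.2 hk.1
    have hsl := slit_iff hns
    have hkx : p k - x ≠ 0 := by
      intro h
      apply hns
      rw [← sub_eq_zero.mp h]
      exact left_mem_segment ℝ _ _
    have hc1 : ContinuousAt (fun z : ℂ => Complex.arg ((p (k + 1) - z) / (p k - z))) x := by
      have h1 : ContinuousAt (fun z : ℂ => (p (k + 1) - z) / (p k - z)) x :=
        ContinuousAt.div (by fun_prop) (by fun_prop) hkx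
      exact ContinuousAt.comp (f := fun z : ℂ => (p (k + 1) - z) / (p k - z)) (g := Complex.arg)
        (Complex.continuousAt_arg hsl) h1
    have h1 := hc1.tendsto.comp hlimR
    have h2 := hc1.tendsto.comp hlim2
    have h3 := h1.sub h2
    rw [sub_self] at h3
    exact h3
  have hsumterm := tendsto_finsetSum _ hterm
  rw [Finset.sum_const_zero] at hsumterm
  -- the term j
  have hqc : ContinuousAt (fun z : ℂ => (b - z) / (a - z)) x :=
    ContinuousAt.div (by fun_prop) (by fun_prop) haxne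
  have hq1 := hqc.tendsto.comp hlimR
  have hq2 := hqc.tendsto.comp hlim2
  have hre : ((b - x) / (a - x)).re < 0 := by
    rw [hq0, Complex.ofReal_re]
    have : 0 < (1 - s) / s := div_pos (by linarith) hs0
    linarith
  have him : ((b - x) / (a - x)).im = 0 := by
    rw [hq0, Complex.ofReal_im]
  have hns1 : ∀ᶠ e in 𝓝[>] (0 : ℝ), 0 < normSq (a - ((1 - e : ℝ) : ℂ) * x) := by
    have h1 : Tendsto (fun e : ℝ => a - ((1 - e : ℝ) : ℂ) * x) (𝓝[>] 0) (𝓝 (a - x)) :=
      tendsto_const_nhds.sub hlimR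
    exact (h1.eventually_ne haxne).mono fun e he => normSq_pos.mpr he
  have hns2 : ∀ᶠ e in 𝓝[>] (0 : ℝ), 0 < normSq (a - ((1 + e : ℝ) : ℂ) * x) := by
    have h1 : Tendsto (fun e : ℝ => a - ((1 + e : ℝ) : ℂ) * x) (𝓝[>] 0) (𝓝 (a - x)) :=
      tendsto_const_nhds.sub hlim2
    exact (h1.eventually_ne haxne).mono fun e he => normSq_pos.mpr he
  have hpos : ∀ᶠ e in 𝓝[>] (0 : ℝ), 0 < e := eventually_mem_nhdsWithin
  have hcr2 : ∀ e : ℝ, cr (a - ((1 + e : ℝ) : ℂ) * x) (b - ((1 + e : ℝ) : ℂ) * x) =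
      -e * cr a b := by
    intro e
    have := wj_cr hxs (-e)
    rw [sub_neg_eq_add] at this
    exact this
  set T : ℝ := if 0 < cr a b then 2 * Real.pi else -(2 * Real.pi) with hT
  have hj1 : Tendsto (fun e : ℝ =>
      Complex.arg ((b - ((1 - e : ℝ) : ℂ) * x) / (a - ((1 - e : ℝ) : ℂ) * x)) -
      Complex.arg ((b - ((1 + e : ℝ) : ℂ) * x) / (a - ((1 + e : ℝ) : ℂ) * x)))
      (𝓝[>] 0) (𝓝 T) := by
    rcases lt_or_gt_of_ne hc with hc' | hc'
    · have e1 := wj_arg_down hq1 hre him (by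
        filter_upwards [hpos, hns1] with e he1 he2
        show ((b - ((1 - e : ℝ) : ℂ) * x) / (a - ((1 - e : ℝ) : ℂ) * x)).im < 0
        rw [wj_im, wj_cr hxs]
        exact div_neg_of_neg_of_pos (mul_neg_of_pos_of_neg he1 hc') he2)
      have e2 := wj_arg_up hq2 hre him (by
        filter_upwards [hpos, hns2] with e he1 he2
        show 0 < ((b - ((1 + e : ℝ) : ℂ) * x) / (a - ((1 + e : ℝ) : ℂ) * x)).im
        rw [wj_im, hcr2]
        exact div_pos (mul_pos_of_neg_of_neg (neg_neg_of_pos he1) hc') he2)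
      have e3 := e1.sub e2
      have e4 : T = -Real.pi - Real.pi := by
        rw [hT, if_neg (not_lt.mpr hc'.le)]; ring
      rw [e4]
      exact e3
    · have e1 := wj_arg_up hq1 hre him (by
        filter_upwards [hpos, hns1] with e he1 he2
        show 0 < ((b - ((1 - e : ℝ) : ℂ) * x) / (a - ((1 - e : ℝ) : ℂ) * x)).im
        rw [wj_im, wj_cr hxs]
        exact div_pos (mul_pos he1 hc') he2)
      have e2 := wj_arg_down hq2 hre him (by
        filter_upwards [hpos, hns2] with e he1 he2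
        show ((b - ((1 + e : ℝ) : ℂ) * x) / (a - ((1 + e : ℝ) : ℂ) * x)).im < 0
        rw [wj_im, hcr2]
        exact div_neg_of_neg_of_pos (mul_neg_of_neg_of_pos (neg_neg_of_pos he1) hc') he2)
      have e3 := e1.sub e2
      have e4 : T = Real.pi - -Real.pi := by
        rw [hT, if_pos hc']; ring
      rw [e4]
      exact e3
  have htot : Tendsto (fun e : ℝ => wnd n p (((1 - e : ℝ) : ℂ) * x) -
      wnd n p (((1 + e : ℝ) : ℂ) * x)) (𝓝[>] 0) (𝓝 T) := by
    have h1 := hj1.add hsumterm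
    rw [add_zero] at h1
    refine h1.congr fun e => ?_
    unfold wnd
    rw [← Finset.sum_sub_distrib, ← Finset.add_sum_erase _ _ (Finset.mem_range.mpr hj)]
  -- both points are off the polygon
  have hoff : ∀ (z : ℝ → ℂ), Tendsto z (𝓝[>] 0) (𝓝 x) →
      (∀ᶠ e in 𝓝[>] (0 : ℝ), cr (a - z e) (b - z e) ≠ 0) →
      ∀ᶠ e in 𝓝[>] (0 : ℝ), z e ∉ bdr p := by
    intro z hz hz2
    have h1 : ∀ k ∈ Finset.range n, ∀ᶠ e in 𝓝[>] (0 : ℝ), z e ∉ segment ℝ (p k) (p (k + 1)) := by
      intro k hk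
      by_cases hkj : k = j
      · subst hkj
        exact hz2.mono fun e he h => he (wj_mem h)
      · have hns := wj_only hP hj hx (Finset.mem_range.mp hk) hkj
        have hcl : IsClosed (segment ℝ (p k) (p (k + 1))) := by
          rw [segment_eq_image']
          exact (isCompact_Icc.image (by fun_prop)).isClosed
        exact hz.eventually (hcl.isOpen_compl.mem_nhds hns)
    have h2 := (Filter.eventually_all_finset (Finset.range n)).mpr h1
    refine h2.mono fun e he h => ?_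
    rw [bdr_eq hn hP.per] at h
    simp only [Set.mem_iUnion] at h
    obtain ⟨k, hk, hk2⟩ := h
    exact he k hk hk2
  have hoff1 := hoff _ hlimR (by
    filter_upwards [hpos] with e he
    rw [wj_cr hxs]
    exact mul_ne_zero he.ne' hc)
  have hoff2 := hoff _ hlim2 (by
    filter_upwards [hpos] with e he
    rw [hcr2]
    exact mul_ne_zero (neg_ne_zero.mpr he.ne') hc)
  have hTt : ∃ t : ℤ, T = 2 * Real.pi * t := by
    rw [hT]
    split_ifs
    · exact ⟨1, by simp⟩
    · exact ⟨-1, by simp⟩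
  obtain ⟨t, ht⟩ := hTt
  have hclose : ∀ᶠ e in 𝓝[>] (0 : ℝ), |wnd n p (((1 - e : ℝ) : ℂ) * x) -
      wnd n p (((1 + e : ℝ) : ℂ) * x) - T| < 2 * Real.pi := by
    have := (Metric.tendsto_nhds.mp htot) (2 * Real.pi) (by positivity)
    exact this.mono fun e he => by rwa [Real.dist_eq] at he
  filter_upwards [hoff1, hoff2, hclose] with e he1 he2 he3
  obtain ⟨m1, hm1⟩ := wnd_int hn hP.per he1
  obtain ⟨m2, hm2⟩ := wnd_int hn hP.per he2
  rw [hm1, hm2, ht] at he3
  have h5 : 2 * Real.pi * (m1 : ℝ) - 2 * Real.pi * m2 - 2 * Real.pi * t =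
      2 * Real.pi * ((m1 - m2 - t : ℤ) : ℝ) := by push_cast; ring
  rw [h5, abs_mul, abs_of_pos (by positivity : (0 : ℝ) < 2 * Real.pi)] at he3
  have h6 : |((m1 - m2 - t : ℤ) : ℝ)| < 1 := by
    by_contra h
    rw [not_lt] at h
    have : 2 * Real.pi * 1 ≤ 2 * Real.pi * |((m1 - m2 - t : ℤ) : ℝ)| :=
      mul_le_mul_of_nonneg_left h (by positivity)
    linarith
  have h7 : m1 - m2 - t = 0 := by
    rw [← Int.cast_abs] at h6
    have h8 : |m1 - m2 - t| < 1 := by exact_mod_cast h6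
    exact Int.abs_lt_one_iff.mp h8
  rw [hm1, hm2, ht]
  have h9 : m1 = m2 + t := by omega
  rw [h9]
  push_cast
  ring

end Pool.Agent.H32.SG
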