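import Mathlib
import Pool.Agent.H32.SG.Basic
import Pool.Agent.H32.SG.WJump
import Pool.Agent.H32.SG.Inner
import Pool.Agent.H32.SG.Shrink

set_option autoImplicit false

/-! All sides visible: orientation and total angle -/

open Complex MeasureTheory Set Finset Filter Topology

open scoped NNReal

namespace Pool.Agent.H32.SG

open Pool.Agent.H32.Stek Pool.Agent.H32.Q4

variable {n : ℕ} {p : ℕ → ℂ} {Om : Set ℂ}

/-- a visible side gives a point of the region with winding number plus or minus one, and for small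
`e` the point `(1-e) x` is in the region -/
private lemma Sign_vis (hP : Poly n p) (hR : Reg p Om) {j : ℕ} (hj : j < n) (hv : Vis p j) :
    ∃ x ∈ bdr p, (∀ᶠ e in 𝓝[>] (0 : ℝ), ((1 - e : ℝ) : ℂ) * x ∈ Om) ∧
      ∃ y ∈ Om, wnd n p y =
        if 0 < cr (p j) (p (j + 1)) then 2 * Real.pi else -(2 * Real.pi) := by
  obtain ⟨hc, x, hx, hs⟩ := hv
  have hxb : x ∈ bdr p := side_subset p j (openSegment_subset_segment ℝ _ _ hx)
  have hx0 : x ≠ 0 := by
    intro h0
    apply hs 2 (by norm_num)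
    rw [h0, mul_zero, ← h0]
    exact hxb
  have hin := inner_mem hP hR hj hx hc hs
  have hju := wnd_jump hP hj hx hc
  refine ⟨x, hxb, hin, ?_⟩
  obtain ⟨e, ⟨he1, he2⟩, he3⟩ := ((hin.and hju).and self_mem_nhdsWithin).exists
  refine ⟨_, he1, ?_⟩
  rw [← he2]
  have h0 : wnd n p (((1 + e : ℝ) : ℂ) * x) = 0 := by
    have he3' : (0:ℝ) < e := he3
    refine wnd_zero hP.pos hP.per (S := (fun s : ℝ => (s : ℂ) * x) '' Set.Ioi 1) ?_ ?_ ?_ ?_
    · exact isPreconnected_Ioi.image _ (by fun_prop)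
    · rintro z ⟨s, hs1, rfl⟩
      exact hs s hs1
    · intro hb
      obtain ⟨R, hR⟩ := hb.exists_norm_le
      have hxn : 0 < ‖x‖ := norm_pos_iff.mpr hx0
      have h1 := hR _ ⟨max 2 ((|R| + 1) / ‖x‖), (lt_of_lt_of_le (by norm_num) (le_max_left _ _) : (1:ℝ) < _), rfl⟩
      rw [norm_mul, Complex.norm_real, Real.norm_of_nonneg (by positivity)] at h1
      have h2 : (|R| + 1) / ‖x‖ * ‖x‖ ≤ max 2 ((|R| + 1) / ‖x‖) * ‖x‖ := by
        gcongr
        exact le_max_right _ _
      rw [div_mul_cancel₀ _ hxn.ne'] at h2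
      have := le_abs_self R
      linarith
    · exact ⟨1 + e, by simpa using he3', rfl⟩
  rw [h0, sub_zero]

private lemma Sign_const (hP : Poly n p) (hR : Reg p Om) {x y : ℂ} (hx : x ∈ Om) (hy : y ∈ Om) :
    wnd n p x = wnd n p y :=
  wnd_const hP.pos hP.per hR.conn.isPreconnected (fun _ hz => hR.disj hz) hx hy

/-- Sg1. If all sides are visible then all cross products have the same sign: for a visible point `x`
of side `j` and small `e`, `wnd ((1+e) x) = 0` (`wnd_zero` on the ray), `wnd ((1-e) x) = ± 2 pi`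
(`wnd_jump`), `(1-e) x ∈ Om` (`inner_mem`), and `wnd` is constant on `Om`. -/
theorem same_sign (hP : Poly n p) (hR : Reg p Om) (hv : ∀ j < n, Vis p j) :
    (∀ j, 0 < cr (p j) (p (j + 1))) ∨ (∀ j, cr (p j) (p (j + 1)) < 0) := by
  have hmod : ∀ j, cr (p j) (p (j + 1)) = cr (p (j % n)) (p (j % n + 1)) := by
    intro j
    have h1 : p (j % n) = p j := per_mod hP.per j
    have h2 : p (j % n + 1) = p (j + 1) := by
      have h3 : j + 1 = (j % n + 1) + n * (j / n) := by
        have := Nat.mod_add_div j n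
        omega
      rw [h3, per_add_mul hP.per]
    rw [h1, h2]
  have hpi := Real.pi_pos
  by_cases h0 : 0 < cr (p 0) (p (0 + 1))
  · left
    intro j
    rw [hmod j]
    have hj : j % n < n := Nat.mod_lt _ hP.pos
    by_contra hcon
    obtain ⟨_, _, _, y, hy, hwy⟩ := Sign_vis hP hR hj (hv _ hj)
    obtain ⟨_, _, _, z, hz, hwz⟩ := Sign_vis hP hR hP.pos (hv _ hP.pos)
    rw [if_neg hcon] at hwy
    rw [if_pos h0] at hwz
    have := Sign_const hP hR hy hz
    linarith
  · right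
    intro j
    rw [hmod j]
    have hj : j % n < n := Nat.mod_lt _ hP.pos
    by_contra hcon
    have hcon' : 0 < cr (p (j % n)) (p (j % n + 1)) := by
      have hne := (hv _ hj).1
      push Not at hcon
      exact lt_of_le_of_ne hcon (Ne.symm hne)
    obtain ⟨_, _, _, y, hy, hwy⟩ := Sign_vis hP hR hj (hv _ hj)
    obtain ⟨_, _, _, z, hz, hwz⟩ := Sign_vis hP hR hP.pos (hv _ hP.pos)
    rw [if_pos hcon'] at hwy
    rw [if_neg h0] at hwz
    have := Sign_const hP hR hy hz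
    linarith

private lemma Sign_zero_notin (hc : ∀ j, 0 < cr (p j) (p (j + 1))) : (0 : ℂ) ∉ bdr p := by
  intro h
  obtain ⟨j, hj⟩ := Set.mem_iUnion.mp h
  obtain ⟨s, _, _, h0⟩ := mem_seg.mp hj
  have h1 := hc j
  have h2 : cr (p j + (s:ℂ) * (p (j + 1) - p j)) (p (j + 1) - p j) = cr (p j) (p (j + 1)) := by
    rw [cr_add_left, cr_smul_left, cr_self, cr_sub_right, cr_self]; ring
  rw [← h0, cr_zero_left] at h2
  linarith

/-- Sg2. `(1-e) bdr p` is connected, meets `Om` and not `bdr p`, so `wnd = 2 pi` on it; the point of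
`bdr p` nearest to the origin gives `wnd 0 = 2 pi`. -/
theorem total_angle (hP : Poly n p) (hR : Reg p Om) (hc : ∀ j, 0 < cr (p j) (p (j + 1)))
    (hv : ∀ j < n, Vis p j) :
    ∑ k ∈ Finset.range n, Complex.arg (p (k + 1) / p k) = 2 * Real.pi := by
  obtain ⟨x, hxb, hin, y, hy, hwy⟩ := Sign_vis hP hR hP.pos (hv _ hP.pos)
  rw [if_pos (hc 0)] at hwy
  have hsmall : ∀ᶠ e in 𝓝[>] (0 : ℝ), e < 1 :=
    (Filter.Tendsto.eventually_lt_const (by norm_num : (0:ℝ) < 1)
      (tendsto_id.mono_left nhdsWithin_le_nhds))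
  obtain ⟨e, ⟨⟨he1, he2⟩, he3⟩, he4⟩ :=
    (((hin.and (shrink hP hc)).and hsmall).and self_mem_nhdsWithin).exists
  have he4' : (0:ℝ) < e := he4
  -- the nearest point
  obtain ⟨x0, hx0, hmin⟩ := (isCompact_bdr hP.pos hP.per).exists_isMinOn (isConnected_bdr p).nonempty
    (continuous_norm.continuousOn)
  have hx00 : x0 ≠ 0 := by
    intro h
    rw [h] at hx0
    exact Sign_zero_notin hc hx0
  -- value on the shrunk polygon
  have h1 : wnd n p (((1 - e : ℝ) : ℂ) * x) = wnd n p (((1 - e : ℝ) : ℂ) * x0) := by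
    refine wnd_const hP.pos hP.per (S := (fun z : ℂ => ((1 - e : ℝ) : ℂ) * z) '' bdr p) ?_ ?_ ?_ ?_
    · exact (isConnected_bdr p).isPreconnected.image _ (by fun_prop)
    · rintro z ⟨w, hw, rfl⟩
      exact he2 w hw
    · exact ⟨x, hxb, rfl⟩
    · exact ⟨x0, hx0, rfl⟩
  have h2 : wnd n p (((1 - e : ℝ) : ℂ) * x0) = wnd n p 0 := by
    refine wnd_const hP.pos hP.per (S := (fun s : ℝ => (s : ℂ) * x0) '' Set.Ico 0 1) ?_ ?_ ?_ ?_
    · exact isPreconnected_Ico.image _ (by fun_prop)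
    · rintro z ⟨s, hs, rfl⟩ hz
      have h3 : ‖x0‖ ≤ ‖(s : ℂ) * x0‖ := hmin hz
      rw [norm_mul, Complex.norm_real, Real.norm_of_nonneg hs.1] at h3
      have h4 : 0 < ‖x0‖ := norm_pos_iff.mpr hx00
      nlinarith [hs.2]
    · exact ⟨1 - e, ⟨by linarith, by linarith⟩, rfl⟩
    · exact ⟨0, ⟨le_rfl, by norm_num⟩, by simp⟩
  have h3 := Sign_const hP hR he1 hy
  have h4 : wnd n p 0 = ∑ k ∈ Finset.range n, Complex.arg (p (k + 1) / p k) := by
    unfold wnd
    simp
  rw [← h4, ← h2, ← h1, h3, hwy]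

end Pool.Agent.H32.SG
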