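import Mathlib
import Pool.Agent.H32.SG.Basic
import Pool.Agent.H32.Q4.Sim
import Pool.Agent.H32.Q4.DG

set_option autoImplicit false

/-! Similarities -/

open Complex MeasureTheory Set Finset Filter Topology

open scoped NNReal Pointwise

namespace Pool.Agent.H32.SG

open Pool.Agent.H32.Stek Pool.Agent.H32.Q4

variable {n : ℕ} {p : ℕ → ℂ} {Om : Set ℂ}

/-- Sim1. -/
theorem sim_poly {a : ℂ} (ha : a ≠ 0) (c : ℂ) (hP : Poly n p) : Poly n (fun j => a * p j + c) := by
  have hinj : ∀ z w : ℂ, a * z + c = a * w + c → z = w := fun z w h =>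
    mul_left_cancel₀ ha (add_right_cancel h)
  have hseg : ∀ (x y z : ℂ), z ∈ segment ℝ (a * x + c) (a * y + c) →
      ∃ w ∈ segment ℝ x y, z = a * w + c := by
    intro x y z hz
    obtain ⟨s, h0, h1, rfl⟩ := mem_seg.mp hz
    refine ⟨x + (s : ℂ) * (y - x), mem_seg.mpr ⟨s, h0, h1, rfl⟩, by ring⟩
  refine ⟨hP.three, fun j => by simp only [hP.per j], fun j h => hP.ne j (hinj _ _ h), ?_⟩
  intro i j hij hjn z hz1 hz2
  obtain ⟨w1, hw1, rfl⟩ := hseg _ _ _ hz1
  obtain ⟨w2, hw2, h2⟩ := hseg _ _ _ hz2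
  have h3 : w1 = w2 := hinj _ _ h2
  subst h3
  rcases hP.meet i j hij hjn w1 hw1 hw2 with ⟨h, h'⟩ | ⟨h, h', h''⟩
  · left
    exact ⟨h, by rw [h']⟩
  · right
    exact ⟨h, h', by rw [h'']⟩

/-- Sim2. `z ↦ a z + c` is a homeomorphism (image of the frontier = frontier of the image) and maps
segments to segments. -/
theorem sim_reg {a : ℂ} (ha : a ≠ 0) (c : ℂ) (hR : Reg p Om) :
    Reg (fun j => a * p j + c) ((fun z => a * z + c) '' Om) := by
  have he : ((Homeomorph.mulLeft₀ a ha).trans (Homeomorph.addRight c) : ℂ → ℂ) =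
      fun z => a * z + c := by
    funext z
    rfl
  have hcont : Continuous (fun z : ℂ => a * z + c) := by fun_prop
  have hop : IsOpenMap (fun z : ℂ => a * z + c) := by
    rw [← he]
    exact Homeomorph.isOpenMap _
  refine ⟨hop _ hR.op, ?_, hR.conn.image _ hcont.continuousOn, ?_⟩
  · have hcl : IsCompact (closure Om) := hR.bd.isCompact_closure
    exact (hcl.image hcont).isBounded.subset (Set.image_mono subset_closure)
  · rw [← he, ← Homeomorph.image_frontier, hR.fr, he]
    unfold bdr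
    rw [Set.image_iUnion]
    refine Set.iUnion_congr fun j => ?_
    ext z
    simp only [Set.mem_image]
    constructor
    · rintro ⟨w, hw, rfl⟩
      obtain ⟨s, h0, h1, rfl⟩ := mem_seg.mp hw
      exact mem_seg.mpr ⟨s, h0, h1, by ring⟩
    · intro hz
      obtain ⟨s, h0, h1, rfl⟩ := mem_seg.mp hz
      exact ⟨p j + (s : ℂ) * (p (j + 1) - p j), mem_seg.mpr ⟨s, h0, h1, rfl⟩, by ring⟩

/-- Sim3. change of variables, `u ↦ u ∘ (a z + c)`; the energy is invariant, boundary integrals are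
multiplied by `‖a‖`. Compare Q4/Sim.lean (`Sim_int`, `Sim_energy`, `Sim_seg`, `sigma4_sim`). -/
theorem sim_sig {a : ℂ} (ha : a ≠ 0) (c : ℂ) (hO : MeasurableSet Om) :
    sig n (fun j => a * p j + c) ((fun z => a * z + c) '' Om) = sig n p Om / ‖a‖ := by
  have hβ : ‖(0 : ℂ)‖ < 1 := by simp
  have hna : 0 < ‖a‖ := norm_pos_iff.mpr ha
  have hp' : (fun j => a * p j + c) = fun j => aff a 0 c (p j) := by
    funext j
    rw [Sim_aff]
  have hO' : ((fun z => a * z + c) '' Om) = aff a 0 c '' Om := by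
    congr 1
    funext z
    rw [Sim_aff]
  have hbd : ∀ f : ℂ → ℝ, bd n (fun j => aff a 0 c (p j)) f =
      ‖a‖ * bd n p (fun z => f (aff a 0 c z)) := by
    intro f
    unfold bd
    rw [Finset.mul_sum]
    exact Finset.sum_congr rfl fun j _ => Sim_seg a c (p j) (p (j + 1)) f
  have hen : ∀ u : ℂ → ℝ, ContDiff ℝ 1 u → en (aff a 0 c '' Om) u =
      en Om (fun z => u (aff a 0 c z)) := by
    intro u hu
    have h : (fun z => ‖grad (fun z => u (aff a 0 c z)) z‖ ^ 2) =
        fun z => ‖a‖ ^ 2 * ‖grad u (aff a 0 c z)‖ ^ 2 := by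
      funext z
      have := norm_grad_comp (a := a) (β := 0) (t := c) hu z
      simpa using this
    unfold en
    rw [integral_image_eq_integral_abs_det_fderiv_smul volume hO
      (fun z _ => (hasFDerivAt_aff a 0 c z).hasFDerivWithinAt) (injective_aff ha hβ).injOn,
      abs_det_affL hβ, h]
    simp only [smul_eq_mul]
    rw [integral_const_mul, integral_const_mul]
    simp
  rw [hp', hO', sig, sig]
  have hset : {s | ∃ u : ℂ → ℝ, ContDiff ℝ 1 u ∧
      bd n (fun j => aff a 0 c (p j)) u = 0 ∧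
      0 < bd n (fun j => aff a 0 c (p j)) (fun z => u z ^ 2) ∧
      s = en (aff a 0 c '' Om) u /
        bd n (fun j => aff a 0 c (p j)) (fun z => u z ^ 2)} =
      (‖a‖⁻¹ : ℝ) • {s | ∃ u : ℂ → ℝ, ContDiff ℝ 1 u ∧ bd n p u = 0 ∧
        0 < bd n p (fun z => u z ^ 2) ∧
        s = en Om u / bd n p (fun z => u z ^ 2)} := by
    ext s
    rw [Set.mem_smul_set]
    constructor
    · rintro ⟨u, hu, h0, hp, rfl⟩
      rw [hbd] at h0 hp
      refine ⟨en Om (fun z => u (aff a 0 c z)) /
          bd n p (fun z => u (aff a 0 c z) ^ 2),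
        ⟨fun z => u (aff a 0 c z), hu.comp (contDiff_aff a 0 c), ?_, ?_, rfl⟩, ?_⟩
      · rcases mul_eq_zero.mp h0 with h | h
        · exact absurd h hna.ne'
        · exact h
      · exact (pos_iff_pos_of_mul_pos hp).mp hna
      · rw [hen u hu, hbd, smul_eq_mul, inv_mul_eq_div, div_div, mul_comm ‖a‖]
    · rintro ⟨s', ⟨w, hw, h0, hp, rfl⟩, rfl⟩
      have hu : ContDiff ℝ 1 (fun z => w (affInv a 0 c z)) := hw.comp (contDiff_affInv a 0 c)
      have hc : (fun z => w (affInv a 0 c (aff a 0 c z))) = w := by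
        funext z; rw [affInv_aff ha hβ]
      have hc2 : (fun z => w (affInv a 0 c (aff a 0 c z)) ^ 2) = fun z => w z ^ 2 := by
        funext z; rw [affInv_aff ha hβ]
      refine ⟨fun z => w (affInv a 0 c z), hu, ?_, ?_, ?_⟩
      · rw [hbd, hc, h0, mul_zero]
      · rw [hbd, hc2]
        exact mul_pos hna hp
      · rw [hen _ hu, hbd, hc, hc2, smul_eq_mul, inv_mul_eq_div, div_div, mul_comm ‖a‖]
  rw [hset, Real.sInf_smul_of_nonneg (inv_nonneg.mpr hna.le), smul_eq_mul, inv_mul_eq_div]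

theorem sim_area {a : ℂ} (ha : a ≠ 0) (c : ℂ) :
    area ((fun z => a * z + c) '' Om) = ‖a‖ ^ 2 * area Om := by
  have h1 : (fun z => a * z + c) '' Om = (fun z => z + c) '' (affL a 0 '' Om) := by
    rw [Set.image_image]
    refine Set.image_congr fun z _ => ?_
    rw [affL_apply]
    ring
  unfold area
  have hvol : volume ((fun z => z + c) '' (affL a 0 '' Om)) = volume (affL a 0 '' Om) := by
    rw [Set.image_add_right, measure_preimage_add_right]
  rw [h1, hvol, Measure.addHaar_image_continuousLinearMap, abs_det_affL (by simp),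
    ENNReal.toReal_mul, ENNReal.toReal_ofReal (by simp)]
  simp

/-- Sim4. translation to the centroid of the boundary:
`c = -(sum_j l_j m_j) / L` (`seg_re`, `seg_im` of Q4/DG.lean). -/
theorem exists_cen (hP : Poly n p) : ∃ c : ℂ, Cen n (fun j => p j + c) := by
  have hL : 0 < ∑ j ∈ Finset.range n, ‖p (j + 1) - p j‖ := by
    refine Finset.sum_pos (fun j _ => ?_) ⟨0, Finset.mem_range.mpr hP.pos⟩
    rw [norm_pos_iff, sub_ne_zero]
    exact (hP.ne j).symm
  set L := ∑ j ∈ Finset.range n, ‖p (j + 1) - p j‖ with hLdef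
  set X := ∑ j ∈ Finset.range n, ‖p (j + 1) - p j‖ * ((p j + p (j + 1)) / 2).re with hX
  set Y := ∑ j ∈ Finset.range n, ‖p (j + 1) - p j‖ * ((p j + p (j + 1)) / 2).im with hY
  have key : ∀ (c : ℂ) (j : ℕ), ((p j + c + (p (j + 1) + c)) / 2) = (p j + p (j + 1)) / 2 + c := by
    intro c j
    ring
  refine ⟨⟨-(X / L), -(Y / L)⟩, ?_, ?_⟩
  · unfold bd
    have h : ∀ j ∈ Finset.range n, segInt (fun z => z.re) (p j + ⟨-(X / L), -(Y / L)⟩)
        (p (j + 1) + ⟨-(X / L), -(Y / L)⟩) = ‖p (j + 1) - p j‖ * ((p j + p (j + 1)) / 2).re +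
          ‖p (j + 1) - p j‖ * (-(X / L)) := by
      intro j _
      rw [seg_re, key, add_sub_add_right_eq_sub, Complex.add_re]
      ring
    rw [Finset.sum_congr rfl h, Finset.sum_add_distrib, ← Finset.sum_mul, ← hLdef, ← hX]
    field_simp
    ring
  · unfold bd
    have h : ∀ j ∈ Finset.range n, segInt (fun z => z.im) (p j + ⟨-(X / L), -(Y / L)⟩)
        (p (j + 1) + ⟨-(X / L), -(Y / L)⟩) = ‖p (j + 1) - p j‖ * ((p j + p (j + 1)) / 2).im +
          ‖p (j + 1) - p j‖ * (-(Y / L)) := by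
      intro j _
      rw [seg_im, key, add_sub_add_right_eq_sub, Complex.add_im]
      ring
    rw [Finset.sum_congr rfl h, Finset.sum_add_distrib, ← Finset.sum_mul, ← hLdef, ← hY]
    field_simp
    ring

end Pool.Agent.H32.SG
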