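import Mathlib
import Pool.Agent.H32.SG.Basic

set_option autoImplicit false

/-! Polar form of a star-shaped polygon -/

open Complex MeasureTheory Set Finset Filter Topology

open scoped NNReal

namespace Pool.Agent.H32.SG

open Pool.Agent.H32.Stek Pool.Agent.H32.Q4

variable {n : ℕ} {p : ℕ → ℂ} {Om : Set ℂ}

/-- St1. `r j = |p j|`, `th j = arg (p 0) + sum_{k<j} arg (p (k+1) / p k)`; the arguments are in
`(0, pi)` because `Im (b / a) = cr a b / |a|^2`. Periodicity: the sum over a period is `2 pi`
(`Finset.sum_range_add`, the summand is periodic). -/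
theorem exists_star (hP : Poly n p) (hc : ∀ j, 0 < cr (p j) (p (j + 1)))
    (ht : ∑ k ∈ Finset.range n, Complex.arg (p (k + 1) / p k) = 2 * Real.pi) :
    ∃ r th, Star n p r th := by
  have hne : ∀ j, p j ≠ 0 := by
    intro j h
    have := hc j
    rw [h, cr_zero_left] at this
    exact lt_irrefl _ this
  have hrep : ∀ j, p j = (‖p j‖ : ℂ) * exp (((Complex.arg (p 0) +
      ∑ k ∈ Finset.range j, Complex.arg (p (k + 1) / p k) : ℝ) : ℂ) * I) := by
    intro j
    induction j with
    | zero =>
      simp only [Finset.range_zero, Finset.sum_empty, add_zero]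
      exact (Complex.norm_mul_exp_arg_mul_I (p 0)).symm
    | succ j ih =>
      rw [Finset.sum_range_succ, ← add_assoc, Complex.ofReal_add, add_mul, Complex.exp_add]
      have h1 := Complex.norm_mul_exp_arg_mul_I (p (j + 1) / p j)
      rw [norm_div, Complex.ofReal_div] at h1
      have hn : (‖p j‖ : ℂ) ≠ 0 := by
        rw [Complex.ofReal_ne_zero]
        exact norm_ne_zero_iff.2 (hne j)
      set E := exp (((Complex.arg (p 0) +
        ∑ k ∈ Finset.range j, Complex.arg (p (k + 1) / p k) : ℝ) : ℂ) * I) with hE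
      set F := exp ((Complex.arg (p (j + 1) / p j) : ℂ) * I) with hF
      have h2 : p (j + 1) = (p (j + 1) / p j) * p j := by
        rw [div_mul_cancel₀ _ (hne j)]
      have h3 : (p (j + 1) / p j) * p j = ((‖p (j + 1)‖ : ℂ) / ‖p j‖ * F) * (‖p j‖ * E) := by
        rw [← ih, h1]
      have h4 : ((‖p (j + 1)‖ : ℂ) / ‖p j‖ * F) * (‖p j‖ * E) = (‖p (j + 1)‖ : ℂ) * (E * F) := by
        field_simp
      exact h2.trans (h3.trans h4)
  have him : ∀ j, 0 < (p (j + 1) / p j).im := by
    intro j
    have h1 := hc j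
    unfold cr at h1
    rw [Complex.div_im]
    have h2 : 0 < Complex.normSq (p j) := Complex.normSq_pos.2 (hne j)
    rw [← sub_div]
    exact div_pos (by linarith) h2
  refine ⟨fun j => ‖p j‖, fun j => Complex.arg (p 0) +
      ∑ k ∈ Finset.range j, Complex.arg (p (k + 1) / p k), hP.per, fun j => by
      simp only [hP.per j], fun j => norm_pos_iff.2 (hne j), hrep, ?_, ?_, ?_⟩
  · intro j
    rw [Finset.sum_range_succ, ← add_assoc]
    have h1 : 0 ≤ Complex.arg (p (j + 1) / p j) := Complex.arg_nonneg_iff.2 (him j).le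
    have h2 : Complex.arg (p (j + 1) / p j) ≠ 0 := by
      intro h
      exact (him j).ne' (Complex.arg_eq_zero_iff.1 h).2
    have := lt_of_le_of_ne h1 h2.symm
    linarith
  · intro j
    rw [Finset.sum_range_succ, ← add_assoc]
    have := Complex.arg_lt_pi_iff.2 (Or.inr (him j).ne')
    linarith
  · intro j
    induction j with
    | zero =>
      rw [zero_add, ht]
      simp
    | succ j ih =>
      rw [show j + 1 + n = j + n + 1 by ring, Finset.sum_range_succ, Finset.sum_range_succ]
      have h1 : p (j + n + 1) = p (j + 1) := by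
        rw [show j + n + 1 = (j + 1) + n by ring]
        exact hP.per (j + 1)
      rw [h1, hP.per j]
      linarith

/-- St2. `cr (p j) (p (j+1)) = r_j r_(j+1) sin (th (j+1) - th j)` -/
theorem Star.cr_eq {r th : ℕ → ℝ} (h : Star n p r th) (j : ℕ) :
    cr (p j) (p (j + 1)) = r j * r (j + 1) * Real.sin (th (j + 1) - th j) := by
  have h1 : ∀ j, (p j).re = r j * Real.cos (th j) ∧ (p j).im = r j * Real.sin (th j) := by
    intro j
    rw [h.rep j]
    constructor
    · rw [Complex.re_ofReal_mul, Complex.exp_ofReal_mul_I_re]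
    · rw [Complex.im_ofReal_mul, Complex.exp_ofReal_mul_I_im]
  unfold cr
  rw [(h1 j).1, (h1 j).2, (h1 (j + 1)).1, (h1 (j + 1)).2, Real.sin_sub]
  ring

theorem Star.cr_pos {r th : ℕ → ℝ} (h : Star n p r th) (j : ℕ) : 0 < cr (p j) (p (j + 1)) := by
  rw [h.cr_eq]
  exact mul_pos (mul_pos (h.rpos j) (h.rpos (j + 1)))
    (Real.sin_pos_of_pos_of_lt_pi (by linarith [h.lt j]) (by linarith [h.lt_pi j]))

end Pool.Agent.H32.SG
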