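import Mathlib
import Pool.Agent.H32.SG.Sign
import Pool.Agent.H32.SG.StarE
import Pool.Agent.H32.SG.Sim
import Pool.Agent.H32.SG.Cj

set_option autoImplicit false

/-! The geometric alternative -/

open Complex MeasureTheory Set Finset Filter Topology

namespace Pool.Agent.H32.SG

open Pool.Agent.H32.Stek Pool.Agent.H32.Q4

variable {n : ℕ} {p : ℕ → ℂ} {Om : Set ℂ}

private lemma Alt_conj_seg {a b z : ℂ} : z ∈ segment ℝ ((starRingEnd ℂ) a) ((starRingEnd ℂ) b) ↔
    (starRingEnd ℂ) z ∈ segment ℝ a b := by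
  rw [mem_seg, mem_seg]
  constructor
  · rintro ⟨s, h0, h1, rfl⟩
    exact ⟨s, h0, h1, by simp⟩
  · rintro ⟨s, h0, h1, h2⟩
    refine ⟨s, h0, h1, ?_⟩
    have h3 := congrArg (starRingEnd ℂ) h2
    simpa using h3

private lemma Alt_conj_vis {j : ℕ} (h : Vis p j) : Vis (fun j => (starRingEnd ℂ) (p j)) j := by
  obtain ⟨hc, x, hx, hs⟩ := h
  refine ⟨by rw [cr_conj]; exact neg_ne_zero.mpr hc, (starRingEnd ℂ) x, ?_, ?_⟩
  · obtain ⟨s, h0, h1, rfl⟩ := mem_openSeg.mp hx
    exact mem_openSeg.mpr ⟨s, h0, h1, by simp⟩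
  · intro s hs1 hcon
    apply hs s hs1
    obtain ⟨k, hk⟩ := Set.mem_iUnion.mp hcon
    refine Set.mem_iUnion.mpr ⟨k, ?_⟩
    have h1 := Alt_conj_seg.mp hk
    simpa using h1

/-- After a translation and possibly a reflection the centroid of the boundary is the origin, and either
some side is hidden or the polygon is star-shaped with respect to the origin. -/
theorem alt (hP : Poly n p) (hR : Reg p Om) : ∃ (p' : ℕ → ℂ) (Om' : Set ℂ), Poly n p' ∧ Reg p' Om' ∧
    Cen n p' ∧ sig n p' Om' = sig n p Om ∧ area Om' = area Om ∧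
    ((∃ j < n, ¬ Vis p' j) ∨ ∃ r th, Star n p' r th) := by
  obtain ⟨c, hC⟩ := exists_cen hP
  have e1 : (fun j => p j + c) = fun j => 1 * p j + c := by funext j; ring
  rw [e1] at hC
  have hP' := sim_poly one_ne_zero c hP
  have hR' := sim_reg one_ne_zero c hR
  have hs := sim_sig (n := n) (p := p) one_ne_zero c hR.op.measurableSet
  have ha := sim_area (Om := Om) one_ne_zero c
  simp only [norm_one, div_one, one_pow] at hs ha
  rw [one_mul] at ha
  by_cases hall : ∀ j < n, Vis (fun j => 1 * p j + c) j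
  · rcases same_sign hP' hR' hall with hcr | hcr
    · exact ⟨_, _, hP', hR', hC, hs, ha, Or.inr (exists_star hP' hcr (total_angle hP' hR' hcr hall))⟩
    · have hP2 := conj_poly hP'
      have hR2 := conj_reg hR'
      have hall2 : ∀ j < n, Vis (fun j => (starRingEnd ℂ) (1 * p j + c)) j := fun j hj =>
        Alt_conj_vis (hall j hj)
      have hcr2 : ∀ j, 0 < cr ((starRingEnd ℂ) (1 * p j + c)) ((starRingEnd ℂ) (1 * p (j + 1) + c)) := by
        intro j
        rw [cr_conj]
        have := hcr j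
        linarith
      refine ⟨_, _, hP2, hR2, conj_cen hC, ?_, ?_,
        Or.inr (exists_star hP2 hcr2 (total_angle hP2 hR2 hcr2 hall2))⟩
      · rw [conj_sig hR'.op.measurableSet, hs]
      · rw [conj_area, ha]
  · push Not at hall
    exact ⟨_, _, hP', hR', hC, hs, ha, Or.inl hall⟩

end Pool.Agent.H32.SG
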