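import Mathlib
import Pool.Agent.H32.SG.Basic

set_option autoImplicit false

/-! The vertices of the regular polygon -/

open Complex MeasureTheory Set Finset Filter Topology

open scoped NNReal

namespace Pool.Agent.H32.SG

open Pool.Agent.H32.Stek Pool.Agent.H32.Q4

variable {n : ℕ} {p : ℕ → ℂ} {Om : Set ℂ}

private lemma Omg_bounds (hn : 3 ≤ n) : 0 < Real.pi / n ∧ Real.pi / n < Real.pi / 2 := by
  have hpi := Real.pi_pos
  have hn0 : (0 : ℝ) < n := by exact_mod_cast (by omega : 0 < n)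
  have hn3 : (3 : ℝ) ≤ n := by exact_mod_cast hn
  refine ⟨by positivity, ?_⟩
  rw [div_lt_div_iff_of_pos_left hpi hn0 (by norm_num)]
  linarith

/-- OM1. `om n` in terms of the tangent, and the vertices of the regular polygon -/
theorem om_eq (hn : 3 ≤ n) : om n * (1 - tn n * I) = 1 + tn n * I := by
  obtain ⟨h1, h2⟩ := Omg_bounds hn
  have hc : 0 < Real.cos (Real.pi / n) := Real.cos_pos_of_mem_Ioo ⟨by linarith, h2⟩
  have hc' : ((Real.cos (Real.pi / n) : ℝ) : ℂ) ≠ 0 := by exact_mod_cast hc.ne'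
  have e1 : om n = exp (((Real.pi / n : ℝ) : ℂ) * I) * exp (((Real.pi / n : ℝ) : ℂ) * I) := by
    unfold om
    rw [← Complex.exp_add]
    congr 1
    push_cast
    ring
  have e2 : ((tn n : ℝ) : ℂ) = ((Real.sin (Real.pi / n) : ℝ) : ℂ) / ((Real.cos (Real.pi / n) : ℝ) : ℂ) := by
    unfold tn
    rw [Real.tan_eq_sin_div_cos]
    push_cast
    ring
  have h3 := Real.sin_sq_add_cos_sq (Real.pi / n)
  have h4 : ((Real.sin (Real.pi / n) : ℝ) : ℂ) ^ 2 + ((Real.cos (Real.pi / n) : ℝ) : ℂ) ^ 2 = 1 := by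
    exact_mod_cast h3
  rw [e1, e2, Complex.exp_mul_I, ← Complex.ofReal_cos, ← Complex.ofReal_sin]
  set s : ℂ := ((Real.sin (Real.pi / n) : ℝ) : ℂ)
  set c : ℂ := ((Real.cos (Real.pi / n) : ℝ) : ℂ)
  have hI : I ^ 2 = -1 := Complex.I_sq
  have e3 : (c + s * I) * (c + s * I) * (c - s * I) = (c + s * I) * (s ^ 2 + c ^ 2) := by
    have : (c + s * I) * (c - s * I) = s ^ 2 + c ^ 2 := by
      have h5 : (c + s * I) * (c - s * I) = c ^ 2 - s ^ 2 * I ^ 2 := by ring
      rw [h5, hI]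
      ring
    rw [mul_assoc, this]
  have f1 : 1 - s / c * I = (c - s * I) / c := by
    rw [sub_div, div_self hc']
    ring
  have f2 : 1 + s / c * I = (c + s * I) / c := by
    rw [add_div, div_self hc']
    ring
  rw [f1, f2, ← mul_div_assoc, e3, h4, mul_one]

theorem om_pow (hn : 0 < n) : om n ^ n = 1 := by
  have hn0 : (n : ℂ) ≠ 0 := by exact_mod_cast hn.ne'
  unfold om
  rw [← Complex.exp_nat_mul, mul_div_cancel₀ _ hn0, Complex.exp_two_pi_mul_I]

theorem norm_om (n : ℕ) : ‖om n‖ = 1 := by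
  unfold om
  have e : 2 * (Real.pi : ℂ) * I / n = ((2 * Real.pi / n : ℝ) : ℂ) * I := by
    push_cast
    ring
  rw [e, Complex.norm_exp_ofReal_mul_I]

theorem tn_pos (hn : 3 ≤ n) : 0 < tn n := by
  obtain ⟨h1, h2⟩ := Omg_bounds hn
  exact Real.tan_pos_of_pos_of_lt_pi_div_two h1 h2

end Pool.Agent.H32.SG
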