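import Mathlib
import Pool.Agent.H32.SG.Basic
import Pool.Agent.H32.SG.Omg

set_option autoImplicit false

/-! Two integral identities on the reference triangle -/

open Complex MeasureTheory Set Finset Filter Topology

open scoped NNReal

namespace Pool.Agent.H32.SG

open Pool.Agent.H32.Stek Pool.Agent.H32.Q4

variable {n : ℕ} {p : ℕ → ℂ} {Om : Set ℂ}

/-- the map from the rectangle to the triangle -/
private noncomputable def pm (t : ℝ) (x : ℝ × ℝ) : ℂ := (x.1 : ℂ) + (t * (x.1 * x.2) : ℝ) • I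

private noncomputable def pmd (t : ℝ) (x : ℝ × ℝ) : ℝ × ℝ →L[ℝ] ℂ :=
  Complex.ofRealCLM.comp (ContinuousLinearMap.fst ℝ ℝ ℝ) +
    (t • (x.1 • (ContinuousLinearMap.snd ℝ ℝ ℝ) + x.2 • (ContinuousLinearMap.fst ℝ ℝ ℝ))).smulRight I

private theorem pm_has (t : ℝ) (x : ℝ × ℝ) : HasFDerivAt (pm t) (pmd t x) x := by
  have h1 : HasFDerivAt (fun x : ℝ × ℝ => (x.1 : ℂ))
      (Complex.ofRealCLM.comp (ContinuousLinearMap.fst ℝ ℝ ℝ)) x :=
    (Complex.ofRealCLM.comp (ContinuousLinearMap.fst ℝ ℝ ℝ)).hasFDerivAt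
  have h2 : HasFDerivAt (fun x : ℝ × ℝ => t * (x.1 * x.2))
      (t • (x.1 • (ContinuousLinearMap.snd ℝ ℝ ℝ) + x.2 • (ContinuousLinearMap.fst ℝ ℝ ℝ))) x :=
    ((hasFDerivAt_fst (𝕜 := ℝ) (p := x)).mul (hasFDerivAt_snd (𝕜 := ℝ) (p := x))).const_mul t
  exact h1.add (h2.smul_const I)

private theorem pm_eq (t X s : ℝ) : pm t (X, s) = (X : ℂ) + ((t * (X * s) : ℝ) : ℂ) * I := by
  simp only [pm, Complex.real_smul]

private theorem pmd_one (t : ℝ) (x : ℝ × ℝ) : pmd t x (1, 0) = (1 : ℂ) + (t * x.2 : ℝ) • I := by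
  simp [pmd]

private theorem pmd_two (t : ℝ) (x : ℝ × ℝ) : pmd t x (0, 1) = (t * x.1 : ℝ) • I := by
  simp [pmd]

private theorem pm_cont (t : ℝ) : Continuous (pm t) :=
  continuous_iff_continuousAt.mpr fun x => (pm_has t x).continuousAt

private theorem jj_x {f : ℂ → ℝ} (hf : ContDiff ℝ 1 f) (t : ℝ) :
    JJ (fun X Y => fderiv ℝ f (X + (t * Y : ℝ) * I) 1) =
      (∫ Y in (-1 : ℝ)..1, f (1 + (t * Y : ℝ) * I)) -
        ((∫ X in (0 : ℝ)..1, f (X + (t * X : ℝ) * I)) +
          ∫ X in (0 : ℝ)..1, f (X + (t * (-X) : ℝ) * I)) := by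
  have hfd : ∀ z, HasFDerivAt f (fderiv ℝ f z) z := fun z =>
    (hf.differentiable (by norm_num) z).hasFDerivAt
  have hc : Continuous (fderiv ℝ f) := hf.continuous_fderiv (by norm_num)
  have h1 : ∀ X : ℝ, ∫ Y in (-X)..X, fderiv ℝ f (X + (t * Y : ℝ) * I) 1 =
      ∫ s in (-1 : ℝ)..1, X * fderiv ℝ f (pm t (X, s)) 1 := by
    intro X
    have h := intervalIntegral.mul_integral_comp_mul_left (a := -1) (b := 1)
      (f := fun Y : ℝ => fderiv ℝ f (X + (t * Y : ℝ) * I) 1) X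
    rw [mul_neg, mul_one] at h
    rw [← h, ← intervalIntegral.integral_const_mul]
    simp only [pm_eq]
  -- the two components
  have hcomp : ∀ x, HasFDerivAt (fun x => f (pm t x)) ((fderiv ℝ f (pm t x)).comp (pmd t x)) x :=
    fun x => (hfd (pm t x)).comp x (pm_has t x)
  have hF : ∀ x : ℝ × ℝ, HasFDerivAt (fun x : ℝ × ℝ => x.1 * f (pm t x))
      (x.1 • ((fderiv ℝ f (pm t x)).comp (pmd t x)) +
        f (pm t x) • (ContinuousLinearMap.fst ℝ ℝ ℝ)) x := fun x =>
    (hasFDerivAt_fst (𝕜 := ℝ) (p := x)).mul (hcomp x)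
  have hG : ∀ x : ℝ × ℝ, HasFDerivAt (fun x : ℝ × ℝ => -(x.2 * f (pm t x)))
      (-(x.2 • ((fderiv ℝ f (pm t x)).comp (pmd t x)) +
        f (pm t x) • (ContinuousLinearMap.snd ℝ ℝ ℝ))) x := fun x =>
    ((hasFDerivAt_snd (𝕜 := ℝ) (p := x)).mul (hcomp x)).neg
  have key : ∀ x : ℝ × ℝ, (x.1 • ((fderiv ℝ f (pm t x)).comp (pmd t x)) +
        f (pm t x) • (ContinuousLinearMap.fst ℝ ℝ ℝ)) (1, 0) +
      (-(x.2 • ((fderiv ℝ f (pm t x)).comp (pmd t x)) +
        f (pm t x) • (ContinuousLinearMap.snd ℝ ℝ ℝ))) (0, 1) = x.1 * fderiv ℝ f (pm t x) 1 := by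
    intro x
    simp only [ContinuousLinearMap.add_apply, ContinuousLinearMap.smul_apply,
      ContinuousLinearMap.comp_apply, ContinuousLinearMap.neg_apply, pmd_one, pmd_two, map_add,
      map_smul, smul_eq_mul, ContinuousLinearMap.coe_fst', ContinuousLinearMap.coe_snd']
    ring
  have hcont : Continuous fun x : ℝ × ℝ => x.1 * fderiv ℝ f (pm t x) 1 :=
    continuous_fst.mul ((hc.comp (pm_cont t)).clm_apply continuous_const)
  have hdiv := integral2_divergence_prod_of_hasFDerivAt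
    (fun x : ℝ × ℝ => x.1 * f (pm t x)) (fun x : ℝ × ℝ => -(x.2 * f (pm t x)))
    (fun x => x.1 • ((fderiv ℝ f (pm t x)).comp (pmd t x)) +
        f (pm t x) • (ContinuousLinearMap.fst ℝ ℝ ℝ))
    (fun x => -(x.2 • ((fderiv ℝ f (pm t x)).comp (pmd t x)) +
        f (pm t x) • (ContinuousLinearMap.snd ℝ ℝ ℝ))) 0 (-1) 1 1
    (continuous_iff_continuousAt.mpr fun x => (hF x).continuousAt).continuousOn
    (continuous_iff_continuousAt.mpr fun x => (hG x).continuousAt).continuousOn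
    (fun x _ => hF x) (fun x _ => hG x)
    (by
      simp only [key]
      exact hcont.continuousOn.integrableOn_compact (isCompact_uIcc.prod isCompact_uIcc))
  have hdiv' : (∫ X in (0 : ℝ)..1, ∫ s in (-1 : ℝ)..1, X * fderiv ℝ f (pm t (X, s)) 1) = _ :=
    (intervalIntegral.integral_congr fun X _ => intervalIntegral.integral_congr fun s _ =>
      (key (X, s)).symm).trans hdiv
  unfold JJ
  simp only [h1]
  rw [hdiv']
  simp only [pm_eq, one_mul, zero_mul, intervalIntegral.integral_zero, sub_zero, neg_mul, neg_neg,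
    intervalIntegral.integral_neg, mul_one, mul_neg, Complex.ofReal_one]
  ring

private theorem jj_y {f : ℂ → ℝ} (hf : ContDiff ℝ 1 f) (t : ℝ) :
    t * JJ (fun X Y => fderiv ℝ f (X + (t * Y : ℝ) * I) I) =
      (∫ X in (0 : ℝ)..1, f (X + (t * X : ℝ) * I)) -
          ∫ X in (0 : ℝ)..1, f (X + (t * (-X) : ℝ) * I) := by
  have hfd : ∀ z, HasFDerivAt f (fderiv ℝ f z) z := fun z =>
    (hf.differentiable (by norm_num) z).hasFDerivAt
  have hc : Continuous (fderiv ℝ f) := hf.continuous_fderiv (by norm_num)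
  have h1 : ∀ X : ℝ, t * ∫ Y in (-X)..X, fderiv ℝ f (X + (t * Y : ℝ) * I) I =
      f (X + (t * X : ℝ) * I) - f (X + (t * (-X) : ℝ) * I) := by
    intro X
    rw [← intervalIntegral.integral_const_mul]
    have hl : ∀ Y : ℝ, HasDerivAt (fun Y : ℝ => (X : ℂ) + ((t * Y : ℝ) : ℂ) * I) (t • I) Y := by
      intro Y
      have h2 : HasDerivAt (fun Y : ℝ => t * Y) t Y := by
        simpa using (hasDerivAt_id Y).const_mul t
      have h3 := (h2.smul_const I).const_add (X : ℂ)
      simpa only [Complex.real_smul] using h3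
    have hd : ∀ Y ∈ Set.uIcc (-X) X, HasDerivAt (fun Y : ℝ => f ((X : ℂ) + ((t * Y : ℝ) : ℂ) * I))
        (t * fderiv ℝ f (X + (t * Y : ℝ) * I) I) Y := by
      intro Y _
      have h4 := (hfd ((X : ℂ) + ((t * Y : ℝ) : ℂ) * I)).comp_hasDerivAt Y (hl Y)
      rw [map_smul, smul_eq_mul] at h4
      exact h4
    refine intervalIntegral.integral_eq_sub_of_hasDerivAt hd (Continuous.intervalIntegrable ?_ _ _)
    exact continuous_const.mul ((hc.comp (by fun_prop)).clm_apply continuous_const)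
  unfold JJ
  rw [← intervalIntegral.integral_const_mul]
  simp only [h1]
  have hfc := hf.continuous
  rw [intervalIntegral.integral_sub (Continuous.intervalIntegrable (by fun_prop) _ _)
    (Continuous.intervalIntegrable (by fun_prop) _ _)]

private theorem fd_re {g : ℂ → ℂ} (hg : ContDiff ℝ 1 g) (z v : ℂ) :
    fderiv ℝ (fun z => (g z).re) z v = (fderiv ℝ g z v).re := by
  have h : HasFDerivAt (fun z => (g z).re) (Complex.reCLM.comp (fderiv ℝ g z)) z :=
    Complex.reCLM.hasFDerivAt.comp z (hg.differentiable (by norm_num) z).hasFDerivAt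
  rw [h.fderiv]
  rfl

private theorem fd_im {g : ℂ → ℂ} (hg : ContDiff ℝ 1 g) (z v : ℂ) :
    fderiv ℝ (fun z => (g z).im) z v = (fderiv ℝ g z v).im := by
  have h : HasFDerivAt (fun z => (g z).im) (Complex.imCLM.comp (fderiv ℝ g z)) z :=
    Complex.imCLM.hasFDerivAt.comp z (hg.differentiable (by norm_num) z).hasFDerivAt
  rw [h.fderiv]
  rfl

/-- EX1. `JJ g_x = i JJ g_y`. With `G (X, Y) = g (X + i t Y)`: `JJ G_Y = int_0^1 (G(X,X) - G(X,-X))`,
`JJ G_X = int_{-1}^1 G(1,Y) dY - int_0^1 (G(X,X) + G(X,-X)) dX` (Leibniz rule for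
`int_{-X}^X G(X,Y) dY`, or: integrate first over `X` from `|Y|` to `1`),
`G(X,X) = g (om X (1 - i t)) = om G(X,-X)` and `1 + om = -(i/t)(om - 1)`,
`om = (1 + i t)/(1 - i t)`, `t = tan (pi/n)`. -/
theorem jj_cross (hn : 3 ≤ n) {g : ℂ → ℂ} (hg : Tst n g) :
    JJ (fun X Y => (fderiv ℝ g (X + (tn n * Y : ℝ) * I) 1).re) =
      -JJ (fun X Y => (fderiv ℝ g (X + (tn n * Y : ℝ) * I) I).im) ∧
    JJ (fun X Y => (fderiv ℝ g (X + (tn n * Y : ℝ) * I) 1).im) =
      JJ (fun X Y => (fderiv ℝ g (X + (tn n * Y : ℝ) * I) I).re) := by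
  have ht := tn_pos hn
  have hom := om_eq hn
  have hre : ContDiff ℝ 1 (fun z => (g z).re) := Complex.reCLM.contDiff.comp hg.c1
  have him : ContDiff ℝ 1 (fun z => (g z).im) := Complex.imCLM.contDiff.comp hg.c1
  have x1 := jj_x hre (tn n)
  have x2 := jj_x him (tn n)
  have y1 := jj_y hre (tn n)
  have y2 := jj_y him (tn n)
  simp only [fd_re hg.c1, fd_im hg.c1] at x1 x2 y1 y2
  have hgc := hg.c1.continuous
  -- the relation between the two edges
  have hrel : ∀ X : ℝ, g (X + (tn n * X : ℝ) * I) = om n * g (X + (tn n * (-X) : ℝ) * I) := by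
    intro X
    rw [← hg.rot]
    congr 1
    have : (X : ℂ) + ((tn n * (-X) : ℝ) : ℂ) * I = X * (1 - tn n * I) := by
      push_cast
      ring
    rw [this, mul_left_comm, hom]
    push_cast
    ring
  have hi1 : IntervalIntegrable (fun X : ℝ => (g (X + (tn n * (-X) : ℝ) * I)).re) volume 0 1 :=
    Continuous.intervalIntegrable (by fun_prop) _ _
  have hi2 : IntervalIntegrable (fun X : ℝ => (g (X + (tn n * (-X) : ℝ) * I)).im) volume 0 1 :=
    Continuous.intervalIntegrable (by fun_prop) _ _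
  have e1 : ∫ X in (0 : ℝ)..1, (g (X + (tn n * X : ℝ) * I)).re =
      (om n).re * (∫ X in (0 : ℝ)..1, (g (X + (tn n * (-X) : ℝ) * I)).re) -
        (om n).im * ∫ X in (0 : ℝ)..1, (g (X + (tn n * (-X) : ℝ) * I)).im := by
    rw [← intervalIntegral.integral_const_mul, ← intervalIntegral.integral_const_mul,
      ← intervalIntegral.integral_sub (hi1.const_mul _) (hi2.const_mul _)]
    refine intervalIntegral.integral_congr fun X _ => ?_
    simp only [hrel, Complex.mul_re]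
  have e2 : ∫ X in (0 : ℝ)..1, (g (X + (tn n * X : ℝ) * I)).im =
      (om n).re * (∫ X in (0 : ℝ)..1, (g (X + (tn n * (-X) : ℝ) * I)).im) +
        (om n).im * ∫ X in (0 : ℝ)..1, (g (X + (tn n * (-X) : ℝ) * I)).re := by
    rw [← intervalIntegral.integral_const_mul, ← intervalIntegral.integral_const_mul,
      ← intervalIntegral.integral_add (hi2.const_mul _) (hi1.const_mul _)]
    refine intervalIntegral.integral_congr fun X _ => ?_
    simp only [hrel, Complex.mul_im]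
  -- the mean zero condition
  have hmi : IntervalIntegrable (fun Y : ℝ => g (1 + (tn n * Y : ℝ) * I)) volume (-1) 1 :=
    Continuous.intervalIntegrable (by fun_prop) _ _
  have m1 : ∫ Y in (-1 : ℝ)..1, (g (1 + (tn n * Y : ℝ) * I)).re = 0 := by
    have := intervalIntegral.intervalIntegral_re hmi
    simp only [hg.mean, map_zero] at this
    exact this
  have m2 : ∫ Y in (-1 : ℝ)..1, (g (1 + (tn n * Y : ℝ) * I)).im = 0 := by
    have := intervalIntegral.intervalIntegral_im hmi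
    simp only [hg.mean, map_zero] at this
    exact this
  rw [m1, e1] at x1
  rw [m2, e2] at x2
  rw [e1] at y1
  rw [e2] at y2
  have c1 : (om n).re - 1 = -(tn n * (om n).im) := by
    have := congrArg Complex.re hom
    simp at this
    linarith
  have c2 : (om n).im = tn n * (1 + (om n).re) := by
    have := congrArg Complex.im hom
    simp at this
    linarith
  generalize (∫ X in (0 : ℝ)..1, (g (X + (tn n * (-X) : ℝ) * I)).re) = a1 at *
  generalize (∫ X in (0 : ℝ)..1, (g (X + (tn n * (-X) : ℝ) * I)).im) = a2 at *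
  generalize JJ (fun X Y => (fderiv ℝ g (X + (tn n * Y : ℝ) * I) I).im) = b2 at *
  generalize JJ (fun X Y => (fderiv ℝ g (X + (tn n * Y : ℝ) * I) I).re) = b1 at *
  rw [x1, x2]
  generalize (om n).re = c at *
  generalize (om n).im = s at *
  generalize tn n = t at *
  constructor
  · apply mul_left_cancel₀ ht.ne'
    have : t * -b2 = -(t * b2) := by ring
    rw [this, y2]
    linear_combination a1 * c2 + a2 * c1
  · apply mul_left_cancel₀ ht.ne'
    rw [y1]
    linear_combination a2 * c2 - a1 * c1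

private theorem fd_conj {g : ℂ → ℂ} (hg : Tst n g) (z v : ℂ) :
    fderiv ℝ g ((starRingEnd ℂ) z) ((starRingEnd ℂ) v) = (starRingEnd ℂ) (fderiv ℝ g z v) := by
  have hd := fun z => (hg.c1.differentiable (by norm_num) z).hasFDerivAt
  have h1 : HasFDerivAt (fun z => g ((starRingEnd ℂ) z))
      ((fderiv ℝ g ((starRingEnd ℂ) z)).comp (Complex.conjCLE : ℂ →L[ℝ] ℂ)) z :=
    (hd _).comp z (Complex.conjCLE : ℂ →L[ℝ] ℂ).hasFDerivAt
  have h2 : HasFDerivAt (fun z => (starRingEnd ℂ) (g z))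
      ((Complex.conjCLE : ℂ →L[ℝ] ℂ).comp (fderiv ℝ g z)) z :=
    (Complex.conjCLE : ℂ →L[ℝ] ℂ).hasFDerivAt.comp z (hd z)
  have h3 : (fun z => g ((starRingEnd ℂ) z)) = fun z => (starRingEnd ℂ) (g z) :=
    funext hg.sharp
  rw [h3] at h1
  have h4 := congrArg (fun L : ℂ →L[ℝ] ℂ => L v) (h1.unique h2)
  simpa using h4

private theorem odd_zero {h : ℝ → ℝ} (hh : ∀ Y, h (-Y) = -h Y) (a : ℝ) :
    ∫ Y in (-a)..a, h Y = 0 := by
  have h1 := intervalIntegral.integral_comp_neg (a := -a) (b := a) h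
  rw [neg_neg] at h1
  simp only [hh, intervalIntegral.integral_neg] at h1
  linarith

private theorem pt_conj (X t Y : ℝ) : (X : ℂ) + ((t * (-Y) : ℝ) : ℂ) * I =
    (starRingEnd ℂ) ((X : ℂ) + ((t * Y : ℝ) : ℂ) * I) := by
  apply Complex.ext <;> simp

/-- EX2. `int Re (g_x conj g_y) = 0`: with `g (conj z) = conj (g z)` the integrand is odd in `Y`. -/
theorem jj_sharp {g : ℂ → ℂ} (hg : Tst n g) :
    JJ (fun X Y => (fderiv ℝ g (X + (tn n * Y : ℝ) * I) 1).re *
        (fderiv ℝ g (X + (tn n * Y : ℝ) * I) I).re +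
      (fderiv ℝ g (X + (tn n * Y : ℝ) * I) 1).im *
        (fderiv ℝ g (X + (tn n * Y : ℝ) * I) I).im) = 0 := by
  unfold JJ
  have h0 : ∀ X : ℝ, ∫ Y in (-X)..X, ((fderiv ℝ g (X + (tn n * Y : ℝ) * I) 1).re *
        (fderiv ℝ g (X + (tn n * Y : ℝ) * I) I).re +
      (fderiv ℝ g (X + (tn n * Y : ℝ) * I) 1).im *
        (fderiv ℝ g (X + (tn n * Y : ℝ) * I) I).im) = 0 := by
    intro X
    refine odd_zero (fun Y => ?_) X
    rw [pt_conj]
    have h1 := fd_conj hg ((X : ℂ) + ((tn n * Y : ℝ) : ℂ) * I) 1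
    have h2 := fd_conj hg ((X : ℂ) + ((tn n * Y : ℝ) : ℂ) * I) I
    rw [map_one] at h1
    rw [Complex.conj_I, map_neg] at h2
    have h3 : fderiv ℝ g ((starRingEnd ℂ) ((X : ℂ) + ((tn n * Y : ℝ) : ℂ) * I)) I =
        -(starRingEnd ℂ) (fderiv ℝ g ((X : ℂ) + ((tn n * Y : ℝ) : ℂ) * I) I) := by
      rw [← h2, neg_neg]
    rw [h1, h3]
    simp only [Complex.neg_re, Complex.neg_im, Complex.conj_re, Complex.conj_im]
    ring
  simp only [h0, intervalIntegral.integral_zero]

/-- EX3. the first moment is purely imaginary and the mean zero condition in real form -/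
theorem mom_eq {g : ℂ → ℂ} (hg : Tst n g) :
    ∫ Y in (-1 : ℝ)..1, (Y : ℂ) * g (1 + (tn n * Y : ℝ) * I) = 4 * I * (Ka n g : ℂ) := by
  have hgc := hg.c1.continuous
  have hi : IntervalIntegrable (fun Y : ℝ => (Y : ℂ) * g (1 + (tn n * Y : ℝ) * I)) volume (-1) 1 :=
    Continuous.intervalIntegrable (by fun_prop) _ _
  have h1 := intervalIntegral.intervalIntegral_re hi
  have h2 := intervalIntegral.intervalIntegral_im hi
  have r1 : ∀ Y : ℝ, RCLike.re ((Y : ℂ) * g (1 + (tn n * Y : ℝ) * I)) =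
      Y * (g (1 + (tn n * Y : ℝ) * I)).re := fun Y => by
    simp
  have r2 : ∀ Y : ℝ, RCLike.im ((Y : ℂ) * g (1 + (tn n * Y : ℝ) * I)) =
      Y * (g (1 + (tn n * Y : ℝ) * I)).im := fun Y => by
    simp
  simp only [r1] at h1
  simp only [r2] at h2
  have h3 : ∫ Y in (-1 : ℝ)..1, Y * (g (1 + (tn n * Y : ℝ) * I)).re = 0 := by
    refine odd_zero (fun Y => ?_) 1
    have := pt_conj 1 (tn n) Y
    rw [Complex.ofReal_one] at this
    rw [this, hg.sharp, Complex.conj_re]
    ring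
  apply Complex.ext
  · have : (∫ Y in (-1 : ℝ)..1, (Y : ℂ) * g (1 + (tn n * Y : ℝ) * I)).re = 0 := by
      rw [h3] at h1
      exact h1.symm
    rw [this]
    simp
  · have : (∫ Y in (-1 : ℝ)..1, (Y : ℂ) * g (1 + (tn n * Y : ℝ) * I)).im =
        ∫ Y in (-1 : ℝ)..1, Y * (g (1 + (tn n * Y : ℝ) * I)).im := h2.symm
    rw [this]
    unfold Ka
    simp

end Pool.Agent.H32.SG
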