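import Mathlib
import Pool.Agent.H32.SG.Basic
import Pool.Agent.H32.SG.EnX
import Pool.Agent.H32.Q4.Bt

set_option autoImplicit false

/-! Boundary integrals of the trial function on one side -/

open Complex MeasureTheory Set Finset Filter Topology

open scoped NNReal

namespace Pool.Agent.H32.SG

open Pool.Agent.H32.Stek Pool.Agent.H32.Q4

variable {n : ℕ} {p : ℕ → ℂ} {Om : Set ℂ}

private lemma bdF_cont {g : ℂ → ℂ} (hg : Tst n g) :
    Continuous fun Y : ℝ => g (1 + (tn n * Y : ℝ) * I) := by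
  refine hg.c1.continuous.comp ?_
  fun_prop

private lemma bdF_abs {Y : ℝ} (hY : Y ∈ Set.uIcc (-1 : ℝ) 1) : |Y| ≤ 1 := by
  rw [Set.uIcc_of_le (by norm_num)] at hY
  exact abs_le.2 hY

private lemma bdF_zero {g : ℂ → ℂ} (hg : Tst n g) (c : ℂ) :
    (∫ Y in (-1 : ℝ)..1, (c * g (1 + (tn n * Y : ℝ) * I)).re) = 0 ∧
    (∫ Y in (-1 : ℝ)..1, (c * g (1 + (tn n * Y : ℝ) * I)).im) = 0 := by
  have hi : IntervalIntegrable (fun Y : ℝ => c * g (1 + (tn n * Y : ℝ) * I)) volume (-1) 1 :=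
    (continuous_const.mul (bdF_cont hg)).intervalIntegrable _ _
  have h0 : ∫ Y in (-1 : ℝ)..1, c * g (1 + (tn n * Y : ℝ) * I) = 0 := by
    rw [intervalIntegral.integral_const_mul, hg.mean, mul_zero]
  constructor
  · have := Complex.reCLM.intervalIntegral_comp_comm hi
    simp only [Complex.reCLM_apply] at this
    rw [this, h0, Complex.zero_re]
  · have := Complex.imCLM.intervalIntegral_comp_comm hi
    simp only [Complex.imCLM_apply] at this
    rw [this, h0, Complex.zero_im]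

/-- BF1. `segInt_mid` of Q4/Bt.lean; the mean of `g` on the side is zero. -/
theorem seg_re_F {g : ℂ → ℂ} (hg : Tst n g) {m v xi w : ℂ} {F : ℂ → ℂ}
    (hF : ∀ Y : ℝ, |Y| ≤ 1 → F (m + Y * v) = m + Y * v + xi * w * g (1 + (tn n * Y : ℝ) * I)) :
    segInt (fun z => (F z).re) (m - v) (m + v) = segInt (fun z => z.re) (m - v) (m + v) ∧
    segInt (fun z => (F z).im) (m - v) (m + v) = segInt (fun z => z.im) (m - v) (m + v) := by
  have hgc := bdF_cont hg
  obtain ⟨z1, z2⟩ := bdF_zero hg (xi * w)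
  constructor
  · rw [segInt_mid, segInt_mid]
    congr 1
    calc ∫ Y in (-1 : ℝ)..1, (F (m + Y * v)).re
        = ∫ Y in (-1 : ℝ)..1, ((m + Y * v).re + (xi * w * g (1 + (tn n * Y : ℝ) * I)).re) := by
          refine intervalIntegral.integral_congr fun Y hY => ?_
          rw [hF Y (bdF_abs hY), Complex.add_re]
      _ = _ := by
          rw [intervalIntegral.integral_add, z1, add_zero]
          · exact Continuous.intervalIntegrable (by fun_prop) _ _
          · exact (Complex.continuous_re.comp (continuous_const.mul hgc)).intervalIntegrable _ _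
  · rw [segInt_mid, segInt_mid]
    congr 1
    calc ∫ Y in (-1 : ℝ)..1, (F (m + Y * v)).im
        = ∫ Y in (-1 : ℝ)..1, ((m + Y * v).im + (xi * w * g (1 + (tn n * Y : ℝ) * I)).im) := by
          refine intervalIntegral.integral_congr fun Y hY => ?_
          rw [hF Y (bdF_abs hY), Complex.add_im]
      _ = _ := by
          rw [intervalIntegral.integral_add, z2, add_zero]
          · exact Continuous.intervalIntegrable (by fun_prop) _ _
          · exact (Complex.continuous_im.comp (continuous_const.mul hgc)).intervalIntegrable _ _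

/-- BF2. `|F|^2 = |z|^2 + 2 Re (conj z xi w g) + |xi|^2 |g|^2`; the middle term:
`int (conj m + Y conj v) g dY = conj v * 4 i Ka` (`mom_eq` and mean zero). -/
theorem seg_sq_F {g : ℂ → ℂ} (hg : Tst n g) {m v xi w : ℂ} (hw : ‖w‖ = 1) {F : ℂ → ℂ}
    (hF : ∀ Y : ℝ, |Y| ≤ 1 → F (m + Y * v) = m + Y * v + xi * w * g (1 + (tn n * Y : ℝ) * I)) :
    segInt (fun z => ‖F z‖ ^ 2) (m - v) (m + v) = segInt (fun z => ‖z‖ ^ 2) (m - v) (m + v) +
      2 * Ka n g * (xi * ((‖2 * v‖ : ℂ) * I * (starRingEnd ℂ) (2 * v) * w)).re +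
      ‖xi‖ ^ 2 * Mg n g * ‖2 * v‖ := by
  have hgc := bdF_cont hg
  -- the pointwise identity
  have hpt : ∀ Y : ℝ, ‖m + Y * v + xi * w * g (1 + (tn n * Y : ℝ) * I)‖ ^ 2 =
      ‖m + Y * v‖ ^ 2 + (2 * ((xi * w * (starRingEnd ℂ) m) * g (1 + (tn n * Y : ℝ) * I)).re +
        (2 * ((xi * w * (starRingEnd ℂ) v) * ((Y : ℂ) * g (1 + (tn n * Y : ℝ) * I))).re +
        ‖xi‖ ^ 2 * ‖g (1 + (tn n * Y : ℝ) * I)‖ ^ 2)) := by
    intro Y
    generalize g (1 + (tn n * Y : ℝ) * I) = G
    have e1 : ‖xi * w * G‖ ^ 2 = ‖xi‖ ^ 2 * ‖G‖ ^ 2 := by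
      rw [norm_mul, norm_mul, hw]; ring
    rw [← e1]
    simp only [← Complex.normSq_eq_norm_sq, Complex.normSq_apply, Complex.add_re, Complex.add_im,
      Complex.mul_re, Complex.mul_im, Complex.conj_re, Complex.conj_im, Complex.ofReal_re,
      Complex.ofReal_im]
    ring
  have hmom : ∫ Y in (-1 : ℝ)..1, ((xi * w * (starRingEnd ℂ) v) *
      ((Y : ℂ) * g (1 + (tn n * Y : ℝ) * I))).re =
      ((xi * w * (starRingEnd ℂ) v) * (4 * I * (Ka n g : ℂ))).re := by
    have hi : IntervalIntegrable (fun Y : ℝ => (xi * w * (starRingEnd ℂ) v) *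
        ((Y : ℂ) * g (1 + (tn n * Y : ℝ) * I))) volume (-1) 1 :=
      (continuous_const.mul (Complex.continuous_ofReal.mul hgc)).intervalIntegrable _ _
    have h1 := Complex.reCLM.intervalIntegral_comp_comm hi
    simp only [Complex.reCLM_apply] at h1
    rw [h1, intervalIntegral.integral_const_mul, mom_eq hg]
  obtain ⟨z1, -⟩ := bdF_zero hg (xi * w * (starRingEnd ℂ) m)
  have hMg : ∫ Y in (-1 : ℝ)..1, ‖g (1 + (tn n * Y : ℝ) * I)‖ ^ 2 = 2 * Mg n g := by
    unfold Mg; ring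
  have c1 : Continuous fun Y : ℝ => ‖m + Y * v‖ ^ 2 := by fun_prop
  have c2 : Continuous fun Y : ℝ =>
      2 * ((xi * w * (starRingEnd ℂ) m) * g (1 + (tn n * Y : ℝ) * I)).re :=
    continuous_const.mul (Complex.continuous_re.comp (continuous_const.mul hgc))
  have c3 : Continuous fun Y : ℝ => 2 * ((xi * w * (starRingEnd ℂ) v) *
      ((Y : ℂ) * g (1 + (tn n * Y : ℝ) * I))).re :=
    continuous_const.mul (Complex.continuous_re.comp
      (continuous_const.mul (Complex.continuous_ofReal.mul hgc)))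
  have c4 : Continuous fun Y : ℝ => ‖xi‖ ^ 2 * ‖g (1 + (tn n * Y : ℝ) * I)‖ ^ 2 :=
    continuous_const.mul (hgc.norm.pow 2)
  have c34 : Continuous fun Y : ℝ => 2 * ((xi * w * (starRingEnd ℂ) v) *
      ((Y : ℂ) * g (1 + (tn n * Y : ℝ) * I))).re +
      ‖xi‖ ^ 2 * ‖g (1 + (tn n * Y : ℝ) * I)‖ ^ 2 := c3.add c4
  have c234 : Continuous fun Y : ℝ =>
      2 * ((xi * w * (starRingEnd ℂ) m) * g (1 + (tn n * Y : ℝ) * I)).re +
      (2 * ((xi * w * (starRingEnd ℂ) v) * ((Y : ℂ) * g (1 + (tn n * Y : ℝ) * I))).re +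
      ‖xi‖ ^ 2 * ‖g (1 + (tn n * Y : ℝ) * I)‖ ^ 2) := c2.add c34
  have hint : ∫ Y in (-1 : ℝ)..1, ‖F (m + Y * v)‖ ^ 2 =
      (∫ Y in (-1 : ℝ)..1, ‖m + Y * v‖ ^ 2) +
        (2 * ((xi * w * (starRingEnd ℂ) v) * (4 * I * (Ka n g : ℂ))).re +
          ‖xi‖ ^ 2 * (2 * Mg n g)) := by
    calc ∫ Y in (-1 : ℝ)..1, ‖F (m + Y * v)‖ ^ 2
        = ∫ Y in (-1 : ℝ)..1, (‖m + Y * v‖ ^ 2 +
          (2 * ((xi * w * (starRingEnd ℂ) m) * g (1 + (tn n * Y : ℝ) * I)).re +
          (2 * ((xi * w * (starRingEnd ℂ) v) * ((Y : ℂ) * g (1 + (tn n * Y : ℝ) * I))).re +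
          ‖xi‖ ^ 2 * ‖g (1 + (tn n * Y : ℝ) * I)‖ ^ 2))) := by
          refine intervalIntegral.integral_congr fun Y hY => ?_
          rw [hF Y (bdF_abs hY), hpt Y]
      _ = _ := by
          rw [intervalIntegral.integral_add (c1.intervalIntegrable _ _)
              (c234.intervalIntegrable _ _),
            intervalIntegral.integral_add (c2.intervalIntegrable _ _)
              (c34.intervalIntegrable _ _),
            intervalIntegral.integral_add (c3.intervalIntegrable _ _)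
              (c4.intervalIntegrable _ _),
            intervalIntegral.integral_const_mul, intervalIntegral.integral_const_mul,
            intervalIntegral.integral_const_mul, z1, hmom, hMg]
          ring
  rw [segInt_mid, segInt_mid, hint]
  have e1 : ‖2 * v‖ = 2 * ‖v‖ := by rw [norm_mul]; simp
  rw [e1]
  have e2 : (xi * (((2 * ‖v‖ : ℝ) : ℂ) * I * (starRingEnd ℂ) (2 * v) * w)).re =
      4 * ‖v‖ * (xi * w * (starRingEnd ℂ) v * I).re := by
    have h1 : xi * (((2 * ‖v‖ : ℝ) : ℂ) * I * (starRingEnd ℂ) (2 * v) * w) =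
        ((4 * ‖v‖ : ℝ) : ℂ) * (xi * w * (starRingEnd ℂ) v * I) := by
      rw [map_mul, Complex.conj_ofNat]
      push_cast
      ring
    rw [h1, Complex.re_ofReal_mul]
  have e3 : ((xi * w * (starRingEnd ℂ) v) * (4 * I * (Ka n g : ℂ))).re =
      4 * Ka n g * (xi * w * (starRingEnd ℂ) v * I).re := by
    have h1 : (xi * w * (starRingEnd ℂ) v) * (4 * I * (Ka n g : ℂ)) =
        ((4 * Ka n g : ℝ) : ℂ) * (xi * w * (starRingEnd ℂ) v * I) := by
      push_cast
      ring
    rw [h1, Complex.re_ofReal_mul]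
  rw [e2, e3]
  ring

end Pool.Agent.H32.SG
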