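import Pool.Agent.H32.SG.Basic
import Pool.Agent.H45.SN.Defs

set_option autoImplicit false

/-! Bridge between polygons indexed by `ZMod n` (final statement) and periodic sequences. -/

open Complex MeasureTheory Finset

namespace Pool.Agent.H32.SG

open Pool.Agent.H45.SN (side Simple Region bdP sigP)

/-- the periodic sequence of vertices -/
def seqZ {n : ℕ} (p : ZMod n → ℂ) : ℕ → ℂ := fun j => p (j : ZMod n)

theorem seqZ_succ {n : ℕ} (p : ZMod n → ℂ) (j : ℕ) : seqZ p (j + 1) = p ((j : ZMod n) + 1) := by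
  simp [seqZ]

theorem cast_inj_lt {n i j : ℕ} (hi : i < n) (hj : j < n) (h : (i : ZMod n) = (j : ZMod n)) : i = j := by
  have := (ZMod.natCast_eq_natCast_iff' i j n).1 h
  rwa [Nat.mod_eq_of_lt hi, Nat.mod_eq_of_lt hj] at this

theorem poly_of_simple {n : ℕ} (hn : 3 ≤ n) {p : ZMod n → ℂ} (h : Simple p) : Poly n (seqZ p) where
  three := hn
  per j := by simp [seqZ]
  ne j := by
    rw [seqZ_succ]
    exact h.1 _
  meet i j hij hj z hz1 hz2 := by
    rw [seqZ_succ] at hz1 hz2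
    have hne : (i : ZMod n) ≠ (j : ZMod n) := fun hh => (ne_of_lt hij) (cast_inj_lt (hij.trans hj) hj hh)
    rcases h.2 _ _ hne z hz1 hz2 with ⟨h1, h2⟩ | ⟨h1, h2⟩
    · left
      refine ⟨?_, h2⟩
      have : ((j : ℕ) : ZMod n) = ((i + 1 : ℕ) : ZMod n) := by push_cast; exact h1
      exact cast_inj_lt hj (by omega) this
    · right
      have h3 : ((i : ℕ) : ZMod n) = ((j + 1 : ℕ) : ZMod n) := by push_cast; exact h1
      rcases Nat.lt_or_ge (j + 1) n with h4 | h4
      · have := cast_inj_lt (hij.trans hj) h4 h3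
        omega
      · have h5 : j + 1 = n := by omega
        have h6 : ((i : ℕ) : ZMod n) = ((0 : ℕ) : ZMod n) := by
          rw [h3, h5]; simp
        have h7 : i = 0 := cast_inj_lt (hij.trans hj) (by omega) h6
        subst h7
        exact ⟨rfl, h5, h2⟩

theorem bdr_seqZ {n : ℕ} [NeZero n] (p : ZMod n → ℂ) : bdr (seqZ p) = ⋃ j, side p j := by
  ext z
  simp only [bdr, Set.mem_iUnion, side]
  constructor
  · rintro ⟨j, hj⟩
    rw [seqZ_succ] at hj
    exact ⟨(j : ZMod n), hj⟩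
  · rintro ⟨j, hj⟩
    refine ⟨j.val, ?_⟩
    rw [seqZ_succ]
    simpa [seqZ] using hj

theorem reg_of_region {n : ℕ} [NeZero n] {p : ZMod n → ℂ} {Om : Set ℂ} (h : Region p Om) :
    Reg (seqZ p) Om where
  op := h.1
  bd := h.2.2.1
  conn := h.2.1
  fr := by rw [bdr_seqZ]; exact h.2.2.2

theorem region_of_reg {n : ℕ} [NeZero n] {p : ZMod n → ℂ} {Om : Set ℂ} (h : Reg (seqZ p) Om) :
    Region p Om := by
  refine ⟨h.op, h.conn, h.bd, ?_⟩
  rw [← bdr_seqZ]; exact h.fr

theorem sum_zmod {n : ℕ} [NeZero n] (f : ZMod n → ℝ) : ∑ j, f j = ∑ j ∈ Finset.range n, f (j : ZMod n) := by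
  symm
  refine Finset.sum_bij (fun (j : ℕ) _ => (j : ZMod n)) (fun _ _ => Finset.mem_univ _) ?_ ?_ ?_
  · intro i hi j hj h
    exact cast_inj_lt (Finset.mem_range.1 hi) (Finset.mem_range.1 hj) h
  · intro j _
    exact ⟨j.val, Finset.mem_range.2 (ZMod.val_lt j), by simp⟩
  · intro j _
    rfl

theorem bdP_eq {n : ℕ} [NeZero n] (p : ZMod n → ℂ) (f : ℂ → ℝ) : bdP p f = bd n (seqZ p) f := by
  unfold bdP bd
  rw [sum_zmod]
  refine Finset.sum_congr rfl fun j _ => ?_
  rw [seqZ_succ]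
  rfl

theorem sigP_eq {n : ℕ} [NeZero n] (p : ZMod n → ℂ) (Om : Set ℂ) : sigP p Om = sig n (seqZ p) Om := by
  unfold sigP sig
  simp only [bdP_eq]
  rfl

end Pool.Agent.H32.SG
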