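import Mathlib
import Pool.Agent.H32.SG.Basic

set_option autoImplicit false

/-! Two cones of a star-shaped polygon meet only in a common edge -/

open Complex MeasureTheory Set Finset Filter Topology

open scoped NNReal

namespace Pool.Agent.H32.SG

open Pool.Agent.H32.Stek Pool.Agent.H32.Q4

variable {n : ℕ} {p : ℕ → ℂ} {Om : Set ℂ}

private lemma Compat_zero {φ A B : ℝ} (h0 : 0 < φ) (h1 : φ < Real.pi)
    (he : (A : ℂ) + (B : ℂ) * exp ((φ : ℂ) * I) = 0) : A = 0 ∧ B = 0 := by
  have hs : 0 < Real.sin φ := Real.sin_pos_of_pos_of_lt_pi h0 h1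
  have him := congrArg Complex.im he
  have hre := congrArg Complex.re he
  simp only [Complex.add_im, Complex.add_re, Complex.ofReal_im, Complex.ofReal_re,
    Complex.re_ofReal_mul, Complex.im_ofReal_mul, Complex.exp_ofReal_mul_I_re,
    Complex.exp_ofReal_mul_I_im, Complex.zero_im, Complex.zero_re, zero_add] at him hre
  have hB : B = 0 := by
    rcases mul_eq_zero.1 him with h | h
    · exact h
    · exact absurd h hs.ne'
  rw [hB, zero_mul, add_zero] at hre
  exact ⟨hre, hB⟩

private lemma Compat_ray {φ A B : ℝ} (h0 : 0 < φ) (h1 : φ < Real.pi) (hA : 0 ≤ A) (hB : 0 ≤ B)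
    (hne : ¬ (A = 0 ∧ B = 0)) : ∃ u ρ : ℝ, 0 ≤ u ∧ u ≤ φ ∧ 0 < ρ ∧
      (A : ℂ) + (B : ℂ) * exp ((φ : ℂ) * I) = (ρ : ℂ) * exp ((u : ℂ) * I) ∧
      (u = φ → A = 0) ∧ (u = 0 → B = 0) := by
  have hs : 0 < Real.sin φ := Real.sin_pos_of_pos_of_lt_pi h0 h1
  set w : ℂ := (A : ℂ) + (B : ℂ) * exp ((φ : ℂ) * I) with hw
  have hw0 : w ≠ 0 := fun h => hne (Compat_zero h0 h1 h)
  have him : w.im = B * Real.sin φ := by
    rw [hw]
    simp only [Complex.add_im, Complex.ofReal_im, Complex.im_ofReal_mul,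
      Complex.exp_ofReal_mul_I_im, zero_add]
  have hre : w.re = A + B * Real.cos φ := by
    rw [hw]
    simp only [Complex.add_re, Complex.ofReal_re, Complex.re_ofReal_mul,
      Complex.exp_ofReal_mul_I_re]
  have hρ : 0 < ‖w‖ := norm_pos_iff.2 hw0
  have hu0 : 0 ≤ w.arg := Complex.arg_nonneg_iff.2 (by rw [him]; positivity)
  have hupi : w.arg ≤ Real.pi := Complex.arg_le_pi w
  have hexp : w = (‖w‖ : ℂ) * exp ((w.arg : ℂ) * I) := (Complex.norm_mul_exp_arg_mul_I w).symm
  have hre' : w.re = ‖w‖ * Real.cos w.arg := by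
    conv_lhs => rw [hexp]
    rw [Complex.re_ofReal_mul, Complex.exp_ofReal_mul_I_re]
  have him' : w.im = ‖w‖ * Real.sin w.arg := by
    conv_lhs => rw [hexp]
    rw [Complex.im_ofReal_mul, Complex.exp_ofReal_mul_I_im]
  -- the rotated imaginary part
  have hrot : ‖w‖ * Real.sin (w.arg - φ) = -(A * Real.sin φ) := by
    rw [Real.sin_sub, mul_sub]
    have e1 : ‖w‖ * (Real.sin w.arg * Real.cos φ) = w.im * Real.cos φ := by rw [him']; ring
    have e2 : ‖w‖ * (Real.cos w.arg * Real.sin φ) = w.re * Real.sin φ := by rw [hre']; ring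
    rw [e1, e2, him, hre]
    ring
  refine ⟨w.arg, ‖w‖, hu0, ?_, hρ, hexp, ?_, ?_⟩
  · by_contra hlt
    push Not at hlt
    have h2 : 0 < Real.sin (w.arg - φ) :=
      Real.sin_pos_of_pos_of_lt_pi (by linarith) (by linarith)
    have h3 : 0 < ‖w‖ * Real.sin (w.arg - φ) := mul_pos hρ h2
    have h4 : 0 ≤ A * Real.sin φ := by positivity
    linarith
  · intro h
    rw [h, sub_self, Real.sin_zero, mul_zero] at hrot
    have h5 : A * Real.sin φ = 0 := by linarith
    rcases mul_eq_zero.1 h5 with h6 | h6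
    · exact h6
    · exact absurd h6 hs.ne'
  · intro h
    rw [h, Real.sin_zero, mul_zero, him] at him'
    rcases mul_eq_zero.1 him' with h6 | h6
    · exact h6
    · exact absurd h6 hs.ne'

private lemma Compat_fac {r th : ℕ → ℝ} (h : Star n p r th) (i : ℕ) (a b : ℝ) :
    (a : ℂ) * p i + (b : ℂ) * p (i + 1) = exp ((th i : ℂ) * I) *
      (((a * r i : ℝ) : ℂ) + ((b * r (i + 1) : ℝ) : ℂ) *
        exp (((th (i + 1) - th i : ℝ) : ℂ) * I)) := by
  rw [h.rep i, h.rep (i + 1)]
  have e : exp ((th (i + 1) : ℂ) * I) = exp ((th i : ℂ) * I) *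
      exp (((th (i + 1) - th i : ℝ) : ℂ) * I) := by
    rw [← Complex.exp_add]
    congr 1
    push_cast
    ring
  rw [e]
  push_cast
  ring

private lemma Compat_lt {r th : ℕ → ℝ} (h : Star n p r th) {q : ℕ → ℂ}
    (hq : ∀ j, q (j + n) = q j) {i j : ℕ} (hij : i < j) (hj : j < n) {a b c d : ℝ} (ha : 0 ≤ a)
    (hb : 0 ≤ b) (hc : 0 ≤ c) (hd : 0 ≤ d)
    (he : (a : ℂ) * p i + (b : ℂ) * p (i + 1) = (c : ℂ) * p j + (d : ℂ) * p (j + 1)) :
    (a : ℂ) * q i + (b : ℂ) * q (i + 1) = (c : ℂ) * q j + (d : ℂ) * q (j + 1) := by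
  have hmono : StrictMono th := strictMono_nat_of_lt_succ h.lt
  have hp0 : ∀ k, p k ≠ 0 := by
    intro k
    rw [h.rep k]
    exact mul_ne_zero (by exact_mod_cast (h.rpos k).ne') (Complex.exp_ne_zero _)
  have f1 := Compat_fac h i a b
  have f2 := Compat_fac h j c d
  have hφi : 0 < th (i + 1) - th i := sub_pos.2 (h.lt i)
  have hφi' : th (i + 1) - th i < Real.pi := by linarith [h.lt_pi i]
  have hφj : 0 < th (j + 1) - th j := sub_pos.2 (h.lt j)
  have hφj' : th (j + 1) - th j < Real.pi := by linarith [h.lt_pi j]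
  by_cases hz1 : a * r i = 0 ∧ b * r (i + 1) = 0
  · -- the common point is zero
    have ha0 : a = 0 := (mul_eq_zero.1 hz1.1).resolve_right (h.rpos i).ne'
    have hb0 : b = 0 := (mul_eq_zero.1 hz1.2).resolve_right (h.rpos (i + 1)).ne'
    rw [ha0, hb0] at he ⊢
    rw [f2] at he
    simp only [Complex.ofReal_zero, zero_mul, add_zero] at he ⊢
    have h3 := (mul_eq_zero.1 he.symm).resolve_left (Complex.exp_ne_zero _)
    obtain ⟨h4, h5⟩ := Compat_zero hφj hφj' h3
    have hc0 : c = 0 := (mul_eq_zero.1 h4).resolve_right (h.rpos j).ne'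
    have hd0 : d = 0 := (mul_eq_zero.1 h5).resolve_right (h.rpos (j + 1)).ne'
    rw [hc0, hd0]
    simp
  · obtain ⟨u, ρ, hu0, hu1, hρ, hu, huφ, hu00⟩ := Compat_ray hφi hφi'
      (mul_nonneg ha (h.rpos i).le) (mul_nonneg hb (h.rpos (i + 1)).le) hz1
    have hz2 : ¬ (c * r j = 0 ∧ d * r (j + 1) = 0) := by
      rintro ⟨h4, h5⟩
      rw [f1, f2, h4, h5, hu] at he
      simp only [Complex.ofReal_zero, zero_mul, add_zero, mul_zero] at he
      have h6 : (ρ : ℂ) ≠ 0 := by exact_mod_cast hρ.ne'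
      exact (mul_ne_zero (Complex.exp_ne_zero _) (mul_ne_zero h6 (Complex.exp_ne_zero _))) he
    obtain ⟨v, ρ', hv0, hv1, hρ', hv, hvφ, hv00⟩ := Compat_ray hφj hφj'
      (mul_nonneg hc (h.rpos j).le) (mul_nonneg hd (h.rpos (j + 1)).le) hz2
    have he2 : (ρ : ℂ) * exp (((th i + u : ℝ) : ℂ) * I) =
        (ρ' : ℂ) * exp (((th j + v : ℝ) : ℂ) * I) := by
      have e1 : exp (((th i + u : ℝ) : ℂ) * I) = exp ((th i : ℂ) * I) * exp ((u : ℂ) * I) := by
        rw [← Complex.exp_add]
        congr 1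
        push_cast
        ring
      have e2 : exp (((th j + v : ℝ) : ℂ) * I) = exp ((th j : ℂ) * I) * exp ((v : ℂ) * I) := by
        rw [← Complex.exp_add]
        congr 1
        push_cast
        ring
      rw [f1, f2, hu, hv] at he
      rw [e1, e2]
      linear_combination he
    have hρρ : ρ = ρ' := by
      have h7 := congrArg norm he2
      rw [norm_mul, norm_mul, Complex.norm_exp_ofReal_mul_I, Complex.norm_exp_ofReal_mul_I,
        mul_one, mul_one, Complex.norm_real, Complex.norm_real, Real.norm_of_nonneg hρ.le,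
        Real.norm_of_nonneg hρ'.le] at h7
      exact h7
    have hρc : (ρ' : ℂ) ≠ 0 := by exact_mod_cast hρ'.ne'
    rw [hρρ] at he2
    have he3 := mul_left_cancel₀ hρc he2
    rw [Complex.exp_eq_exp_iff_exists_int] at he3
    obtain ⟨k, hk⟩ := he3
    have hk2 : th i + u = th j + v + k * (2 * Real.pi) := by
      have h8 : (((th i + u : ℝ) : ℂ)) * I = (((th j + v + k * (2 * Real.pi) : ℝ)) : ℂ) * I := by
        rw [hk]
        push_cast
        ring
      exact_mod_cast mul_right_cancel₀ Complex.I_ne_zero h8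
    have hpi := Real.pi_pos
    have g1 : th (i + 1) ≤ th j := hmono.monotone hij
    have g2 : th (j + 1) ≤ th i + 2 * Real.pi := by
      rw [← h.tot i]
      exact hmono.monotone (by omega)
    have hk0 : k = 0 ∨ k = -1 := by
      have k1 : (k : ℝ) * (2 * Real.pi) ≤ 0 := by linarith
      have k2 : -(2 * Real.pi) ≤ (k : ℝ) * (2 * Real.pi) := by linarith
      have k3 : (k : ℝ) ≤ 0 := by
        by_contra hc'
        push Not at hc'
        have := mul_pos hc' (show (0 : ℝ) < 2 * Real.pi by positivity)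
        linarith
      have k4 : (-1 : ℝ) ≤ k := by
        by_contra hc'
        push Not at hc'
        have := mul_lt_mul_of_pos_right hc' (show (0 : ℝ) < 2 * Real.pi by positivity)
        linarith
      have k5 : k ≤ 0 := by exact_mod_cast k3
      have k6 : -1 ≤ k := by exact_mod_cast k4
      omega
    rcases hk0 with hk0 | hk0
    · -- the common vertex `i + 1 = j`
      rw [hk0] at hk2
      simp only [Int.cast_zero, zero_mul, add_zero] at hk2
      have h9 : th j = th (i + 1) := by linarith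
      have h10 : j = i + 1 := hmono.injective h9
      have hu2 : u = th (i + 1) - th i := by linarith
      have hv2 : v = 0 := by linarith
      have ha0 : a = 0 := (mul_eq_zero.1 (huφ hu2)).resolve_right (h.rpos i).ne'
      have hd0 : d = 0 := (mul_eq_zero.1 (hv00 hv2)).resolve_right (h.rpos (j + 1)).ne'
      rw [ha0, hd0, h10] at he ⊢
      simp only [Complex.ofReal_zero, zero_mul, add_zero, zero_add] at he ⊢
      rw [mul_right_cancel₀ (hp0 (i + 1)) he]
    · rw [hk0] at hk2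
      push_cast at hk2
      have h9 : th (j + 1) = th (i + n) := by rw [h.tot i]; linarith
      have h10 : j + 1 = i + n := hmono.injective h9
      have hu2 : u = 0 := by linarith
      have hv2 : v = th (j + 1) - th j := by linarith
      have hb0 : b = 0 := (mul_eq_zero.1 (hu00 hu2)).resolve_right (h.rpos (i + 1)).ne'
      have hc0 : c = 0 := (mul_eq_zero.1 (hvφ hv2)).resolve_right (h.rpos j).ne'
      rw [hb0, hc0, h10] at he ⊢
      rw [h.per i] at he
      rw [hq i]
      simp only [Complex.ofReal_zero, zero_mul, add_zero, zero_add] at he ⊢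
      rw [mul_right_cancel₀ (hp0 i) he]

/-- Cp. Let `z = a p_i + b p_(i+1) = c p_j + d p_(j+1)`, `i ≤ j < n`. If `i = j` the coefficients are
equal (`cr ≠ 0`). If `i < j` and `z ≠ 0`: `z = |z| e^{iu} = |z| e^{iv}` with
`th i ≤ u ≤ th (i+1) ≤ th j ≤ v ≤ th (j+1) ≤ th n`, `v - u ∈ {0, 2 pi}` and `v - u ≤ 2 pi`. Either
`u = v = th (i+1) = th j`, so `j = i+1`, `a = d = 0`, `b = c`, or `u = th 0`, `v = th n`, so
`i = 0`, `j = n-1`, `b = c = 0`, `a = d`. -/
theorem compat {r th : ℕ → ℝ} (h : Star n p r th) {q : ℕ → ℂ} (hq : ∀ j, q (j + n) = q j)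
    {i j : ℕ} (hi : i < n) (hj : j < n) {a b c d : ℝ} (ha : 0 ≤ a) (hb : 0 ≤ b) (hc : 0 ≤ c)
    (hd : 0 ≤ d)
    (he : (a : ℂ) * p i + (b : ℂ) * p (i + 1) = (c : ℂ) * p j + (d : ℂ) * p (j + 1)) :
    (a : ℂ) * q i + (b : ℂ) * q (i + 1) = (c : ℂ) * q j + (d : ℂ) * q (j + 1) := by
  rcases lt_trichotomy i j with hij | hij | hij
  · exact Compat_lt h hq hij hj ha hb hc hd he
  · subst hij
    have f : ((a - c : ℝ) : ℂ) * p i + ((b - d : ℝ) : ℂ) * p (i + 1) = 0 := by
      push_cast
      linear_combination he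
    rw [Compat_fac h i (a - c) (b - d)] at f
    have h3 := (mul_eq_zero.1 f).resolve_left (Complex.exp_ne_zero _)
    obtain ⟨h4, h5⟩ := Compat_zero (sub_pos.2 (h.lt i)) (by linarith [h.lt_pi i]) h3
    have e1 : a - c = 0 := (mul_eq_zero.1 h4).resolve_right (h.rpos i).ne'
    have e2 : b - d = 0 := (mul_eq_zero.1 h5).resolve_right (h.rpos (i + 1)).ne'
    rw [sub_eq_zero.1 e1, sub_eq_zero.1 e2]
  · exact (Compat_lt h hq hij hi hc hd ha hb he.symm).symm

end Pool.Agent.H32.SG
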