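import Mathlib
import Pool.Agent.H32.SG.Basic
import Pool.Agent.H32.Q4.SimA

set_option autoImplicit false

/-! Rays from the origin -/

open Complex MeasureTheory Set Finset Filter Topology

open scoped NNReal

namespace Pool.Agent.H32.SG

open Pool.Agent.H32.Stek Pool.Agent.H32.Q4

variable {n : ℕ} {p : ℕ → ℂ} {Om : Set ℂ}

/-- Ray1. The ray `s z`, `s ≥ 1`, is connected and unbounded; if it does not meet the boundary it is
contained in the bounded set `Om` (`Reg.sub`). -/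
theorem ray (hR : Reg p Om) {z : ℂ} (hz : z ∈ Om) (h0 : z ≠ 0) :
    ∃ s : ℝ, 1 < s ∧ (s : ℂ) * z ∈ bdr p := by
  by_contra hcon
  push Not at hcon
  set S : Set ℂ := (fun s : ℝ => (s : ℂ) * z) '' Set.Ici 1 with hS
  have hpre : IsPreconnected S :=
    isPreconnected_Ici.image _ (by fun_prop)
  have hd : ∀ w ∈ S, w ∉ bdr p := by
    rintro w ⟨s, hs, rfl⟩
    rcases (Set.mem_Ici.1 hs).eq_or_lt with h | h
    · subst h
      simpa using hR.disj hz
    · exact hcon s h
  have hzS : z ∈ S := ⟨1, Set.mem_Ici.2 le_rfl, by simp⟩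
  have hsub := hR.sub hpre hd hzS hz
  obtain ⟨R, hRb⟩ := hR.bd.exists_norm_le
  have hzn : 0 < ‖z‖ := norm_pos_iff.2 h0
  set s : ℝ := max 1 ((R + 1) / ‖z‖) with hs
  have hs1 : 1 ≤ s := le_max_left _ _
  have hmem : (s : ℂ) * z ∈ Om := hsub ⟨s, Set.mem_Ici.2 hs1, rfl⟩
  have h1 := hRb _ hmem
  rw [norm_mul, Complex.norm_real, Real.norm_eq_abs, abs_of_pos (by linarith)] at h1
  have h2 : (R + 1) / ‖z‖ ≤ s := le_max_right _ _
  rw [div_le_iff₀ hzn] at h2
  linarith

/-- Ray2. `z = (1/s) (s z)` and `s z` lies on a side. -/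
theorem cover_tri (hP : Poly n p) (hR : Reg p Om) :
    Om ⊆ ⋃ j ∈ Finset.range n, tri 0 (p j) (p (j + 1)) := by
  intro z hz
  by_cases h0 : z = 0
  · refine Set.mem_biUnion (x := 0) (Finset.mem_coe.2 (Finset.mem_range.2 hP.pos)) ?_
    rw [h0, SimA_mem_tri]
    exact ⟨1, 0, 0, zero_le_one, le_rfl, le_rfl, by norm_num, by simp⟩
  · obtain ⟨s, hs, hm⟩ := ray hR hz h0
    rw [bdr_eq hP.pos hP.per] at hm
    obtain ⟨j, hj, hm⟩ := Set.mem_iUnion₂.1 hm
    refine Set.mem_biUnion (x := j) (Finset.mem_coe.2 hj) ?_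
    obtain ⟨t, ht0, ht1, ht⟩ := mem_seg.1 hm
    have hs0 : 0 < s := by linarith
    have hsc : (s : ℂ) ≠ 0 := by exact_mod_cast hs0.ne'
    rw [SimA_mem_tri]
    refine ⟨1 - 1 / s, (1 / s) * (1 - t), (1 / s) * t, ?_, ?_, ?_, by ring, ?_⟩
    · rw [sub_nonneg, div_le_one hs0]
      exact hs.le
    · exact mul_nonneg (by positivity) (by linarith)
    · exact mul_nonneg (by positivity) ht0
    · have h2 : z = (1 / (s : ℂ)) * ((s : ℂ) * z) := by
        field_simp
      rw [h2, ht]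
      push_cast
      ring

/-- Ray3. `area_tri` of Q4/SimA.lean. -/
theorem area_le (hP : Poly n p) (hR : Reg p Om) (hc : ∀ j, 0 < cr (p j) (p (j + 1))) :
    area Om ≤ Ast n p := by
  have hfin : ∀ j, volume (tri 0 (p j) (p (j + 1))) ≠ ⊤ := by
    intro j
    rw [SimA_vol]
    exact ENNReal.ofReal_ne_top
  have hle : volume Om ≤ ∑ j ∈ Finset.range n, volume (tri 0 (p j) (p (j + 1))) :=
    (measure_mono (cover_tri hP hR)).trans (measure_biUnion_finset_le _ _)
  unfold area Ast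
  calc (volume Om).toReal
      ≤ (∑ j ∈ Finset.range n, volume (tri 0 (p j) (p (j + 1)))).toReal :=
        ENNReal.toReal_mono (ENNReal.sum_ne_top.2 fun j _ => hfin j) hle
    _ = ∑ j ∈ Finset.range n, (volume (tri 0 (p j) (p (j + 1)))).toReal :=
        ENNReal.toReal_sum fun j _ => hfin j
    _ = ∑ j ∈ Finset.range n, al p j := by
        refine Finset.sum_congr rfl fun j _ => ?_
        rw [area_tri, sub_zero, sub_zero, abs_of_pos (hc j)]
        rfl

end Pool.Agent.H32.SG
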