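import Mathlib
import Pool.Agent.H32.SG.Basic
import Pool.Agent.H32.SG.Ray

set_option autoImplicit false

/-! The region is covered by the visible sectors up to lines through the origin -/

open Complex MeasureTheory Set Finset Filter Topology

open scoped NNReal

namespace Pool.Agent.H32.SG

open Pool.Agent.H32.Stek Pool.Agent.H32.Q4

variable {n : ℕ} {p : ℕ → ℂ} {Om : Set ℂ}

/-- CW. For `z ∈ Om`, `z ≠ 0`, not on a line through the origin and a vertex: there is a largest `s`
with `s z ∈ bdr p` (compactness), `s > 1` (`ray`); `x = s z` is on a side `j < n`; it is not a vertex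
and the line of the side does not contain the origin (otherwise `x` would be on the line through the
origin and a vertex different from the origin). -/
theorem last_point (hP : Poly n p) (hR : Reg p Om) {z : ℂ} (hz : z ∈ Om) (h0 : z ≠ 0)
    (hv : ∀ j, p j ≠ 0 → cr (p j) z ≠ 0) :
    ∃ j < n, cr (p j) (p (j + 1)) ≠ 0 ∧ ∃ s : ℝ, 1 < s ∧
      (s : ℂ) * z ∈ openSegment ℝ (p j) (p (j + 1)) ∧
      ∀ s' : ℝ, 1 < s' → (s' : ℂ) * ((s : ℂ) * z) ∉ bdr p := by
  have hcpt := isCompact_bdr hP.pos hP.per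
  set K : Set ℝ := {s : ℝ | 1 ≤ s ∧ (s : ℂ) * z ∈ bdr p} with hK
  obtain ⟨s1, hs1, hs1b⟩ := ray hR hz h0
  have hKne : K.Nonempty := ⟨s1, hs1.le, hs1b⟩
  have hKcl : IsClosed K := by
    have h1 : IsClosed {s : ℝ | (s : ℂ) * z ∈ bdr p} :=
      hcpt.isClosed.preimage (by fun_prop)
    exact isClosed_Ici.inter h1
  have hKbd : Bornology.IsBounded K := by
    obtain ⟨C, hC⟩ := hcpt.isBounded.exists_norm_le
    rw [isBounded_iff_forall_norm_le]
    refine ⟨C / ‖z‖, fun s hs => ?_⟩
    have hz0 : 0 < ‖z‖ := norm_pos_iff.2 h0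
    rw [le_div_iff₀ hz0]
    have := hC _ hs.2
    rwa [norm_mul, Complex.norm_real] at this
  have hKc : IsCompact K := Metric.isCompact_of_isClosed_isBounded hKcl hKbd
  obtain ⟨s0, hs0, hmax⟩ := hKc.exists_isGreatest hKne
  have hs01 : 1 < s0 := lt_of_lt_of_le hs1 (hmax ⟨hs1.le, hs1b⟩)
  have hs0p : (0 : ℝ) < s0 := by linarith
  set x : ℂ := (s0 : ℂ) * z with hx
  have hx0 : x ≠ 0 := mul_ne_zero (by exact_mod_cast hs0p.ne') h0
  -- a nonzero vertex is not on the line of x
  have hne : ∀ j, p j ≠ 0 → cr (p j) x ≠ 0 := by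
    intro j hj
    rw [hx, cr_smul_right]
    exact mul_ne_zero hs0p.ne' (hv j hj)
  have hxb : x ∈ bdr p := hs0.2
  rw [bdr_eq hP.pos hP.per] at hxb
  simp only [Set.mem_iUnion, Finset.mem_range] at hxb
  obtain ⟨j, hj, hxj⟩ := hxb
  obtain ⟨u, hu0, hu1, hxu⟩ := mem_seg.1 hxj
  have hxp : x ≠ p j := by
    intro h
    apply hne j (h ▸ hx0)
    rw [h, cr_self]
  have hxp1 : x ≠ p (j + 1) := by
    intro h
    apply hne (j + 1) (h ▸ hx0)
    rw [h, cr_self]
  have hu0' : 0 < u := by
    rcases hu0.lt_or_eq with h | h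
    · exact h
    · exfalso
      apply hxp
      rw [hxu, ← h]
      simp
  have hu1' : u < 1 := by
    rcases hu1.lt_or_eq with h | h
    · exact h
    · exfalso
      apply hxp1
      rw [hxu, h]
      simp
  refine ⟨j, hj, ?_, s0, hs01, mem_openSeg.2 ⟨u, hu0', hu1', hxu⟩, ?_⟩
  · intro hc
    by_cases hpj : p j = 0
    · have hx2 : x = (u : ℂ) * p (j + 1) := by rw [hxu, hpj]; ring
      have hp1 : p (j + 1) ≠ 0 := by
        intro h
        apply hx0
        rw [hx2, h, mul_zero]
      apply hne (j + 1) hp1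
      rw [hx2, cr_smul_right, cr_self, mul_zero]
    · apply hne j hpj
      rw [hxu, cr_add_right, cr_self, cr_smul_right, cr_sub_right, cr_self, hc]
      ring
  · intro s' hs' hb
    have h1 : s' * s0 ∈ K := by
      refine ⟨by nlinarith, ?_⟩
      push_cast
      rw [mul_assoc]
      exact hb
    have h2 := hmax h1
    nlinarith

/-- CW2. the exceptional set is a null set: `{z : cr a z = 0}` is a proper real subspace for `a ≠ 0`
(`Measure.addHaar_submodule`); countable union. -/
theorem null_lines (p : ℕ → ℂ) : volume {z : ℂ | z = 0 ∨ ∃ j, p j ≠ 0 ∧ cr (p j) z = 0} = 0 := by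
  have h1 : {z : ℂ | z = 0 ∨ ∃ j, p j ≠ 0 ∧ cr (p j) z = 0} =
      {0} ∪ ⋃ j, {z : ℂ | p j ≠ 0 ∧ cr (p j) z = 0} := by
    ext z
    simp
  rw [h1]
  refine measure_union_null (measure_singleton _) (measure_iUnion_null fun j => ?_)
  by_cases hj : p j = 0
  · simp [hj]
  · let L : ℂ →ₗ[ℝ] ℝ :=
      { toFun := fun z => cr (p j) z
        map_add' := fun a b => cr_add_right _ _ _
        map_smul' := fun c a => by
          simp only [Complex.real_smul, cr_smul_right, RingHom.id_apply, smul_eq_mul] }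
    have h2 : {z : ℂ | p j ≠ 0 ∧ cr (p j) z = 0} ⊆ (LinearMap.ker L : Set ℂ) := by
      rintro z ⟨_, hz⟩
      exact hz
    refine measure_mono_null h2 (Measure.addHaar_submodule _ _ ?_)
    intro htop
    have h3 : I * p j ∈ LinearMap.ker L := by rw [htop]; trivial
    have h4 : cr (p j) (I * p j) = 0 := h3
    unfold cr at h4
    simp at h4
    apply hj
    apply Complex.ext
    · simp only [Complex.zero_re]
      nlinarith [sq_nonneg (p j).re, sq_nonneg (p j).im]
    · simp only [Complex.zero_im]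
      nlinarith [sq_nonneg (p j).re, sq_nonneg (p j).im]

end Pool.Agent.H32.SG
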