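import Mathlib
import Pool.Agent.H32.SG.Basic

set_option autoImplicit false

/-! The cones of a star-shaped polygon cover the plane -/

open Complex MeasureTheory Set Finset Filter Topology

open scoped NNReal

namespace Pool.Agent.H32.SG

open Pool.Agent.H32.Stek Pool.Agent.H32.Q4

variable {n : ℕ} {p : ℕ → ℂ} {Om : Set ℂ}

private theorem cover_id (α β t : ℝ) :
    (Real.sin (β - t) : ℂ) * exp ((α : ℂ) * I) + (Real.sin (t - α) : ℂ) * exp ((β : ℂ) * I) =
      (Real.sin (β - α) : ℂ) * exp ((t : ℂ) * I) := by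
  apply Complex.ext
  · simp only [Complex.add_re, Complex.re_ofReal_mul, Complex.exp_ofReal_mul_I_re, Real.sin_sub]
    ring
  · simp only [Complex.add_im, Complex.im_ofReal_mul, Complex.exp_ofReal_mul_I_im, Real.sin_sub]
    ring

private theorem cover_find (th : ℕ → ℝ) (t : ℝ) (h0 : th 0 ≤ t) :
    ∀ m, t < th m → ∃ j < m, th j ≤ t ∧ t < th (j + 1) := by
  intro m
  induction m with
  | zero => exact fun h => absurd h0 (not_le.2 h)
  | succ m ih =>
    intro h
    by_cases h1 : t < th m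
    · obtain ⟨j, hj, h2⟩ := ih h1
      exact ⟨j, hj.trans (Nat.lt_succ_self m), h2⟩
    · exact ⟨m, Nat.lt_succ_self m, not_lt.1 h1, h⟩

private theorem cover_t (z : ℂ) (c : ℝ) :
    ∃ t : ℝ, c ≤ t ∧ t < c + 2 * Real.pi ∧ z = (‖z‖ : ℂ) * exp ((t : ℂ) * I) := by
  refine ⟨toIcoMod Real.two_pi_pos c (arg z), left_le_toIcoMod _ _ _, toIcoMod_lt_right _ _ _, ?_⟩
  have h : (toIcoMod Real.two_pi_pos c (arg z) : ℝ) =
      arg z - toIcoDiv Real.two_pi_pos c (arg z) * (2 * Real.pi) := by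
    unfold toIcoMod
    rw [zsmul_eq_mul]
  rw [h]
  push_cast
  have h2 : exp (((arg z : ℂ) - (toIcoDiv Real.two_pi_pos c (arg z) : ℂ) * (2 * Real.pi)) * I) =
      exp ((arg z : ℂ) * I) := by
    have e : ((arg z : ℂ) - (toIcoDiv Real.two_pi_pos c (arg z) : ℂ) * (2 * Real.pi)) * I =
        (arg z : ℂ) * I - (toIcoDiv Real.two_pi_pos c (arg z) : ℂ) * (2 * Real.pi * I) := by ring
    rw [e, Complex.exp_sub, Complex.exp_int_mul_two_pi_mul_I, div_one]
  rw [h2, Complex.norm_mul_exp_arg_mul_I]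

/-- Cv. For `z ≠ 0` choose `th 0 ≤ t < th 0 + 2 pi` with `z = |z| e^{it}` and the last `j < n` with
`th j ≤ t`; then `a = |z| sin (th (j+1) - t) / (r_j sin (th (j+1) - th j))`,
`b = |z| sin (t - th j) / (r_(j+1) sin (th (j+1) - th j))`. -/
theorem cover {r th : ℕ → ℝ} (h : Star n p r th) (hn : 0 < n) (z : ℂ) :
    ∃ j < n, ∃ a b : ℝ, 0 ≤ a ∧ 0 ≤ b ∧ z = (a : ℂ) * p j + (b : ℂ) * p (j + 1) := by
  obtain ⟨t, ht0, ht1, hz⟩ := cover_t z (th 0)
  have htn : t < th n := by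
    have := h.tot 0
    rw [Nat.zero_add] at this
    linarith
  obtain ⟨j, hj, h1, h2⟩ := cover_find th t ht0 n htn
  have hlt := h.lt j
  have hpi := h.lt_pi j
  have hs : 0 < Real.sin (th (j + 1) - th j) := Real.sin_pos_of_pos_of_lt_pi (by linarith) (by linarith)
  have hs1 : 0 ≤ Real.sin (th (j + 1) - t) :=
    Real.sin_nonneg_of_nonneg_of_le_pi (by linarith) (by linarith)
  have hs2 : 0 ≤ Real.sin (t - th j) :=
    Real.sin_nonneg_of_nonneg_of_le_pi (by linarith) (by linarith)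
  have hr1 := h.rpos j
  have hr2 := h.rpos (j + 1)
  refine ⟨j, hj, ‖z‖ * Real.sin (th (j + 1) - t) / (r j * Real.sin (th (j + 1) - th j)),
    ‖z‖ * Real.sin (t - th j) / (r (j + 1) * Real.sin (th (j + 1) - th j)), by positivity,
    by positivity, ?_⟩
  rw [h.rep j, h.rep (j + 1)]
  have hid := cover_id (th j) (th (j + 1)) t
  have hsC : (Real.sin (th (j + 1) - th j) : ℂ) ≠ 0 := by exact_mod_cast hs.ne'
  have hr1C : (r j : ℂ) ≠ 0 := by exact_mod_cast hr1.ne'
  have hr2C : (r (j + 1) : ℂ) ≠ 0 := by exact_mod_cast hr2.ne'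
  have e : ((‖z‖ * Real.sin (th (j + 1) - t) / (r j * Real.sin (th (j + 1) - th j)) : ℝ) : ℂ) *
        ((r j : ℂ) * exp ((th j : ℂ) * I)) +
      ((‖z‖ * Real.sin (t - th j) / (r (j + 1) * Real.sin (th (j + 1) - th j)) : ℝ) : ℂ) *
        ((r (j + 1) : ℂ) * exp ((th (j + 1) : ℂ) * I)) =
      (‖z‖ : ℂ) / (Real.sin (th (j + 1) - th j) : ℂ) *
        ((Real.sin (th (j + 1) - t) : ℂ) * exp ((th j : ℂ) * I) +
          (Real.sin (t - th j) : ℂ) * exp ((th (j + 1) : ℂ) * I)) := by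
    rw [Complex.ofReal_div, Complex.ofReal_div, Complex.ofReal_mul, Complex.ofReal_mul,
      Complex.ofReal_mul, Complex.ofReal_mul]
    field_simp
  rw [e, hid, ← mul_assoc, div_mul_cancel₀ _ hsC]
  exact hz

end Pool.Agent.H32.SG
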