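import Mathlib
import Pool.Agent.H32.SG.Basic
import Pool.Agent.H32.SG.EnX

set_option autoImplicit false

/-! Energy of the trial function on one triangle -/

open Complex MeasureTheory Set Finset Filter Topology

open scoped NNReal

namespace Pool.Agent.H32.SG

open Pool.Agent.H32.Stek Pool.Agent.H32.Q4

variable {n : ℕ} {p : ℕ → ℂ} {Om : Set ℂ}

private lemma jint {f : ℝ → ℝ → ℝ} (hf : Continuous (fun z : ℝ × ℝ => f z.1 z.2)) :
    IntegrableOn (fun z : ℂ => f z.re z.im) EnD := by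
  have h : Continuous (fun z : ℂ => f z.re z.im) :=
    hf.comp (Complex.continuous_re.prodMk Complex.continuous_im)
  exact h.continuousOn.integrableOn_compact EnD_compact

private lemma jadd {f g : ℝ → ℝ → ℝ} (hf : Continuous (fun z : ℝ × ℝ => f z.1 z.2))
    (hg : Continuous (fun z : ℝ × ℝ => g z.1 z.2)) :
    JJ (fun X Y => f X Y + g X Y) = JJ f + JJ g := by
  rw [← EnD_fubini hf, ← EnD_fubini hg, ← EnD_fubini (G := fun X Y => f X Y + g X Y) (hf.add hg)]
  exact integral_add (jint hf) (jint hg)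

private lemma jmul (k : ℝ) (f : ℝ → ℝ → ℝ) : JJ (fun X Y => k * f X Y) = k * JJ f := by
  unfold JJ
  simp only [intervalIntegral.integral_const_mul]

private lemma jone (k : ℝ) : JJ (fun _ _ => k) = k := by
  unfold JJ
  have h : ∀ X : ℝ, ∫ _Y in (-X)..X, k = 2 * k * X := by
    intro X
    rw [intervalIntegral.integral_const, smul_eq_mul]; ring
  simp only [h]
  rw [intervalIntegral.integral_const_mul, integral_id]
  ring

/-- EF. `energy_cov` of Q4/En.lean for the real and for the imaginary part of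
`F (X m + Y v) = X m + Y v + xi om g (X + i t Y)`, `F_X = m + xi om g_x`, `F_Y = v + xi om t g_y`; the
sum of the integrands is `|v|^2 |F_X|^2 - 2 dt m v Re (F_X conj F_Y) + |m|^2 |F_Y|^2`. Terms without
`xi`: `2 (|m|^2 |v|^2 - (dt m v)^2) = 2 (cr m v)^2`, and `JJ 1 = 1`. Terms linear in `xi`: with
`B = JJ g_y`, `JJ g_x = i B`, `conj m |v|^2 - dt m v conj v = i cr m v conj v` and
`conj v |m|^2 - dt m v conj m = -i cr m v conj m` they give
`-2 cr m v Re (xi om B (conj v + i t conj m))`. Quadratic terms: `jj_sharp`. -/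
theorem energy_side (hn : 3 ≤ n) {g : ℂ → ℂ} (hg : Tst n g) {m v xi w : ℂ} (hw : ‖w‖ = 1)
    (hD : 0 < cr m v) {u₁ u₂ : ℂ → ℝ}
    (h1 : ∀ X Y : ℝ, |Y| ≤ X → X ≤ 1 →
      u₁ (X * m + Y * v) = (X * m + Y * v + xi * w * g (X + (tn n * Y : ℝ) * I)).re)
    (h2 : ∀ X Y : ℝ, |Y| ≤ X → X ≤ 1 →
      u₂ (X * m + Y * v) = (X * m + Y * v + xi * w * g (X + (tn n * Y : ℝ) * I)).im) :
    (∫ z in tri 0 (m - v) (m + v), ‖grad u₁ z‖ ^ 2) + (∫ z in tri 0 (m - v) (m + v), ‖grad u₂ z‖ ^ 2) =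
      2 * cr m v -
      2 * (xi * w * ((JJ (fun X Y => (fderiv ℝ g (X + (tn n * Y : ℝ) * I) I).re) : ℂ) +
        (JJ (fun X Y => (fderiv ℝ g (X + (tn n * Y : ℝ) * I) I).im) : ℂ) * I) *
        ((starRingEnd ℂ) v + tn n * I * (starRingEnd ℂ) m)).re +
      ‖xi‖ ^ 2 * (Hn n g * (‖v‖ ^ 2 / (tn n * cr m v)) + Ht n g * (tn n * ‖m‖ ^ 2 / cr m v)) := by
  have ht : 0 < tn n := tn_pos hn
  set t := tn n with htdef
  set c : ℂ := xi * w with hc
  have hc2 : c.re ^ 2 + c.im ^ 2 = ‖xi‖ ^ 2 := by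
    have : ‖c‖ ^ 2 = ‖xi‖ ^ 2 := by rw [hc, norm_mul, hw, mul_one]
    rw [← this, ← Complex.normSq_eq_norm_sq, Complex.normSq_apply]; ring
  -- the derivatives
  have hdg : ∀ z, HasFDerivAt g (fderiv ℝ g z) z := fun z =>
    (hg.c1.differentiable (by norm_num)).differentiableAt.hasFDerivAt
  have cdg : Continuous (fderiv ℝ g) := hg.c1.continuous_fderiv (by norm_num)
  have cpt : Continuous (fun z : ℝ × ℝ => ((z.1 : ℂ) + (t * z.2 : ℝ) * I)) := by fun_prop
  have cgx : Continuous (fun z : ℝ × ℝ => fderiv ℝ g ((z.1 : ℂ) + (t * z.2 : ℝ) * I) 1) :=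
    (cdg.comp cpt).clm_apply continuous_const
  have cgy : Continuous (fun z : ℝ × ℝ => fderiv ℝ g ((z.1 : ℂ) + (t * z.2 : ℝ) * I) I) :=
    (cdg.comp cpt).clm_apply continuous_const
  set a : ℝ → ℝ → ℝ := fun X Y => (fderiv ℝ g (X + (t * Y : ℝ) * I) 1).re with ha
  set b : ℝ → ℝ → ℝ := fun X Y => (fderiv ℝ g (X + (t * Y : ℝ) * I) 1).im with hb
  set r : ℝ → ℝ → ℝ := fun X Y => (fderiv ℝ g (X + (t * Y : ℝ) * I) I).re with hr
  set q : ℝ → ℝ → ℝ := fun X Y => (fderiv ℝ g (X + (t * Y : ℝ) * I) I).im with hq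
  have ca : Continuous (fun z : ℝ × ℝ => a z.1 z.2) := Complex.continuous_re.comp cgx
  have cb : Continuous (fun z : ℝ × ℝ => b z.1 z.2) := Complex.continuous_im.comp cgx
  have cr' : Continuous (fun z : ℝ × ℝ => r z.1 z.2) := Complex.continuous_re.comp cgy
  have cq : Continuous (fun z : ℝ × ℝ => q z.1 z.2) := Complex.continuous_im.comp cgy
  have dX : ∀ X Y : ℝ, HasDerivAt
      (fun x : ℝ => (x * m + Y * v + c * g (x + (t * Y : ℝ) * I) : ℂ))
      (m + c * fderiv ℝ g (X + (t * Y : ℝ) * I) 1) X := by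
    intro X Y
    have e1 : HasDerivAt (fun x : ℝ => ((x : ℂ) + (t * Y : ℝ) * I)) 1 X := by
      have := (Complex.ofRealCLM.hasDerivAt (x := X)).add_const ((t * Y : ℝ) * I : ℂ)
      simpa using this
    have e2 := (hdg ((X : ℂ) + (t * Y : ℝ) * I)).comp_hasDerivAt X e1
    have e3 : HasDerivAt (fun x : ℝ => ((x : ℂ) * m + Y * v)) m X := by
      have := ((Complex.ofRealCLM.hasDerivAt (x := X)).mul_const m).add_const ((Y : ℂ) * v)
      simpa using this
    exact e3.add (e2.const_mul c)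
  have dY : ∀ X Y : ℝ, HasDerivAt
      (fun y : ℝ => (X * m + y * v + c * g (X + (t * y : ℝ) * I) : ℂ))
      (v + c * (t * fderiv ℝ g (X + (t * Y : ℝ) * I) I)) Y := by
    intro X Y
    have e1 : HasDerivAt (fun y : ℝ => ((X : ℂ) + (t * y : ℝ) * I)) (t * I) Y := by
      have := ((((Complex.ofRealCLM.hasDerivAt (x := Y)).const_mul (t : ℂ)).mul_const I).const_add
        (X : ℂ))
      refine (this.congr_deriv (by simp)).congr_of_eventuallyEq ?_
      filter_upwards with y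
      simp
    have e2 := (hdg ((X : ℂ) + (t * Y : ℝ) * I)).comp_hasDerivAt Y e1
    have e4 : fderiv ℝ g ((X : ℂ) + (t * Y : ℝ) * I) ((t : ℂ) * I) =
        (t : ℂ) * fderiv ℝ g ((X : ℂ) + (t * Y : ℝ) * I) I := by
      have : ((t : ℂ) * I) = t • I := by rw [Complex.real_smul]
      rw [this, map_smul, Complex.real_smul]
    rw [e4] at e2
    have e3 : HasDerivAt (fun y : ℝ => ((X : ℂ) * m + y * v)) v Y := by
      have := ((Complex.ofRealCLM.hasDerivAt (x := Y)).mul_const v).const_add ((X : ℂ) * m)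
      simpa using this
    exact e3.add (e2.const_mul c)
  have re_d : ∀ {f : ℝ → ℂ} {f' : ℂ} {x : ℝ}, HasDerivAt f f' x →
      HasDerivAt (fun y => (f y).re) f'.re x := fun {f f' x} h => by
    exact Complex.reCLM.hasFDerivAt.comp_hasDerivAt x h
  have im_d : ∀ {f : ℝ → ℂ} {f' : ℂ} {x : ℝ}, HasDerivAt f f' x →
      HasDerivAt (fun y => (f y).im) f'.im x := fun {f f' x} h => by
    exact Complex.imCLM.hasFDerivAt.comp_hasDerivAt x h
  -- the two energies
  have E1 := energy_cov (P := m) (W := v) hD.ne' (u := u₁)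
    (F := fun X Y => (X * m + Y * v + c * g (X + (t * Y : ℝ) * I)).re)
    (FX := fun X Y => m.re + (c.re * a X Y - c.im * b X Y))
    (FY := fun X Y => v.re + t * (c.re * r X Y - c.im * q X Y))
    (fun X Y => (re_d (dX X Y)).congr_deriv (by simp [ha, hb]))
    (fun X Y => (re_d (dY X Y)).congr_deriv (by simp [hr, hq]; ring))
    (by fun_prop) (by fun_prop) h1
  have E2 := energy_cov (P := m) (W := v) hD.ne' (u := u₂)
    (F := fun X Y => (X * m + Y * v + c * g (X + (t * Y : ℝ) * I)).im)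
    (FX := fun X Y => m.im + (c.re * b X Y + c.im * a X Y))
    (FY := fun X Y => v.im + t * (c.re * q X Y + c.im * r X Y))
    (fun X Y => (im_d (dX X Y)).congr_deriv (by simp [ha, hb]))
    (fun X Y => (im_d (dY X Y)).congr_deriv (by simp [hr, hq]; ring))
    (by fun_prop) (by fun_prop) h2
  rw [E1, E2, ← add_div, ← jadd (by fun_prop) (by fun_prop)]
  -- constants
  set D := cr m v with hDdef
  set V := dt v v with hV
  set M := dt m m with hM
  set S := dt m v with hS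
  set N := ‖xi‖ ^ 2 with hN
  have hexp : (fun X Y : ℝ =>
      V * (m.re + (c.re * a X Y - c.im * b X Y)) ^ 2 -
        2 * S * ((m.re + (c.re * a X Y - c.im * b X Y)) * (v.re + t * (c.re * r X Y - c.im * q X Y))) +
        M * (v.re + t * (c.re * r X Y - c.im * q X Y)) ^ 2 +
      (V * (m.im + (c.re * b X Y + c.im * a X Y)) ^ 2 -
        2 * S * ((m.im + (c.re * b X Y + c.im * a X Y)) * (v.im + t * (c.re * q X Y + c.im * r X Y))) +
        M * (v.im + t * (c.re * q X Y + c.im * r X Y)) ^ 2)) =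
      fun X Y : ℝ => 2 * D ^ 2 +
        ((2 * D * (c.re * v.im - c.im * v.re)) * a X Y +
        ((-(2 * D * (c.re * v.re + c.im * v.im))) * b X Y +
        ((-(2 * D * t * (c.re * m.im - c.im * m.re))) * r X Y +
        ((2 * D * t * (c.re * m.re + c.im * m.im)) * q X Y +
        ((N * V) * (‖fderiv ℝ g (X + (t * Y : ℝ) * I) 1‖ ^ 2) +
        ((-(2 * N * S * t)) * (a X Y * r X Y + b X Y * q X Y) +
        (N * M * t ^ 2) * (‖fderiv ℝ g (X + (t * Y : ℝ) * I) I‖ ^ 2))))))) := by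
    funext X Y
    have en1 : ‖fderiv ℝ g (X + (t * Y : ℝ) * I) 1‖ ^ 2 = a X Y ^ 2 + b X Y ^ 2 := by
      rw [← Complex.normSq_eq_norm_sq, Complex.normSq_apply]; simp only [ha, hb]; ring
    have en2 : ‖fderiv ℝ g (X + (t * Y : ℝ) * I) I‖ ^ 2 = r X Y ^ 2 + q X Y ^ 2 := by
      rw [← Complex.normSq_eq_norm_sq, Complex.normSq_apply]; simp only [hr, hq]; ring
    rw [en1, en2, ← hc2]
    simp only [hV, hM, hS, hDdef, dt, cr]
    ring
  have cn1 : Continuous (fun z : ℝ × ℝ => ‖fderiv ℝ g (z.1 + (t * z.2 : ℝ) * I) 1‖ ^ 2) :=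
    (cgx.norm).pow 2
  have cn2 : Continuous (fun z : ℝ × ℝ => ‖fderiv ℝ g (z.1 + (t * z.2 : ℝ) * I) I‖ ^ 2) :=
    (cgy.norm).pow 2
  rw [hexp, jadd (by fun_prop) (by fun_prop), jadd (by fun_prop) (by fun_prop),
    jadd (by fun_prop) (by fun_prop), jadd (by fun_prop) (by fun_prop),
    jadd (by fun_prop) (by fun_prop), jadd (by fun_prop) (by fun_prop),
    jadd (by fun_prop) (by fun_prop), jone, jmul, jmul, jmul, jmul, jmul, jmul, jmul]
  obtain ⟨x1, x2⟩ := jj_cross hn hg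
  have x3 := jj_sharp hg
  have eH : Hn n g = t * JJ (fun X Y => ‖fderiv ℝ g (X + (t * Y : ℝ) * I) 1‖ ^ 2) := rfl
  have eT : Ht n g = t * JJ (fun X Y => ‖fderiv ℝ g (X + (t * Y : ℝ) * I) I‖ ^ 2) := rfl
  rw [← htdef] at x1 x2 x3
  rw [eH, eT]
  set Jx := JJ (fun X Y => ‖fderiv ℝ g (X + (t * Y : ℝ) * I) 1‖ ^ 2)
  set Jy := JJ (fun X Y => ‖fderiv ℝ g (X + (t * Y : ℝ) * I) I‖ ^ 2)
  have y1 : JJ a = - JJ q := x1
  have y2 : JJ b = JJ r := x2
  have y3 : JJ (fun X Y => a X Y * r X Y + b X Y * q X Y) = 0 := x3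
  have y4 : JJ (fun X Y => a X Y) = - JJ q := x1
  have y5 : JJ (fun X Y => b X Y) = JJ r := x2
  rw [y3]
  simp only [y4, y5]
  have nv : ‖v‖ ^ 2 = V := by
    rw [← Complex.normSq_eq_norm_sq, Complex.normSq_apply, hV]; rfl
  have nm : ‖m‖ ^ 2 = M := by
    rw [← Complex.normSq_eq_norm_sq, Complex.normSq_apply, hM]; rfl
  rw [nv, nm, abs_of_pos hD]
  have hre : (c * ((JJ r : ℂ) + (JJ q : ℂ) * I) * ((starRingEnd ℂ) v + t * I * (starRingEnd ℂ) m)).re =
      (c.re * v.re + c.im * v.im + t * (c.re * m.im - c.im * m.re)) * JJ r +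
      (c.re * v.im - c.im * v.re - t * (c.re * m.re + c.im * m.im)) * JJ q := by
    simp only [Complex.mul_re, Complex.mul_im, Complex.add_re, Complex.add_im, Complex.ofReal_re,
      Complex.ofReal_im, Complex.I_re, Complex.I_im, Complex.conj_re, Complex.conj_im]
    ring
  rw [hre]
  field_simp
  ring

end Pool.Agent.H32.SG
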