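import Mathlib
import Pool.Agent.H32.SG.Basic

set_option autoImplicit false

/-! Gluing Lipschitz functions -/

open Complex MeasureTheory Set Finset Filter Topology

open scoped NNReal

namespace Pool.Agent.H32.SG

open Pool.Agent.H32.Stek Pool.Agent.H32.Q4

variable {n : ℕ} {p : ℕ → ℂ} {Om : Set ℂ}

/-- Gl. Finitely many closed sets cover the plane and `f` is `K`-Lipschitz on each of them; then `f` is
`K`-Lipschitz. Proof: every `x` has a neighbourhood `U` such that every `y ∈ U` lies in some `C i`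
which contains `x` (the sets not containing `x` are closed), so `dist (f x) (f y) ≤ K dist x y` for
`y ∈ U`; in particular `f` is continuous. On the segment `z_s = z + s (w - z)`, the closed set
`{s ∈ [0,1] : ∀ s' ≤ s, dist (f z) (f z_s') ≤ K s' dist z w}` (or the one without `∀ s'`) satisfies the
hypotheses of `IsClosed.Icc_subset_of_forall_exists_gt`. -/
theorem glue {ι : Type} [Finite ι] (C : ι → Set ℂ) (hC : ∀ i, IsClosed (C i))
    (hcov : ∀ z, ∃ i, z ∈ C i) (f : ℂ → ℂ) (K : ℝ≥0) (hf : ∀ i, LipschitzOnWith K f (C i)) :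
    LipschitzWith K f := by
  have hcont : Continuous f := by
    refine (locallyFinite_of_finite C).continuous ?_ hC fun i => (hf i).continuousOn
    ext z
    simpa using hcov z
  have hloc : ∀ x : ℂ, ∀ᶠ y in 𝓝 x, ∃ i, x ∈ C i ∧ y ∈ C i := by
    intro x
    have h1 : ∀ᶠ y in 𝓝 x, ∀ i, x ∈ C i ∨ y ∉ C i := by
      rw [eventually_all]
      intro i
      by_cases hx : x ∈ C i
      · exact Eventually.of_forall fun y => Or.inl hx
      · filter_upwards [(hC i).isOpen_compl.mem_nhds hx] with y hy
        exact Or.inr hy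
    filter_upwards [h1] with y hy
    obtain ⟨i, hi⟩ := hcov y
    exact ⟨i, (hy i).resolve_right fun h => h hi, hi⟩
  refine LipschitzWith.of_dist_le_mul fun z w => ?_
  set g : ℝ → ℂ := fun s => z + (s : ℂ) * (w - z) with hg
  have hgc : Continuous g := by fun_prop
  have hgd : ∀ s t : ℝ, s ≤ t → dist (g s) (g t) = (t - s) * dist z w := by
    intro s t hst
    have h1 : g s - g t = ((s - t : ℝ) : ℂ) * (w - z) := by
      simp only [hg]
      push_cast
      ring
    rw [dist_eq_norm, h1, norm_mul, Complex.norm_real, Real.norm_eq_abs, abs_sub_comm,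
      abs_of_nonneg (sub_nonneg.2 hst), dist_comm z w, dist_eq_norm]
  set S : Set ℝ := {s | dist (f z) (f (g s)) ≤ K * (s * dist z w)} with hS
  have hScl : IsClosed S := by
    refine isClosed_le ?_ ?_
    · exact continuous_const.dist (hcont.comp hgc)
    · fun_prop
  have hsub : Icc (0 : ℝ) 1 ⊆ S := by
    refine IsClosed.Icc_subset_of_forall_exists_gt (hScl.inter isClosed_Icc) ?_ ?_
    · simp [hS, hg]
    · rintro s ⟨hs, hs0, hs1⟩ y hy
      have h2 : ∀ᶠ t in 𝓝[>] s, ∃ i, g s ∈ C i ∧ g t ∈ C i :=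
        (hgc.continuousAt.eventually (hloc (g s))).filter_mono nhdsWithin_le_nhds
      obtain ⟨t, ⟨i, hi1, hi2⟩, ht1, ht2⟩ := (h2.and (Ioc_mem_nhdsGT hy)).exists
      refine ⟨t, ?_, ht1, ht2⟩
      have h3 : dist (f (g s)) (f (g t)) ≤ K * ((t - s) * dist z w) := by
        rw [← hgd s t ht1.le]
        exact (hf i).dist_le_mul _ hi1 _ hi2
      have h4 : dist (f z) (f (g s)) ≤ K * (s * dist z w) := hs
      calc dist (f z) (f (g t)) ≤ dist (f z) (f (g s)) + dist (f (g s)) (f (g t)) :=
            dist_triangle _ _ _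
        _ ≤ K * (s * dist z w) + K * ((t - s) * dist z w) := add_le_add h4 h3
        _ = K * (t * dist z w) := by ring
  have h5 : (1 : ℝ) ∈ S := hsub ⟨zero_le_one, le_refl 1⟩
  have h6 : g 1 = w := by simp [hg]
  have h7 : dist (f z) (f (g 1)) ≤ K * (1 * dist z w) := h5
  rwa [h6, one_mul] at h7

end Pool.Agent.H32.SG
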