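import Mathlib
import Pool.Agent.H32.SG.Basic
import Pool.Agent.H32.Q4.Bt

set_option autoImplicit false

/-! A side in polar coordinates -/

open Complex MeasureTheory Set Finset Filter Topology

open scoped NNReal

namespace Pool.Agent.H32.SG

open Pool.Agent.H32.Stek Pool.Agent.H32.Q4

variable {n : ℕ} {p : ℕ → ℂ} {Om : Set ℂ}

private lemma po_polar {e : ℂ} {eta : ℝ} (he : exp ((eta : ℂ) * I) = e) {del f : ℝ}
    (hc : Real.cos f ≠ 0) :
    ((del / Real.cos f : ℝ) : ℂ) * exp (((eta + f : ℝ) : ℂ) * I) =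
      e * ((del : ℂ) + ((del * Real.tan f : ℝ) : ℂ) * I) := by
  have h1 : (((eta + f : ℝ) : ℂ)) * I = (eta : ℂ) * I + (f : ℂ) * I := by push_cast; ring
  rw [h1, Complex.exp_add, he, Complex.exp_mul_I (f : ℂ), Real.tan_eq_sin_div_cos]
  have hc' : (Real.cos f : ℂ) ≠ 0 := by exact_mod_cast hc
  rw [← Complex.ofReal_cos, ← Complex.ofReal_sin]
  push_cast
  rw [← Complex.ofReal_cos, ← Complex.ofReal_sin]
  field_simp

private lemma po_int (del : ℝ) {al be : ℝ} (h1 : -(Real.pi / 2) < al) (h : al ≤ be)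
    (h2 : be < Real.pi / 2) : ∫ f in al..be, del ^ 3 / Real.cos f ^ 4 =
      del ^ 3 * (Real.tan be + Real.tan be ^ 3 / 3) -
        del ^ 3 * (Real.tan al + Real.tan al ^ 3 / 3) := by
  have hcos : ∀ f ∈ Set.uIcc al be, 0 < Real.cos f := by
    intro f hf
    rw [Set.uIcc_of_le h] at hf
    exact Real.cos_pos_of_mem_Ioo ⟨by linarith [hf.1], by linarith [hf.2]⟩
  apply intervalIntegral.integral_eq_sub_of_hasDerivAt
    (f := fun f => del ^ 3 * (Real.tan f + Real.tan f ^ 3 / 3))
  · intro f hf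
    have hc := hcos f hf
    have ht := Real.hasDerivAt_tan hc.ne'
    have h3 := ((ht.add ((ht.pow 3).div_const 3)).const_mul (del ^ 3))
    refine h3.congr_deriv ?_
    have hs : Real.sin f ^ 2 = 1 - Real.cos f ^ 2 := by
      have := Real.sin_sq_add_cos_sq f; linarith
    have hc' := hc.ne'
    rw [Real.tan_eq_sin_div_cos, show (3 : ℕ) - 1 = 2 by norm_num, div_pow, hs]
    push_cast
    field_simp
    ring
  · apply ContinuousOn.intervalIntegrable
    intro f hf
    have hc := (hcos f hf).ne'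
    exact (continuousAt_const.div (Real.continuous_cos.continuousAt.pow 4)
      (pow_ne_zero 4 hc)).continuousWithinAt

private lemma po_pos {a b : ℂ} (h : 0 < cr a b) : ∃ eta del al be : ℝ, 0 < del ∧
    -(Real.pi / 2) < al ∧ al < be ∧ be < Real.pi / 2 ∧
    (∀ z : ℂ, z ∈ openSegment ℝ a b ↔ ∃ f : ℝ, al < f ∧ f < be ∧
      z = ((del / Real.cos f : ℝ) : ℂ) * exp (((eta + f : ℝ) : ℂ) * I)) ∧
    segInt (fun z => ‖z‖ ^ 2) a b = ∫ f in al..be, del ^ 3 / Real.cos f ^ 4 := by
  have hne : b - a ≠ 0 := by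
    intro h0
    rw [sub_eq_zero.1 h0, cr_self] at h
    exact lt_irrefl _ h
  obtain ⟨L, u, hL, hu, hab⟩ : ∃ (L : ℝ) (u : ℂ), 0 < L ∧ ‖u‖ = 1 ∧ b - a = (L : ℂ) * u := by
    have hn : 0 < ‖b - a‖ := norm_pos_iff.2 hne
    have hn' : ((‖b - a‖ : ℝ) : ℂ) ≠ 0 := by exact_mod_cast hn.ne'
    refine ⟨‖b - a‖, (b - a) / ((‖b - a‖ : ℝ) : ℂ), hn, ?_, ?_⟩
    · rw [norm_div, Complex.norm_real, Real.norm_eq_abs, abs_of_pos hn, div_self hn.ne']
    · field_simp
  have hu2 : u.re ^ 2 + u.im ^ 2 = 1 := by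
    have h1 := Complex.sq_norm u
    rw [hu, Complex.normSq_apply] at h1
    nlinarith
  set del : ℝ := a.re * u.im - a.im * u.re with hdel
  set xa : ℝ := a.re * u.re + a.im * u.im with hxa
  set e : ℂ := -I * u with he
  have hen : ‖e‖ = 1 := by
    rw [he, norm_mul, norm_neg, Complex.norm_I, one_mul, hu]
  obtain ⟨eta, heta⟩ : ∃ eta : ℝ, exp ((eta : ℂ) * I) = e := by
    refine ⟨Complex.arg e, ?_⟩
    have h1 := Complex.norm_mul_exp_arg_mul_I e
    rw [hen] at h1
    simpa using h1
  have hdp : 0 < del := by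
    have h1 : cr a b = L * del := by
      have h2 : b = a + (L : ℂ) * u := by rw [← hab]; ring
      rw [h2, cr_add_right, cr_self, cr_smul_right, zero_add]
      rfl
    rw [h1] at h
    exact pos_of_mul_pos_right h hL.le
  have key : ∀ s : ℝ, a + (s : ℂ) * (b - a) = e * ((del : ℂ) + ((xa + s * L : ℝ) : ℂ) * I) := by
    intro s
    rw [hab, he, hdel, hxa]
    apply Complex.ext
    · simp
      linear_combination (-a.re) * hu2
    · simp
      linear_combination (-a.im) * hu2
  have hnorm : ∀ x : ℝ, ‖e * ((del : ℂ) + (x : ℂ) * I)‖ ^ 2 = del ^ 2 + x ^ 2 := by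
    intro x
    rw [norm_mul, hen, one_mul, Complex.sq_norm, Complex.normSq_add_mul_I]
  set al : ℝ := Real.arctan (xa / del) with hal
  set be : ℝ := Real.arctan ((xa + L) / del) with hbe
  have hlt : al < be := by
    apply Real.arctan_strictMono
    exact (div_lt_div_iff_of_pos_right hdp).2 (by linarith)
  have h1 : -(Real.pi / 2) < al := Real.neg_pi_div_two_lt_arctan _
  have h2 : be < Real.pi / 2 := Real.arctan_lt_pi_div_two _
  have hta : del * Real.tan al = xa := by
    rw [hal, Real.tan_arctan]; field_simp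
  have htb : del * Real.tan be = xa + L := by
    rw [hbe, Real.tan_arctan]; field_simp
  refine ⟨eta, del, al, be, hdp, h1, hlt, h2, ?_, ?_⟩
  · intro z
    rw [mem_openSeg]
    constructor
    · rintro ⟨s, hs0, hs1, rfl⟩
      rw [key s]
      refine ⟨Real.arctan ((xa + s * L) / del), ?_, ?_, ?_⟩
      · apply Real.arctan_strictMono
        exact (div_lt_div_iff_of_pos_right hdp).2 (by nlinarith)
      · apply Real.arctan_strictMono
        exact (div_lt_div_iff_of_pos_right hdp).2 (by nlinarith)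
      · rw [po_polar heta (Real.cos_arctan_pos _).ne', Real.tan_arctan]
        congr 3
        field_simp
    · rintro ⟨f, hf1, hf2, rfl⟩
      have hc : 0 < Real.cos f := Real.cos_pos_of_mem_Ioo ⟨by linarith, by linarith⟩
      have hf : f ∈ Set.Ioo (-(Real.pi / 2)) (Real.pi / 2) := ⟨by linarith, by linarith⟩
      have t1 : Real.tan al < Real.tan f :=
        Real.tan_lt_tan_of_lt_of_lt_pi_div_two h1 hf.2 hf1
      have t2 : Real.tan f < Real.tan be :=
        Real.tan_lt_tan_of_lt_of_lt_pi_div_two hf.1 h2 hf2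
      have t3 : xa < del * Real.tan f := by
        rw [← hta]; exact mul_lt_mul_of_pos_left t1 hdp
      have t4 : del * Real.tan f < xa + L := by
        rw [← htb]; exact mul_lt_mul_of_pos_left t2 hdp
      refine ⟨(del * Real.tan f - xa) / L, div_pos (by linarith) hL, ?_, ?_⟩
      · rw [div_lt_one hL]; linarith
      · have e0 : xa + (del * Real.tan f - xa) / L * L = del * Real.tan f := by
          rw [div_mul_cancel₀ _ hL.ne']
          ring
        rw [key, po_polar heta hc.ne', e0]
  · rw [po_int del h1 hlt.le h2]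
    have e1 : segInt (fun z => ‖z‖ ^ 2) a b =
        L * ∫ t in (0 : ℝ)..1, (del ^ 2 + (xa + t * L) ^ 2) := by
      unfold segInt
      have hn : ‖b - a‖ = L := by
        rw [hab, norm_mul, hu, mul_one, Complex.norm_real, Real.norm_eq_abs, abs_of_pos hL]
      rw [hn]
      congr 1
      apply intervalIntegral.integral_congr
      intro t _
      show ‖a + (t : ℂ) * (b - a)‖ ^ 2 = _
      rw [key t, hnorm]
    have e2 : ∫ t in (0 : ℝ)..1, (del ^ 2 + (xa + t * L) ^ 2) =
        del ^ 2 + xa ^ 2 + xa * L + L ^ 2 / 3 := by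
      rw [intervalIntegral.integral_eq_sub_of_hasDerivAt
        (f := fun t => del ^ 2 * t + xa ^ 2 * t + xa * L * t ^ 2 + L ^ 2 * t ^ 3 / 3)]
      · ring
      · intro t _
        have h3 := ((((hasDerivAt_id t).const_mul (del ^ 2)).add
          ((hasDerivAt_id t).const_mul (xa ^ 2))).add
          ((hasDerivAt_pow 2 t).const_mul (xa * L))).add
          (((hasDerivAt_pow 3 t).const_mul (L ^ 2)).div_const 3)
        refine h3.congr_deriv ?_
        push_cast
        ring
      · exact (by fun_prop : Continuous fun t : ℝ => del ^ 2 + (xa + t * L) ^ 2).intervalIntegrable _ _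
    rw [e1, e2]
    have e3 : xa + L = del * Real.tan be := htb.symm
    have e4 : L = del * Real.tan be - del * Real.tan al := by linarith
    rw [e4, ← hta]
    ring

/-- Po. Segment `a b` on a line which does not contain the origin. If `cr a b > 0` let
`u = (b - a)/|b - a|`, `e^{i eta} = -i u`, `del = cr a b / |b - a| > 0` and
`a = del e^{i eta} (1 + i tan al)`, `b = del e^{i eta} (1 + i tan be)`, `al = arctan`, ...; so
`z = del e^{i eta} (1 + i tan f) = (del / cos f) e^{i (eta + f)}` runs through the segment;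
`|z|^2 ds = del^3 / cos^4 f df` by the substitution `x = del tan f`. If `cr a b < 0` exchange `a` and
`b` (`segInt_symm` of Q4/Bt.lean, `openSegment_symm`). -/
theorem side_polar {a b : ℂ} (h : cr a b ≠ 0) : ∃ eta del al be : ℝ, 0 < del ∧
    -(Real.pi / 2) < al ∧ al < be ∧ be < Real.pi / 2 ∧
    (∀ z : ℂ, z ∈ openSegment ℝ a b ↔ ∃ f : ℝ, al < f ∧ f < be ∧
      z = ((del / Real.cos f : ℝ) : ℂ) * exp (((eta + f : ℝ) : ℂ) * I)) ∧
    segInt (fun z => ‖z‖ ^ 2) a b = ∫ f in al..be, del ^ 3 / Real.cos f ^ 4 := by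
  rcases lt_or_gt_of_ne h with h | h
  · have h' : 0 < cr b a := by rw [cr_anti]; linarith
    rw [openSegment_symm, segInt_symm]
    exact po_pos h'
  · exact po_pos h

end Pool.Agent.H32.SG
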