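import Mathlib
import Pool.Agent.H32.SG.Basic

set_option autoImplicit false

/-! Area of a sector -/

open Complex MeasureTheory Set Finset Filter Topology

open scoped NNReal

namespace Pool.Agent.H32.SG

open Pool.Agent.H32.Stek Pool.Agent.H32.Q4

variable {n : ℕ} {p : ℕ → ℂ} {Om : Set ℂ}

/-- the sector over the set `V` of directions with radius `rho` -/
def sec (eta : ℝ) (V : Set ℝ) (rho : ℝ → ℝ) : Set ℂ :=
  {z | ∃ f ∈ V, ∃ r : ℝ, 0 < r ∧ r < rho f ∧ z = (r : ℂ) * exp (((eta + f : ℝ) : ℂ) * I)}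

private lemma se_polar {al be : ℝ} (h1 : -(Real.pi / 2) < al) (h2 : be < Real.pi / 2) {V : Set ℝ}
    (hVs : V ⊆ Set.Ioo al be) {f : ℝ} (hf : f ∈ V) : f ∈ Set.Ioc (-Real.pi) Real.pi := by
  have h := hVs hf
  have := Real.pi_pos
  exact ⟨by linarith [h.1], by linarith [h.2]⟩

private lemma se_arg {r f : ℝ} (hr : 0 < r) (hf : f ∈ Set.Ioc (-Real.pi) Real.pi) :
    Complex.arg ((r : ℂ) * exp ((f : ℂ) * I)) = f := by
  rw [Complex.exp_mul_I]
  exact Complex.arg_mul_cos_add_sin_mul_I hr hf

private lemma se_norm {r f : ℝ} (hr : 0 < r) : ‖(r : ℂ) * exp ((f : ℂ) * I)‖ = r := by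
  rw [norm_mul, Complex.norm_exp_ofReal_mul_I, mul_one, Complex.norm_real, Real.norm_eq_abs,
    abs_of_pos hr]

/-- the sector in terms of the argument -/
private def se0 (V : Set ℝ) (rho : ℝ → ℝ) : Set ℂ :=
  {w | 0 < ‖w‖ ∧ Complex.arg w ∈ V ∧ ‖w‖ < rho (Complex.arg w)}

private lemma se_pre (eta : ℝ) {V : Set ℝ} (hV : V ⊆ Set.Ioc (-Real.pi) Real.pi) {rho rho' : ℝ → ℝ}
    (he : ∀ f ∈ V, rho' f = rho f) :
    sec eta V rho = (rotation (Circle.exp (-eta))) ⁻¹' (se0 V rho') := by
  ext z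
  have hrot : (rotation (Circle.exp (-eta))) z = exp (-(eta : ℂ) * I) * z := by
    rw [rotation_apply, Circle.coe_exp]
    push_cast
    rfl
  rw [Set.mem_preimage, hrot]
  constructor
  · rintro ⟨f, hf, r, hr, hr2, rfl⟩
    have e : exp (-(eta : ℂ) * I) * ((r : ℂ) * exp (((eta + f : ℝ) : ℂ) * I)) =
        (r : ℂ) * exp ((f : ℂ) * I) := by
      rw [← mul_assoc, mul_comm (exp (-(eta : ℂ) * I)) (r : ℂ), mul_assoc, ← Complex.exp_add]
      congr 2
      push_cast
      ring
    rw [e]
    refine ⟨?_, ?_, ?_⟩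
    · rw [se_norm hr]; exact hr
    · rw [se_arg hr (hV hf)]; exact hf
    · rw [se_arg hr (hV hf), se_norm hr, he f hf]; exact hr2
  · rintro ⟨h1, h2, h3⟩
    refine ⟨_, h2, _, h1, ?_, ?_⟩
    · rw [← he _ h2]; exact h3
    · have h := Complex.norm_mul_exp_arg_mul_I (exp (-(eta : ℂ) * I) * z)
      have e : z = exp ((eta : ℂ) * I) * (exp (-(eta : ℂ) * I) * z) := by
        rw [← mul_assoc, ← Complex.exp_add]
        have : (eta : ℂ) * I + -(eta : ℂ) * I = 0 := by ring
        rw [this, Complex.exp_zero, one_mul]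
      conv_lhs => rw [e, ← h]
      rw [← mul_assoc, mul_comm (exp ((eta : ℂ) * I)), mul_assoc, ← Complex.exp_add]
      congr 2
      push_cast
      ring

private lemma se_meas {V : Set ℝ} (hV : MeasurableSet V) {rho : ℝ → ℝ} (hrho : Measurable rho) :
    MeasurableSet (se0 V rho) := by
  have h1 : MeasurableSet {w : ℂ | 0 < ‖w‖} := measurableSet_lt measurable_const measurable_norm
  have h2 : MeasurableSet {w : ℂ | Complex.arg w ∈ V} := Complex.measurable_arg hV
  have h3 : MeasurableSet {w : ℂ | ‖w‖ < rho (Complex.arg w)} :=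
    measurableSet_lt measurable_norm (hrho.comp Complex.measurable_arg)
  exact h1.inter (h2.inter h3)

private lemma se_inner {c : ℝ} (hc : 0 < c) :
    ∫⁻ r in Set.Ioi (0 : ℝ), (Set.Iio c).indicator (fun r => ENNReal.ofReal r) r =
      ENNReal.ofReal (c ^ 2 / 2) := by
  rw [lintegral_indicator measurableSet_Iio, Measure.restrict_restrict measurableSet_Iio]
  have e : Set.Iio c ∩ Set.Ioi (0 : ℝ) = Set.Ioo 0 c := by
    ext x; simp [and_comm]
  rw [e]
  have hint : IntegrableOn (fun r : ℝ => r) (Set.Ioo 0 c) := by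
    have : IntegrableOn (fun r : ℝ => r) (Set.Icc 0 c) := continuous_id.integrableOn_Icc
    exact this.mono_set Set.Ioo_subset_Icc_self
  have hnn : 0 ≤ᵐ[volume.restrict (Set.Ioo 0 c)] (fun r : ℝ => r) := by
    filter_upwards [ae_restrict_mem measurableSet_Ioo] with r hr
    exact hr.1.le
  rw [← ofReal_integral_eq_lintegral_ofReal hint hnn]
  congr 1
  have h := integral_id (a := 0) (b := c)
  rw [intervalIntegral.integral_of_le hc.le, integral_Ioc_eq_integral_Ioo] at h
  rw [h]
  ring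

private lemma se_vol {V : Set ℝ} (hV : MeasurableSet V) (hVs : V ⊆ Set.Ioo (-Real.pi) Real.pi)
    {rho : ℝ → ℝ} (hrho : Measurable rho) (hpos : ∀ f ∈ V, 0 < rho f) :
    volume (se0 V rho) = ∫⁻ f in V, ENNReal.ofReal (rho f ^ 2 / 2) := by
  have hVc : V ⊆ Set.Ioc (-Real.pi) Real.pi := hVs.trans Set.Ioo_subset_Ioc_self
  rw [← lintegral_indicator_one (se_meas hV hrho), ← Complex.lintegral_comp_polarCoord_symm]
  set F : ℝ × ℝ → ENNReal := fun q =>
    V.indicator (fun f => (Set.Iio (rho f)).indicator (fun r => ENNReal.ofReal r) q.1) q.2 with hF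
  have hset : MeasurableSet {q : ℝ × ℝ | q.2 ∈ V ∧ q.1 < rho q.2} :=
    (measurable_snd hV).inter (measurableSet_lt measurable_fst (hrho.comp measurable_snd))
  have hFe : F = {q : ℝ × ℝ | q.2 ∈ V ∧ q.1 < rho q.2}.indicator
      (fun q => ENNReal.ofReal q.1) := by
    funext q
    by_cases ha : q.2 ∈ V
    · by_cases hb : q.1 < rho q.2
      · rw [Set.indicator_of_mem (show q ∈ {q : ℝ × ℝ | q.2 ∈ V ∧ q.1 < rho q.2} from ⟨ha, hb⟩)]
        simp only [hF]
        rw [Set.indicator_of_mem ha, Set.indicator_of_mem (show q.1 ∈ Set.Iio (rho q.2) from hb)]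
      · rw [Set.indicator_of_notMem
          (show q ∉ {q : ℝ × ℝ | q.2 ∈ V ∧ q.1 < rho q.2} from fun h => hb h.2)]
        simp only [hF]
        rw [Set.indicator_of_mem ha, Set.indicator_of_notMem
          (show q.1 ∉ Set.Iio (rho q.2) from hb)]
    · rw [Set.indicator_of_notMem
          (show q ∉ {q : ℝ × ℝ | q.2 ∈ V ∧ q.1 < rho q.2} from fun h => ha h.1)]
      simp only [hF]
      rw [Set.indicator_of_notMem ha]
  have hFm : Measurable F := by
    rw [hFe]
    exact (ENNReal.measurable_ofReal.comp measurable_fst).indicator hset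
  have e1 : ∫⁻ q in polarCoord.target,
      ENNReal.ofReal q.1 • (se0 V rho).indicator 1 (Complex.polarCoord.symm q) =
      ∫⁻ q in polarCoord.target, F q := by
    apply setLIntegral_congr_fun polarCoord.open_target.measurableSet
    rintro ⟨r, f⟩ hq
    rw [polarCoord_target] at hq
    obtain ⟨hr, hf⟩ := hq
    have hr : 0 < r := hr
    have hf' : f ∈ Set.Ioc (-Real.pi) Real.pi := ⟨hf.1, hf.2.le⟩
    have hp : Complex.polarCoord.symm (r, f) = (r : ℂ) * exp ((f : ℂ) * I) := by
      rw [Complex.polarCoord_symm_apply, Complex.exp_mul_I]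
      push_cast
      rfl
    simp only [hFe]
    rw [hp]
    have ha := se_arg hr hf'
    have hn := se_norm (f := f) hr
    by_cases h : f ∈ V ∧ r < rho f
    · rw [Set.indicator_of_mem (show (r, f) ∈ {q : ℝ × ℝ | q.2 ∈ V ∧ q.1 < rho q.2} from h),
        Set.indicator_of_mem (show (r : ℂ) * exp ((f : ℂ) * I) ∈ se0 V rho from
          ⟨by rw [hn]; exact hr, by rw [ha]; exact h.1, by rw [hn, ha]; exact h.2⟩)]
      simp
    · rw [Set.indicator_of_notMem (show (r, f) ∉ {q : ℝ × ℝ | q.2 ∈ V ∧ q.1 < rho q.2} from h),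
        Set.indicator_of_notMem (show (r : ℂ) * exp ((f : ℂ) * I) ∉ se0 V rho from by
          rintro ⟨_, h2, h3⟩
          rw [ha] at h2
          rw [hn, ha] at h3
          exact h ⟨h2, h3⟩)]
      simp
  rw [e1, polarCoord_target, Measure.volume_eq_prod, ← Measure.prod_restrict,
    lintegral_prod_symm _ hFm.aemeasurable]
  have e2 : ∀ f : ℝ, ∫⁻ r in Set.Ioi (0 : ℝ), F (r, f) =
      V.indicator (fun f => ENNReal.ofReal (rho f ^ 2 / 2)) f := by
    intro f
    by_cases hf : f ∈ V
    · rw [Set.indicator_of_mem hf, ← se_inner (hpos f hf)]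
      simp only [hF, Set.indicator_of_mem hf]
    · rw [Set.indicator_of_notMem hf]
      simp only [hF, Set.indicator_of_notMem hf, lintegral_zero]
  simp only [e2]
  rw [lintegral_indicator hV, Measure.restrict_restrict hV, Set.inter_eq_left.2 hVs]

/-- Se. Rotate by `-eta` (measure preserving), then polar coordinates
(`Complex.polarCoord`, `Complex.integral_comp_polarCoord_symm` or the `lintegral` version): the sector
is the image of `{(r, f) : f ∈ V, 0 < r < rho f}`. -/
theorem sec_area {eta al be : ℝ} (h1 : -(Real.pi / 2) < al) (h2 : be < Real.pi / 2) {V : Set ℝ}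
    (hV : MeasurableSet V) (hVs : V ⊆ Set.Ioo al be) {rho : ℝ → ℝ}
    (hrho : ContinuousOn rho (Set.Icc al be)) (hpos : ∀ f ∈ Set.Icc al be, 0 < rho f) :
    MeasurableSet (sec eta V rho) ∧ volume (sec eta V rho) ≠ ⊤ ∧
      (volume (sec eta V rho)).toReal = ∫ f in V, rho f ^ 2 / 2 := by
  classical
  have hpi := Real.pi_pos
  have hVo : V ⊆ Set.Ioo (-Real.pi) Real.pi := by
    intro f hf
    have h := hVs hf
    exact ⟨by linarith [h.1], by linarith [h.2]⟩
  have hVc : V ⊆ Set.Icc al be := hVs.trans Set.Ioo_subset_Icc_self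
  set rho' : ℝ → ℝ := (Set.Icc al be).piecewise rho 0 with hr'
  have hm : Measurable rho' := hrho.measurable_piecewise continuousOn_const measurableSet_Icc
  have he : ∀ f ∈ V, rho' f = rho f := fun f hf => Set.piecewise_eq_of_mem _ _ _ (hVc hf)
  have hpre := se_pre eta (hVo.trans Set.Ioo_subset_Ioc_self) he
  have hms := se_meas hV hm
  have hmp := (rotation (Circle.exp (-eta))).measurePreserving
  have hvol : volume (sec eta V rho) = ∫⁻ f in V, ENNReal.ofReal (rho f ^ 2 / 2) := by
    rw [hpre, hmp.measure_preimage hms.nullMeasurableSet,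
      se_vol hV hVo hm (fun f hf => by rw [he f hf]; exact hpos f (hVc hf))]
    apply setLIntegral_congr_fun hV
    intro f hf
    simp only [he f hf]
  have hint : IntegrableOn (fun f => rho f ^ 2 / 2) V :=
    (((hrho.pow 2).div_const 2).integrableOn_Icc).mono_set hVc
  have hnn : 0 ≤ᵐ[volume.restrict V] fun f => rho f ^ 2 / 2 :=
    Filter.Eventually.of_forall fun f => by positivity
  rw [← ofReal_integral_eq_lintegral_ofReal hint hnn] at hvol
  refine ⟨?_, ?_, ?_⟩
  · rw [hpre]
    exact hmp.measurable hms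
  · rw [hvol]
    exact ENNReal.ofReal_ne_top
  · rw [hvol, ENNReal.toReal_ofReal (integral_nonneg fun f => by positivity)]

end Pool.Agent.H32.SG
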