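import Mathlib
import Pool.Agent.H32.SG.Basic
import Pool.Agent.H32.Q4.Up

set_option autoImplicit false

/-! Upper bounds of the first Steklov eigenvalue by test functions -/

open Complex MeasureTheory Set Finset Filter Topology

open scoped NNReal

namespace Pool.Agent.H32.SG

open Pool.Agent.H32.Stek Pool.Agent.H32.Q4

variable {n : ℕ} {p : ℕ → ℂ} {Om : Set ℂ}

/-- Up1. Elementary rules for boundary integrals, termwise from `Up_seg_add`, `Up_seg_smul`,
`Up_seg_const`, `Up_seg_nonneg` of Q4/Up.lean (there for four sides). -/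
theorem bd_add {f g : ℂ → ℝ} (hf : Continuous f) (hg : Continuous g) :
    bd n p (fun z => f z + g z) = bd n p f + bd n p g := by
  unfold bd
  rw [← Finset.sum_add_distrib]
  exact Finset.sum_congr rfl fun j _ => Up_seg_add hf hg _ _

theorem bd_smul (c : ℝ) (f : ℂ → ℝ) : bd n p (fun z => c * f z) = c * bd n p f := by
  unfold bd
  rw [Finset.mul_sum]
  exact Finset.sum_congr rfl fun j _ => Up_seg_smul c f _ _

theorem bd_const (c : ℝ) : bd n p (fun _ => c) = c * perim n p := by
  unfold bd perim
  rw [Finset.mul_sum]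
  refine Finset.sum_congr rfl fun j _ => ?_
  rw [Up_seg_const, dist_comm, Complex.dist_eq]

theorem bd_nonneg {f : ℂ → ℝ} (h : ∀ z, 0 ≤ f z) : 0 ≤ bd n p f := by
  unfold bd
  exact Finset.sum_nonneg fun j _ => Up_seg_nonneg h _ _

theorem perim_pos (hP : Poly n p) : 0 < perim n p := by
  unfold perim
  refine Finset.sum_pos (fun j _ => norm_pos_iff.2 (sub_ne_zero.2 (hP.ne j).symm)) ?_
  exact ⟨0, Finset.mem_range.2 hP.pos⟩

theorem en_nonneg (Om : Set ℂ) (u : ℂ → ℝ) : 0 ≤ en Om u := by
  unfold en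
  exact integral_nonneg (fun z => sq_nonneg _)

theorem sig_nonneg : 0 ≤ sig n p Om := by
  unfold sig
  apply Real.sInf_nonneg
  rintro s ⟨v, _, _, hv, rfl⟩
  exact div_nonneg (en_nonneg Om v) hv.le

private theorem UpN_C1 {u : ℂ → ℝ} (hu : ContDiff ℝ 1 u) (hL : 0 < perim n p) :
    sig n p Om * (bd n p (fun z => u z ^ 2) - (bd n p u) ^ 2 / perim n p) ≤ en Om u := by
  set L : ℝ := perim n p with hLdef
  set m : ℝ := bd n p u / L with hm
  have huc : Continuous u := hu.continuous
  have hmL : bd n p u = L * m := by rw [hm]; field_simp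
  have h0 : bd n p (fun z => u z + (-m)) = 0 := by
    rw [bd_add huc continuous_const, bd_const, ← hLdef, hmL]; ring
  have h1 : bd n p (fun z => (u z + (-m)) ^ 2) =
      bd n p (fun z => u z ^ 2) - (bd n p u) ^ 2 / L := by
    have e : (fun z => (u z + (-m)) ^ 2) = fun z => (u z ^ 2 + (-2 * m) * u z) + m ^ 2 := by
      funext z; ring
    rw [e, bd_add (by fun_prop) continuous_const, bd_add (by fun_prop) (by fun_prop),
      bd_smul, bd_const, ← hLdef, hmL]
    field_simp
    ring
  have hE : en Om (fun z => u z + (-m)) = en Om u := by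
    unfold en
    congr 1
    funext z
    rw [grad_add hu contDiff_const, grad_const, add_zero]
  have hV : 0 ≤ bd n p (fun z => (u z + (-m)) ^ 2) := bd_nonneg (fun z => sq_nonneg _)
  rw [← h1]
  rcases hV.eq_or_lt with h | h
  · rw [← h, mul_zero]
    exact en_nonneg Om u
  · have hs : sig n p Om ≤ en Om (fun z => u z + (-m)) /
        bd n p (fun z => (u z + (-m)) ^ 2) := by
      unfold sig
      apply csInf_le
      · refine ⟨0, ?_⟩
        rintro s ⟨v, _, _, hv, rfl⟩
        exact div_nonneg (en_nonneg Om v) hv.le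
      · exact ⟨_, hu.add contDiff_const, h0, h, rfl⟩
    rw [hE, le_div_iff₀ h] at hs
    exact hs

private theorem UpN_tendsto {f : ℕ → ℂ → ℝ} {g b : ℂ → ℝ} (hf : ∀ k, Continuous (f k))
    (hb : Continuous b) (hfb : ∀ k z, |f k z| ≤ b z)
    (hlim : ∀ z, Tendsto (fun k => f k z) atTop (𝓝 (g z))) :
    Tendsto (fun k => bd n p (f k)) atTop (𝓝 (bd n p g)) := by
  unfold bd
  exact tendsto_finsetSum _ fun j _ => Up_seg_tendsto hf hb hfb hlim _ _

/-- Up2. Lipschitz test functions: copy of `sigma_le_C1`, `Up_seg_tendsto`, `Up_bd_tendsto`,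
`sigma_le_Lip` of Q4/Up.lean (mollification `moll` of Q4/Mo.lean works for every measurable set of
finite measure). -/
theorem sig_le_Lip {u : ℂ → ℝ} {K : ℝ≥0} (hu : LipschitzWith K u) (hO : MeasurableSet Om)
    (hf : volume Om ≠ ⊤) (hL : 0 < perim n p) :
    sig n p Om * (bd n p (fun z => u z ^ 2) - bd n p u ^ 2 / perim n p) ≤ en Om u := by
  obtain ⟨v, hv1, hv2, hv3⟩ := moll hu
  have hE := hv3 Om hO hf
  have huc : Continuous u := hu.continuous
  have hK : (0:ℝ) ≤ K := K.coe_nonneg
  have hKn : ∀ k : ℕ, (K:ℝ) / (k + 1) ≤ K := by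
    intro k
    apply div_le_self hK
    have : (0:ℝ) ≤ k := Nat.cast_nonneg k
    linarith
  have hvb : ∀ k z, |v k z| ≤ |u z| + K := by
    intro k z
    have h1 := hv2 k z
    have h2 := hKn k
    have h3 : |v k z| ≤ |v k z - u z| + |u z| := by
      calc |v k z| = |(v k z - u z) + u z| := by ring_nf
        _ ≤ _ := abs_add_le _ _
    linarith
  have hlim : ∀ z, Tendsto (fun k => v k z) atTop (𝓝 (u z)) := by
    intro z
    rw [tendsto_iff_dist_tendsto_zero]
    have h0 : Tendsto (fun k : ℕ => (K:ℝ) / (k + 1)) atTop (𝓝 0) := by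
      have := tendsto_one_div_add_atTop_nhds_zero_nat (𝕜 := ℝ)
      have h2 := this.const_mul (K:ℝ)
      simpa [div_eq_mul_inv] using h2
    refine squeeze_zero (fun k => dist_nonneg) (fun k => ?_) h0
    rw [Real.dist_eq]
    exact hv2 k z
  have t1 : Tendsto (fun k => bd n p (v k)) atTop (𝓝 (bd n p u)) :=
    UpN_tendsto (b := fun z => |u z| + K) (fun k => (hv1 k).continuous) (by fun_prop) hvb hlim
  have t2 : Tendsto (fun k => bd n p (fun z => v k z ^ 2)) atTop
      (𝓝 (bd n p (fun z => u z ^ 2))) := by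
    refine UpN_tendsto (f := fun k z => v k z ^ 2) (b := fun z => (|u z| + K) ^ 2)
      (fun k => (hv1 k).continuous.pow 2) (by fun_prop) ?_ ?_
    · intro k z
      rw [abs_pow]
      exact pow_le_pow_left₀ (abs_nonneg _) (hvb k z) 2
    · intro z
      exact (hlim z).pow 2
  have t3 : Tendsto (fun k => sig n p Om * (bd n p (fun z => v k z ^ 2) -
      (bd n p (v k)) ^ 2 / perim n p)) atTop
      (𝓝 (sig n p Om * (bd n p (fun z => u z ^ 2) - (bd n p u) ^ 2 / perim n p))) :=
    (t2.sub ((t1.pow 2).div_const _)).const_mul _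
  refine le_of_tendsto_of_tendsto' t3 hE (fun k => ?_)
  exact UpN_C1 (hv1 k) hL

/-- Up3. complex valued Lipschitz functions with boundary integral zero: add the two inequalities
for the real and the imaginary part. -/
theorem sig_le_cx {F : ℂ → ℂ} {K : ℝ≥0} (hF : LipschitzWith K F) (hO : MeasurableSet Om)
    (hf : volume Om ≠ ⊤) (hL : 0 < perim n p) (h1 : bd n p (fun z => (F z).re) = 0)
    (h2 : bd n p (fun z => (F z).im) = 0) :
    sig n p Om * bd n p (fun z => ‖F z‖ ^ 2) ≤
      en Om (fun z => (F z).re) + en Om (fun z => (F z).im) := by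
  have hre : LipschitzWith K (fun z => (F z).re) := by
    refine LipschitzWith.of_dist_le_mul fun x y => ?_
    have h3 := hF.dist_le_mul x y
    rw [Complex.dist_eq (F x)] at h3
    rw [Real.dist_eq, ← Complex.sub_re]
    exact (Complex.abs_re_le_norm _).trans h3
  have him : LipschitzWith K (fun z => (F z).im) := by
    refine LipschitzWith.of_dist_le_mul fun x y => ?_
    have h3 := hF.dist_le_mul x y
    rw [Complex.dist_eq (F x)] at h3
    rw [Real.dist_eq, ← Complex.sub_im]
    exact (Complex.abs_im_le_norm _).trans h3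
  have e1 := sig_le_Lip hre hO hf hL
  have e2 := sig_le_Lip him hO hf hL
  rw [h1] at e1
  rw [h2] at e2
  have e3 : bd n p (fun z => ‖F z‖ ^ 2) =
      bd n p (fun z => (F z).re ^ 2) + bd n p (fun z => (F z).im ^ 2) := by
    rw [← bd_add (f := fun z => (F z).re ^ 2) (g := fun z => (F z).im ^ 2)
      (hre.continuous.pow 2) (him.continuous.pow 2)]
    congr 1
    funext z
    rw [Complex.sq_norm, Complex.normSq_apply]
    ring
  rw [e3, mul_add]
  have z1 : (0 : ℝ) ^ 2 / perim n p = 0 := by simp
  rw [z1, sub_zero] at e1 e2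
  exact add_le_add e1 e2

/-- Up4. `F z = z` (`Up_grad_re`, `Up_grad_im` of Q4/Up.lean). -/
theorem sig_J (hP : Poly n p) (hR : Reg p Om) (hC : Cen n p) :
    sig n p Om * JJb n p ≤ 2 * area Om := by
  have hf : volume Om ≠ ⊤ := hR.bd.measure_lt_top.ne
  have e1 : en Om (fun z => z.re) = area Om := by
    unfold en area
    simp only [Up_grad_re]
    simp [Measure.real]
  have e2 : en Om (fun z => z.im) = area Om := by
    unfold en area
    simp only [Up_grad_im]
    simp [Measure.real]
  have h := sig_le_cx (n := n) (p := p) (Om := Om) (F := fun z => z) (K := 1) LipschitzWith.id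
    hR.op.measurableSet hf (perim_pos hP) hC.1 hC.2
  rw [e1, e2] at h
  unfold JJb
  linarith

end Pool.Agent.H32.SG
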