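import Mathlib
import Pool.Agent.H32.SG.Basic
import Pool.Agent.H32.SG.Inner

set_option autoImplicit false

/-! The visible windows -/

open Complex MeasureTheory Set Finset Filter Topology

open scoped NNReal

namespace Pool.Agent.H32.SG

open Pool.Agent.H32.Stek Pool.Agent.H32.Q4

variable {n : ℕ} {p : ℕ → ℂ} {Om : Set ℂ}

/-- directions `f` in which the point `(del / cos f) e^{i (eta + f)}` is the last point of the polygon on
its ray -/
def VV (p : ℕ → ℂ) (eta del al be : ℝ) : Set ℝ :=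
  {f | al < f ∧ f < be ∧ ∀ s : ℝ, 1 < s →
    (s : ℂ) * (((del / Real.cos f : ℝ) : ℂ) * exp (((eta + f : ℝ) : ℂ) * I)) ∉ bdr p}

/-- Wi1. The complement in `(al, be)` is the union over `m` of the projections of the compact sets
`{(f, s) : f ∈ [al, be], 1 + 1/(m+1) ≤ s ≤ m + 1, s x(f) ∈ bdr p}`. -/
theorem meas_VV (hn : 0 < n) (hper : ∀ j, p (j + n) = p j) {eta del al be : ℝ}
    (h1 : -(Real.pi / 2) < al) (h2 : be < Real.pi / 2) : MeasurableSet (VV p eta del al be) := by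
  have hK : ∀ m : ℕ, IsCompact ((Set.Icc al be ×ˢ Set.Icc (1 + 1 / ((m : ℝ) + 1)) ((m : ℝ) + 1)) ∩
      (fun q : ℝ × ℝ => (q.2 : ℂ) * (((del / Real.cos q.1 : ℝ) : ℂ) *
        exp (((eta + q.1 : ℝ) : ℂ) * I))) ⁻¹' (bdr p)) := by
    intro m
    have hcomp : IsCompact (Set.Icc al be ×ˢ Set.Icc (1 + 1 / ((m : ℝ) + 1)) ((m : ℝ) + 1)) :=
      isCompact_Icc.prod isCompact_Icc
    refine IsCompact.of_isClosed_subset hcomp ?_ Set.inter_subset_left
    refine ContinuousOn.preimage_isClosed_of_isClosed ?_ hcomp.isClosed (isClosed_bdr hn hper)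
    have h1 : ContinuousOn (fun q : ℝ × ℝ => del / Real.cos q.1)
        (Set.Icc al be ×ˢ Set.Icc (1 + 1 / ((m : ℝ) + 1)) ((m : ℝ) + 1)) := by
      refine ContinuousOn.div (by fun_prop) (by fun_prop) ?_
      rintro ⟨f, s⟩ ⟨hf, _⟩
      exact (Real.cos_pos_of_mem_Ioo ⟨by linarith [hf.1], by linarith [hf.2]⟩).ne'
    have h2 := Complex.continuous_ofReal.comp_continuousOn h1
    have h3 : ContinuousOn (fun q : ℝ × ℝ => (q.2 : ℂ))
        (Set.Icc al be ×ˢ Set.Icc (1 + 1 / ((m : ℝ) + 1)) ((m : ℝ) + 1)) :=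
      (Complex.continuous_ofReal.comp continuous_snd).continuousOn
    have h4 : ContinuousOn (fun q : ℝ × ℝ => exp (((eta + q.1 : ℝ) : ℂ) * I))
        (Set.Icc al be ×ˢ Set.Icc (1 + 1 / ((m : ℝ) + 1)) ((m : ℝ) + 1)) := by
      apply Continuous.continuousOn
      fun_prop
    exact h3.mul (h2.mul h4)
  have hEq : VV p eta del al be = Set.Ioo al be \ ⋃ m : ℕ, Prod.fst ''
      ((Set.Icc al be ×ˢ Set.Icc (1 + 1 / ((m : ℝ) + 1)) ((m : ℝ) + 1)) ∩
      (fun q : ℝ × ℝ => (q.2 : ℂ) * (((del / Real.cos q.1 : ℝ) : ℂ) *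
        exp (((eta + q.1 : ℝ) : ℂ) * I))) ⁻¹' (bdr p)) := by
    ext f
    constructor
    · rintro ⟨h3, h4, h5⟩
      refine ⟨⟨h3, h4⟩, ?_⟩
      intro h6
      rw [Set.mem_iUnion] at h6
      obtain ⟨m, ⟨f', s⟩, ⟨⟨_, hs⟩, hm⟩, hf'⟩ := h6
      simp only at hf'
      subst hf'
      refine h5 s ?_ hm
      have : (0 : ℝ) < 1 / ((m : ℝ) + 1) := by positivity
      have := hs.1
      simp only at this
      linarith
    · rintro ⟨⟨h3, h4⟩, h5⟩
      refine ⟨h3, h4, ?_⟩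
      intro s hs hm
      apply h5
      rw [Set.mem_iUnion]
      obtain ⟨m1, hm1⟩ := exists_nat_ge s
      obtain ⟨m2, hm2⟩ := exists_nat_gt (1 / (s - 1))
      refine ⟨max m1 m2, ⟨f, s⟩, ⟨⟨⟨h3.le, h4.le⟩, ?_, ?_⟩, hm⟩, rfl⟩
      · have h7 : (1 : ℝ) / (s - 1) < ((max m1 m2 : ℕ) : ℝ) + 1 := by
          have : (m2 : ℝ) ≤ ((max m1 m2 : ℕ) : ℝ) := by exact_mod_cast le_max_right _ _
          linarith
        have h8 : 0 < s - 1 := by linarith
        have h9 : 1 / (((max m1 m2 : ℕ) : ℝ) + 1) ≤ s - 1 := by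
          rw [div_le_iff₀ (by positivity)]
          rw [div_lt_iff₀ h8] at h7
          linarith
        simp only
        linarith
      · have : (m1 : ℝ) ≤ ((max m1 m2 : ℕ) : ℝ) := by exact_mod_cast le_max_left _ _
        simp only
        linarith
  rw [hEq]
  exact measurableSet_Ioo.diff (MeasurableSet.iUnion fun m =>
    ((hK m).image continuous_fst).measurableSet)

/-- Wi2. Windows of different sides have different directions: if `x = c y`, `c ≥ 1` say, with `x`, `y`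
inner points of the sides `i ≠ j`, both last on their ray, then `c = 1` and the two sides have a
common inner point (`only_side` of Inner.lean). -/
theorem dir_ne (hP : Poly n p) {i j : ℕ} (hi : i < n) (hj : j < n) (hij : i ≠ j)
    {eta del al be eta' del' al' be' : ℝ} (hd : 0 < del) (hd' : 0 < del')
    (h1 : -(Real.pi / 2) < al) (h2 : be < Real.pi / 2)
    (h1' : -(Real.pi / 2) < al') (h2' : be' < Real.pi / 2)
    (hs : ∀ z : ℂ, z ∈ openSegment ℝ (p i) (p (i + 1)) ↔ ∃ f : ℝ, al < f ∧ f < be ∧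
      z = ((del / Real.cos f : ℝ) : ℂ) * exp (((eta + f : ℝ) : ℂ) * I))
    (hs' : ∀ z : ℂ, z ∈ openSegment ℝ (p j) (p (j + 1)) ↔ ∃ f : ℝ, al' < f ∧ f < be' ∧
      z = ((del' / Real.cos f : ℝ) : ℂ) * exp (((eta' + f : ℝ) : ℂ) * I))
    {f f' : ℝ} (hf : f ∈ VV p eta del al be) (hf' : f' ∈ VV p eta' del' al' be') :
    exp (((eta + f : ℝ) : ℂ) * I) ≠ exp (((eta' + f' : ℝ) : ℂ) * I) := by
  intro hE
  have hc : 0 < Real.cos f := Real.cos_pos_of_mem_Ioo ⟨by linarith [hf.1], by linarith [hf.2.1]⟩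
  have hc' : 0 < Real.cos f' :=
    Real.cos_pos_of_mem_Ioo ⟨by linarith [hf'.1], by linarith [hf'.2.1]⟩
  have h3 : 0 < del / Real.cos f := div_pos hd hc
  have h4 : 0 < del' / Real.cos f' := div_pos hd' hc'
  have hx := (hs _).mpr ⟨f, hf.1, hf.2.1, rfl⟩
  have hy := (hs' _).mpr ⟨f', hf'.1, hf'.2.1, rfl⟩
  have hx1 := openSegment_subset_segment ℝ _ _ hx
  have hy1 := openSegment_subset_segment ℝ _ _ hy
  rcases lt_trichotomy (del / Real.cos f) (del' / Real.cos f') with h | h | h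
  · apply hf.2.2 ((del' / Real.cos f') / (del / Real.cos f)) ((one_lt_div h3).mpr h)
    apply side_subset p j
    have h5 : (((del' / Real.cos f') / (del / Real.cos f) : ℝ) : ℂ) *
        (((del / Real.cos f : ℝ) : ℂ) * exp (((eta + f : ℝ) : ℂ) * I)) =
        ((del' / Real.cos f' : ℝ) : ℂ) * exp (((eta' + f' : ℝ) : ℂ) * I) := by
      rw [← mul_assoc, ← Complex.ofReal_mul, div_mul_cancel₀ _ h3.ne', hE]
    rw [h5]
    exact hy1
  · apply hij
    rw [hE, h] at hx1
    exact only_side hP hj hy hi hx1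
  · apply hf'.2.2 ((del / Real.cos f) / (del' / Real.cos f')) ((one_lt_div h4).mpr h)
    apply side_subset p i
    have h5 : (((del / Real.cos f) / (del' / Real.cos f') : ℝ) : ℂ) *
        (((del' / Real.cos f' : ℝ) : ℂ) * exp (((eta' + f' : ℝ) : ℂ) * I)) =
        ((del / Real.cos f : ℝ) : ℂ) * exp (((eta + f : ℝ) : ℂ) * I) := by
      rw [← mul_assoc, ← Complex.ofReal_mul, div_mul_cancel₀ _ h4.ne', hE]
    rw [h5]
    exact hx1

end Pool.Agent.H32.SG
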