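import Mathlib
import Pool.Agent.H32.SG.Basic
import Pool.Agent.H32.SG.Up
import Pool.Agent.H32.SG.Pol
import Pool.Agent.H32.SG.Sec
import Pool.Agent.H32.SG.Win
import Pool.Agent.H32.SG.CovW

set_option autoImplicit false

/-! If some side is hidden -/

open Complex MeasureTheory Set Finset Filter Topology

open scoped NNReal

namespace Pool.Agent.H32.SG

open Pool.Agent.H32.Stek Pool.Agent.H32.Q4

variable {n : ℕ} {p : ℕ → ℂ} {Om : Set ℂ}

private lemma Hid_cos {f : ℝ} (h1 : -(Real.pi / 2) < f) (h2 : f < Real.pi / 2) : 0 < Real.cos f :=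
  Real.cos_pos_of_mem_Ioo ⟨h1, h2⟩

/-- the integrand of the window inequality -/
private noncomputable def Hid_h (y0 c D f : ℝ) : ℝ :=
  D ^ 3 / Real.cos f ^ 4 - 3 / 2 * y0 * (D ^ 2 / Real.cos f ^ 2) + c

private lemma Hid_h_ge {y0 c D : ℝ} (hc : 0 ≤ c) (hD : 0 < D) (f : ℝ) :
    -(9 / 16 * y0 ^ 2 * D) ≤ Hid_h y0 c D f := by
  unfold Hid_h
  set u : ℝ := 1 / Real.cos f ^ 2 with hu
  have e1 : D ^ 3 / Real.cos f ^ 4 = D ^ 3 * u ^ 2 := by rw [hu, div_pow, ← pow_mul]; ring
  have e2 : D ^ 2 / Real.cos f ^ 2 = D ^ 2 * u := by rw [hu]; ring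
  rw [e1, e2]
  have h1 : 0 ≤ D * (D * u - 3 / 4 * y0) ^ 2 := by positivity
  nlinarith

private lemma Hid_meas (y0 c D : ℝ) : Measurable (Hid_h y0 c D) := by
  unfold Hid_h
  fun_prop

private lemma Hid_min_int {y0 c D : ℝ} (hc : 0 ≤ c) (hD : 0 < D) (a b : ℝ) :
    IntegrableOn (fun f => min (Hid_h y0 c D f) 0) (Set.Ioc a b) := by
  refine Measure.integrableOn_of_bounded (M := 9 / 16 * y0 ^ 2 * D) (by simp) ?_ ?_
  · exact ((Hid_meas y0 c D).min measurable_const).aestronglyMeasurable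
  · filter_upwards with f
    have h1 := Hid_h_ge (y0 := y0) hc hD f
    have h2 : 0 ≤ 9 / 16 * y0 ^ 2 * D := by positivity
    rw [Real.norm_eq_abs, abs_le]
    exact ⟨le_min h1 (by linarith), (min_le_right _ _).trans h2⟩

/-- the inequality for one window -/
private lemma Hid_window {y0 c P0 D al be : ℝ} (hc : 0 ≤ c) (hD : 0 < D)
    (hb : -P0 ≤ ∫ f in (-(Real.pi / 2))..(Real.pi / 2), min (Hid_h y0 c D f) 0)
    (h1 : -(Real.pi / 2) < al) (h2 : be < Real.pi / 2) {V : Set ℝ} (hV : MeasurableSet V)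
    (hVs : V ⊆ Set.Ioo al be) :
    -P0 ≤ (∫ f in V, D ^ 3 / Real.cos f ^ 4) - 3 * y0 * (∫ f in V, (D / Real.cos f) ^ 2 / 2) +
      c * (volume V).toReal := by
  have hcos : ∀ f ∈ Set.Icc al be, 0 < Real.cos f := fun f hf => Hid_cos (by linarith [hf.1]) (by linarith [hf.2])
  have hVI : V ⊆ Set.Icc al be := hVs.trans Set.Ioo_subset_Icc_self
  have i1 : IntegrableOn (fun f => D ^ 3 / Real.cos f ^ 4) V := by
    refine IntegrableOn.mono_set ?_ hVI
    apply ContinuousOn.integrableOn_Icc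
    exact continuousOn_const.div (Real.continuous_cos.pow 4).continuousOn
      (fun f hf => (pow_pos (hcos f hf) 4).ne')
  have i2 : IntegrableOn (fun f => (D / Real.cos f) ^ 2 / 2) V := by
    refine IntegrableOn.mono_set ?_ hVI
    apply ContinuousOn.integrableOn_Icc
    exact ((continuousOn_const.div Real.continuous_cos.continuousOn
      (fun f hf => (hcos f hf).ne')).pow 2).div_const 2
  have hVfin : volume V ≠ ⊤ := by
    refine ne_top_of_le_ne_top ?_ (measure_mono hVI)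
    simp
  have i3 : IntegrableOn (fun _ : ℝ => c) V := by
    rw [integrableOn_const_iff]
    right
    exact lt_top_iff_ne_top.mpr hVfin
  have e1 : (∫ f in V, D ^ 3 / Real.cos f ^ 4) - 3 * y0 * (∫ f in V, (D / Real.cos f) ^ 2 / 2) +
      c * (volume V).toReal = ∫ f in V, Hid_h y0 c D f := by
    have e2 : ∫ f in V, Hid_h y0 c D f = ∫ f in V, ((D ^ 3 / Real.cos f ^ 4 -
        3 * y0 * ((D / Real.cos f) ^ 2 / 2)) + c) := by
      congr 1
      funext f
      unfold Hid_h
      rw [div_pow]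
      ring
    have i12 : IntegrableOn (fun f => D ^ 3 / Real.cos f ^ 4 -
        3 * y0 * ((D / Real.cos f) ^ 2 / 2)) V := i1.sub (i2.const_mul (3 * y0))
    rw [e2, integral_add i12 i3, integral_sub i1 (i2.const_mul (3 * y0)),
      integral_const_mul, integral_const]
    simp only [smul_eq_mul, Measure.real, Measure.restrict_apply_univ]
    ring
  rw [e1]
  have i4 : IntegrableOn (fun f => Hid_h y0 c D f) V := by
    have h3 := (i1.sub ((i2.const_mul (3 * y0)))).add i3
    refine h3.congr_fun (fun f _ => ?_) hV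
    simp only [Pi.add_apply, Pi.sub_apply]
    unfold Hid_h
    rw [div_pow]
    ring
  have hmin := Hid_min_int (y0 := y0) hc hD (-(Real.pi / 2)) (Real.pi / 2)
  have hVsub : V ⊆ Set.Ioc (-(Real.pi / 2)) (Real.pi / 2) := by
    intro f hf
    have := hVs hf
    exact ⟨by linarith [this.1], by linarith [this.2]⟩
  have hpi : -(Real.pi / 2) ≤ Real.pi / 2 := by linarith [Real.pi_pos]
  rw [intervalIntegral.integral_of_le hpi] at hb
  have h5 : ∫ f in Set.Ioc (-(Real.pi / 2)) (Real.pi / 2), min (Hid_h y0 c D f) 0 ≤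
      ∫ f in V, min (Hid_h y0 c D f) 0 := by
    have h6 := setIntegral_mono_set (s := V) (t := Set.Ioc (-(Real.pi / 2)) (Real.pi / 2))
      (f := fun f => -min (Hid_h y0 c D f) 0) (μ := volume) hmin.neg
      (Filter.Eventually.of_forall fun f => by
        show (0:ℝ) ≤ -min (Hid_h y0 c D f) 0
        have := min_le_right (Hid_h y0 c D f) 0
        linarith)
      (Filter.Eventually.of_forall fun f hf => hVsub hf)
    rw [integral_neg, integral_neg] at h6
    linarith
  have h7 : ∫ f in V, min (Hid_h y0 c D f) 0 ≤ ∫ f in V, Hid_h y0 c D f :=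
    setIntegral_mono (hmin.mono_set hVsub) i4 (fun f => min_le_left _ _)
  linarith

/-- Hid. -/
theorem hidden (hP : Poly n p) (hR : Reg p Om) {y0 c P0 : ℝ} (hy : 0 ≤ y0) (hc : 0 ≤ c)
    (hP0 : 0 ≤ P0)
    (hb : ∀ D : ℝ, 0 < D → -P0 ≤ ∫ f in (-(Real.pi / 2))..(Real.pi / 2),
      min (D ^ 3 / Real.cos f ^ 4 - 3 / 2 * y0 * (D ^ 2 / Real.cos f ^ 2) + c) 0)
    (hh : ∃ j < n, ¬ Vis p j) :
    -((n : ℝ) - 1) * P0 ≤ JJb n p - 3 * y0 * area Om + 2 * Real.pi * c := by
  classical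
  have hdata : ∀ j, ∃ eta del al be : ℝ, cr (p j) (p (j + 1)) ≠ 0 → (0 < del ∧
      -(Real.pi / 2) < al ∧ al < be ∧ be < Real.pi / 2 ∧
      (∀ z : ℂ, z ∈ openSegment ℝ (p j) (p (j + 1)) ↔ ∃ f : ℝ, al < f ∧ f < be ∧
        z = ((del / Real.cos f : ℝ) : ℂ) * exp (((eta + f : ℝ) : ℂ) * I)) ∧
      segInt (fun z => ‖z‖ ^ 2) (p j) (p (j + 1)) = ∫ f in al..be, del ^ 3 / Real.cos f ^ 4) := by
    intro j
    by_cases h : cr (p j) (p (j + 1)) ≠ 0
    · obtain ⟨eta, del, al, be, h1⟩ := side_polar h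
      exact ⟨eta, del, al, be, fun _ => h1⟩
    · exact ⟨0, 0, 0, 0, fun h1 => absurd h1 h⟩
  choose eta del al be hd using hdata
  set V : ℕ → Set ℝ := fun j => VV p (eta j) (del j) (al j) (be j) with hVd
  set A : Finset ℕ := (Finset.range n).filter
    (fun j => cr (p j) (p (j + 1)) ≠ 0 ∧ (V j).Nonempty) with hA
  have hAn : ∀ j ∈ A, j < n := fun j hj => Finset.mem_range.mp (Finset.mem_filter.mp hj).1
  have hAc : ∀ j ∈ A, cr (p j) (p (j + 1)) ≠ 0 := fun j hj => (Finset.mem_filter.mp hj).2.1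
  have hVmeas : ∀ j ∈ A, MeasurableSet (V j) := fun j hj =>
    meas_VV hP.pos hP.per (hd j (hAc j hj)).2.1 (hd j (hAc j hj)).2.2.2.1
  have hVsub : ∀ j, V j ⊆ Set.Ioo (al j) (be j) := fun j f hf => ⟨hf.1, hf.2.1⟩
  -- number of visible sides
  have hcard : (A.card : ℝ) ≤ (n : ℝ) - 1 := by
    obtain ⟨j0, hj0, hv0⟩ := hh
    have hnot : j0 ∉ A := by
      intro hj
      apply hv0
      obtain ⟨f, hf⟩ := (Finset.mem_filter.mp hj).2.2
      have hdj := hd j0 (hAc j0 hj)
      exact ⟨hAc j0 hj, _, (hdj.2.2.2.2.1 _).mpr ⟨f, hf.1, hf.2.1, rfl⟩, hf.2.2⟩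
    have hsub : A ⊆ (Finset.range n).erase j0 := by
      intro j hj
      rw [Finset.mem_erase]
      exact ⟨fun h => hnot (h ▸ hj), (Finset.mem_filter.mp hj).1⟩
    have h1 := Finset.card_le_card hsub
    rw [Finset.card_erase_of_mem (Finset.mem_range.mpr hj0), Finset.card_range] at h1
    have h2 : 1 ≤ n := hP.pos
    have h3 : ((A.card : ℕ) : ℝ) ≤ ((n - 1 : ℕ) : ℝ) := by exact_mod_cast h1
    rwa [Nat.cast_sub h2, Nat.cast_one] at h3
  -- second moment
  have hJ : ∑ j ∈ A, ∫ f in V j, (del j) ^ 3 / Real.cos f ^ 4 ≤ JJb n p := by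
    have h1 : ∀ j ∈ A, ∫ f in V j, (del j) ^ 3 / Real.cos f ^ 4 ≤
        segInt (fun z => ‖z‖ ^ 2) (p j) (p (j + 1)) := by
      intro j hj
      obtain ⟨hd1, hd2, hd3, hd4, hd5, hd6⟩ := hd j (hAc j hj)
      rw [hd6, intervalIntegral.integral_of_le hd3.le]
      have hcos : ∀ f ∈ Set.Icc (al j) (be j), 0 < Real.cos f := fun f hf =>
        Hid_cos (by linarith [hf.1]) (by linarith [hf.2])
      refine setIntegral_mono_set ?_ ?_ ?_
      · refine IntegrableOn.mono_set ?_ Set.Ioc_subset_Icc_self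
        apply ContinuousOn.integrableOn_Icc
        exact continuousOn_const.div (Real.continuous_cos.pow 4).continuousOn
          (fun f hf => (pow_pos (hcos f hf) 4).ne')
      · exact Filter.Eventually.of_forall fun f => by
          show (0:ℝ) ≤ del j ^ 3 / Real.cos f ^ 4
          positivity
      · exact Filter.Eventually.of_forall fun f hf => Set.Ioo_subset_Ioc_self (hVsub j hf)
    calc ∑ j ∈ A, ∫ f in V j, (del j) ^ 3 / Real.cos f ^ 4
        ≤ ∑ j ∈ A, segInt (fun z => ‖z‖ ^ 2) (p j) (p (j + 1)) := Finset.sum_le_sum h1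
      _ ≤ ∑ j ∈ Finset.range n, segInt (fun z => ‖z‖ ^ 2) (p j) (p (j + 1)) := by
          refine Finset.sum_le_sum_of_subset_of_nonneg (Finset.filter_subset _ _) ?_
          intro j _ _
          unfold segInt
          have : 0 ≤ ∫ t in (0:ℝ)..1, ‖p j + t * (p (j + 1) - p j)‖ ^ 2 :=
            intervalIntegral.integral_nonneg (by norm_num) (fun t _ => by positivity)
          positivity
      _ = JJb n p := rfl
  have hrho : ∀ j ∈ A, ContinuousOn (fun f => del j / Real.cos f) (Set.Icc (al j) (be j)) ∧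
      ∀ f ∈ Set.Icc (al j) (be j), 0 < del j / Real.cos f := by
    intro j hj
    obtain ⟨hd1, hd2, hd3, hd4, hd5, hd6⟩ := hd j (hAc j hj)
    have hcos : ∀ f ∈ Set.Icc (al j) (be j), 0 < Real.cos f := fun f hf =>
        Hid_cos (by linarith [hf.1]) (by linarith [hf.2])
    exact ⟨continuousOn_const.div Real.continuous_cos.continuousOn (fun f hf => (hcos f hf).ne'),
      fun f hf => div_pos hd1 (hcos f hf)⟩
  have hsec : ∀ j ∈ A, _ := fun j hj => sec_area (eta := eta j) (hd j (hAc j hj)).2.1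
    (hd j (hAc j hj)).2.2.2.1 (hVmeas j hj) (hVsub j) (hrho j hj).1 (hrho j hj).2
  have hsec1 : ∀ j ∈ A, _ := fun j hj => sec_area (eta := eta j) (hd j (hAc j hj)).2.1
    (hd j (hAc j hj)).2.2.2.1 (hVmeas j hj) (hVsub j) (rho := fun _ => (1:ℝ)) continuousOn_const
    (fun _ _ => one_pos)
  -- area
  have harea : area Om ≤ ∑ j ∈ A, ∫ f in V j, (del j / Real.cos f) ^ 2 / 2 := by
    have hcov : Om ⊆ {z : ℂ | z = 0 ∨ ∃ j, p j ≠ 0 ∧ cr (p j) z = 0} ∪
        ⋃ j ∈ A, sec (eta j) (V j) (fun f => del j / Real.cos f) := by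
      intro z hz
      by_cases hN : z = 0 ∨ ∃ j, p j ≠ 0 ∧ cr (p j) z = 0
      · exact Or.inl hN
      · right
        push Not at hN
        obtain ⟨j, hj, hcj, s, hs, hseg, hlast⟩ := last_point hP hR hz hN.1 hN.2
        have hdj := hd j hcj
        obtain ⟨f, hf1, hf2, hf3⟩ := (hdj.2.2.2.2.1 _).mp hseg
        have hfV : f ∈ V j := ⟨hf1, hf2, by rw [← hf3]; exact hlast⟩
        have hjA : j ∈ A := Finset.mem_filter.mpr ⟨Finset.mem_range.mpr hj, hcj, ⟨f, hfV⟩⟩
        refine Set.mem_biUnion (Finset.mem_coe.mpr hjA) ?_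
        have hpos := (hrho j hjA).2 f ⟨hf1.le, hf2.le⟩
        have hs0 : (0:ℝ) < s := by linarith
        refine ⟨f, hfV, (del j / Real.cos f) / s, div_pos hpos hs0, ?_, ?_⟩
        · exact div_lt_self hpos hs
        · have hsne : (s : ℂ) ≠ 0 := by exact_mod_cast hs0.ne'
          have : z = (s : ℂ)⁻¹ * ((s : ℂ) * z) := by field_simp
          rw [this, hf3]
          push_cast
          field_simp
    have hfin : ∀ j ∈ A, volume (sec (eta j) (V j) (fun f => del j / Real.cos f)) ≠ ⊤ :=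
      fun j hj => (hsec j hj).2.1
    have h1 : volume Om ≤ ∑ j ∈ A, volume (sec (eta j) (V j) (fun f => del j / Real.cos f)) := by
      calc volume Om ≤ volume ({z : ℂ | z = 0 ∨ ∃ j, p j ≠ 0 ∧ cr (p j) z = 0} ∪
            ⋃ j ∈ A, sec (eta j) (V j) (fun f => del j / Real.cos f)) := measure_mono hcov
        _ ≤ volume {z : ℂ | z = 0 ∨ ∃ j, p j ≠ 0 ∧ cr (p j) z = 0} +
            volume (⋃ j ∈ A, sec (eta j) (V j) (fun f => del j / Real.cos f)) := measure_union_le _ _
        _ ≤ 0 + ∑ j ∈ A, volume (sec (eta j) (V j) (fun f => del j / Real.cos f)) := by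
            rw [null_lines]
            gcongr
            exact measure_biUnion_finset_le _ _
        _ = _ := zero_add _
    unfold area
    calc (volume Om).toReal
        ≤ (∑ j ∈ A, volume (sec (eta j) (V j) (fun f => del j / Real.cos f))).toReal :=
          ENNReal.toReal_mono (ENNReal.sum_ne_top.mpr hfin) h1
      _ = ∑ j ∈ A, (volume (sec (eta j) (V j) (fun f => del j / Real.cos f))).toReal :=
          ENNReal.toReal_sum hfin
      _ = ∑ j ∈ A, ∫ f in V j, (del j / Real.cos f) ^ 2 / 2 :=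
          Finset.sum_congr rfl fun j hj => (hsec j hj).2.2
  -- total angle
  have hangle : ∑ j ∈ A, (volume (V j)).toReal ≤ 2 * Real.pi := by
    have hdisj : (A : Set ℕ).PairwiseDisjoint (fun j => sec (eta j) (V j) (fun _ => (1:ℝ))) := by
      intro i hi j hj hij
      rw [Function.onFun, Set.disjoint_left]
      rintro z ⟨f, hf, r, hr0, hr1, hz⟩ ⟨f', hf', r', hr0', hr1', hz'⟩
      have hdi := hd i (hAc i hi)
      have hdj := hd j (hAc j hj)
      apply dir_ne hP (hAn i hi) (hAn j hj) hij hdi.1 hdj.1 hdi.2.1 hdi.2.2.2.1 hdj.2.1 hdj.2.2.2.1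
        hdi.2.2.2.2.1 hdj.2.2.2.2.1 hf hf'
      have hn1 : ‖z‖ = r := by
        rw [hz, norm_mul, Complex.norm_real, Real.norm_of_nonneg hr0.le, Complex.norm_exp_ofReal_mul_I,
          mul_one]
      have hn2 : ‖z‖ = r' := by
        rw [hz', norm_mul, Complex.norm_real, Real.norm_of_nonneg hr0'.le,
          Complex.norm_exp_ofReal_mul_I, mul_one]
      have hrr : r = r' := by rw [← hn1, hn2]
      have hrne : (r : ℂ) ≠ 0 := by exact_mod_cast hr0.ne'
      apply mul_left_cancel₀ hrne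
      rw [← hz, hz', hrr]
    have hsubball : (⋃ j ∈ A, sec (eta j) (V j) (fun _ => (1:ℝ))) ⊆ Metric.ball (0:ℂ) 1 := by
      intro z hz
      obtain ⟨j, hj, f, hf, r, hr0, hr1, hz'⟩ := Set.mem_iUnion₂.mp hz
      rw [mem_ball_zero_iff, hz', norm_mul, Complex.norm_real, Real.norm_of_nonneg hr0.le,
        Complex.norm_exp_ofReal_mul_I, mul_one]
      exact hr1
    have h1 : ∑ j ∈ A, volume (sec (eta j) (V j) (fun _ => (1:ℝ))) ≤ volume (Metric.ball (0:ℂ) 1) := by
      rw [← measure_biUnion_finset hdisj (fun j hj => (hsec1 j hj).1)]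
      exact measure_mono hsubball
    have h2 : (volume (Metric.ball (0:ℂ) 1)).toReal = Real.pi := by
      rw [Complex.volume_ball]
      simp
    have hfin : ∀ j ∈ A, volume (sec (eta j) (V j) (fun _ => (1:ℝ))) ≠ ⊤ :=
      fun j hj => (hsec1 j hj).2.1
    have h3 := ENNReal.toReal_mono (measure_ball_lt_top).ne h1
    rw [h2, ENNReal.toReal_sum hfin] at h3
    have h4 : ∀ j ∈ A, (volume (sec (eta j) (V j) (fun _ => (1:ℝ)))).toReal =
        (volume (V j)).toReal / 2 := by
      intro j hj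
      rw [(hsec1 j hj).2.2, integral_const]
      simp only [smul_eq_mul, Measure.real, Measure.restrict_apply_univ]
      ring
    rw [Finset.sum_congr rfl h4, ← Finset.sum_div] at h3
    linarith
  -- windows
  have hwin : ∀ j ∈ A, -P0 ≤ (∫ f in V j, (del j) ^ 3 / Real.cos f ^ 4) -
      3 * y0 * (∫ f in V j, (del j / Real.cos f) ^ 2 / 2) + c * (volume (V j)).toReal := by
    intro j hj
    obtain ⟨hd1, hd2, hd3, hd4, hd5, hd6⟩ := hd j (hAc j hj)
    exact Hid_window hc hd1 (hb _ hd1) hd2 hd4 (hVmeas j hj) (hVsub j)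
  have hsum := Finset.sum_le_sum hwin
  rw [Finset.sum_add_distrib, Finset.sum_sub_distrib, ← Finset.mul_sum, ← Finset.mul_sum,
    Finset.sum_const, nsmul_eq_mul] at hsum
  have h8 : 3 * y0 * area Om ≤ 3 * y0 * ∑ j ∈ A, ∫ f in V j, (del j / Real.cos f) ^ 2 / 2 :=
    mul_le_mul_of_nonneg_left harea (by positivity)
  have h9 : c * ∑ j ∈ A, (volume (V j)).toReal ≤ c * (2 * Real.pi) :=
    mul_le_mul_of_nonneg_left hangle hc
  have h10 : (A.card : ℝ) * P0 ≤ ((n : ℝ) - 1) * P0 := mul_le_mul_of_nonneg_right hcard hP0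
  linarith

end Pool.Agent.H32.SG
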