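import Mathlib
import Pool.Agent.H32.SG.Basic
import Pool.Agent.H32.SG.StarE
import Pool.Agent.H32.SG.Cover
import Pool.Agent.H32.SG.Compat
import Pool.Agent.H32.SG.Glue

set_option autoImplicit false

/-! The piecewise linear map between star-shaped polygons -/

open Complex MeasureTheory Set Finset Filter Topology

open scoped NNReal

namespace Pool.Agent.H32.SG

open Pool.Agent.H32.Stek Pool.Agent.H32.Q4

variable {n : ℕ} {p : ℕ → ℂ} {Om : Set ℂ}

/-- the real linear map with `a ↦ u`, `b ↦ v` -/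
private noncomputable def PL_L (a b u v : ℂ) : ℂ →ₗ[ℝ] ℂ where
  toFun z := ((cr z b / cr a b : ℝ) : ℂ) * u + ((cr a z / cr a b : ℝ) : ℂ) * v
  map_add' z w := by
    rw [cr_add_left, cr_add_right]
    push_cast
    ring
  map_smul' t z := by
    rw [Complex.real_smul, cr_smul_left, cr_smul_right, Complex.real_smul]
    simp only [RingHom.id_apply]
    push_cast
    ring

private lemma PL_L_apply (a b u v z : ℂ) :
    PL_L a b u v z = ((cr z b / cr a b : ℝ) : ℂ) * u + ((cr a z / cr a b : ℝ) : ℂ) * v := rfl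

private lemma PL_rep {a b : ℂ} (h : cr a b ≠ 0) (z : ℂ) :
    z = ((cr z b / cr a b : ℝ) : ℂ) * a + ((cr a z / cr a b : ℝ) : ℂ) * b := by
  apply Complex.ext
  · simp only [Complex.add_re, Complex.re_ofReal_mul]
    rw [div_mul_eq_mul_div, div_mul_eq_mul_div, ← add_div, eq_div_iff h]
    unfold cr
    ring
  · simp only [Complex.add_im, Complex.im_ofReal_mul]
    rw [div_mul_eq_mul_div, div_mul_eq_mul_div, ← add_div, eq_div_iff h]
    unfold cr
    ring

private lemma PL_coef {a b : ℂ} (h : cr a b ≠ 0) (s t : ℝ) :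
    cr ((s : ℂ) * a + (t : ℂ) * b) b / cr a b = s ∧ cr a ((s : ℂ) * a + (t : ℂ) * b) / cr a b = t := by
  constructor
  · rw [cr_add_left, cr_smul_left, cr_smul_left, cr_self]
    field_simp
    ring
  · rw [cr_add_right, cr_smul_right, cr_smul_right, cr_self]
    field_simp
    ring

private lemma PL_cont_left (b : ℂ) : Continuous (fun z : ℂ => cr z b) := by
  unfold cr
  fun_prop

private lemma PL_cont_right (b : ℂ) : Continuous (fun z : ℂ => cr b z) := by
  unfold cr
  fun_prop

/-- PL. `Phi` is chosen by `cover`, well defined by `compat`; on the closed cone `j` it is the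
restriction of a real linear map (`cr (p j) (p (j+1)) ≠ 0`), hence Lipschitz; `glue`. -/
theorem exists_pl {r th : ℕ → ℝ} (h : Star n p r th) (hn : 0 < n) {q : ℕ → ℂ}
    (hq : ∀ j, q (j + n) = q j) :
    ∃ (Phi : ℂ → ℂ) (K : ℝ≥0), LipschitzWith K Phi ∧ ∀ (j : ℕ) (a b : ℝ), 0 ≤ a → 0 ≤ b →
      Phi ((a : ℂ) * p j + (b : ℂ) * p (j + 1)) = (a : ℂ) * q j + (b : ℂ) * q (j + 1) := by
  choose J hJ A B hA hB hz using cover h hn
  set Phi : ℂ → ℂ := fun z => (A z : ℂ) * q (J z) + (B z : ℂ) * q (J z + 1) with hPhi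
  have key : ∀ j < n, ∀ a b : ℝ, 0 ≤ a → 0 ≤ b →
      Phi ((a : ℂ) * p j + (b : ℂ) * p (j + 1)) = (a : ℂ) * q j + (b : ℂ) * q (j + 1) := by
    intro j hj a b ha hb
    exact compat h hq (hJ _) hj (hA _) (hB _) ha hb (hz _).symm
  have hpm : ∀ (u : ℕ → ℂ), (∀ j, u (j + n) = u j) → ∀ j, u (j % n) = u j ∧ u (j % n + 1) = u (j + 1) := by
    intro u hu j
    refine ⟨per_mod hu j, ?_⟩
    have h3 : j + 1 = (j % n + 1) + n * (j / n) := by
      have := Nat.mod_add_div j n
      omega
    rw [h3, per_add_mul hu]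
  set K : ℝ≥0 := (Finset.range n).sup
    (fun j => ‖(PL_L (p j) (p (j + 1)) (q j) (q (j + 1))).toContinuousLinearMap‖₊) with hK
  refine ⟨Phi, K, ?_, ?_⟩
  · refine glue (ι := Fin n) (fun j => {z | 0 ≤ cr z (p (j + 1)) ∧ 0 ≤ cr (p j) z}) ?_ ?_ Phi K ?_
    · intro j
      exact (isClosed_le continuous_const (PL_cont_left _)).inter
        (isClosed_le continuous_const (PL_cont_right _))
    · intro z
      refine ⟨⟨J z, hJ z⟩, ?_⟩
      have hD := h.cr_pos (J z)
      have e1 := PL_coef hD.ne' (A z) (B z)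
      rw [← hz z] at e1
      constructor
      · have : cr z (p (J z + 1)) = A z * cr (p (J z)) (p (J z + 1)) := by
          rw [← e1.1]; field_simp
        rw [this]
        exact mul_nonneg (hA z) hD.le
      · have : cr (p (J z)) z = B z * cr (p (J z)) (p (J z + 1)) := by
          rw [← e1.2]; field_simp
        rw [this]
        exact mul_nonneg (hB z) hD.le
    · intro j
      have hD := h.cr_pos (j : ℕ)
      have hlip : LipschitzWith K (PL_L (p j) (p (j + 1)) (q j) (q (j + 1))).toContinuousLinearMap := by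
        refine (ContinuousLinearMap.lipschitz _).weaken ?_
        exact Finset.le_sup (f := fun j =>
          ‖(PL_L (p j) (p (j + 1)) (q j) (q (j + 1))).toContinuousLinearMap‖₊)
          (Finset.mem_range.mpr j.2)
      have heq : Set.EqOn Phi (PL_L (p j) (p (j + 1)) (q j) (q (j + 1))).toContinuousLinearMap
          {z | 0 ≤ cr z (p (j + 1)) ∧ 0 ≤ cr (p j) z} := by
        rintro z ⟨h1, h2⟩
        have e1 := key j j.2 (cr z (p (j + 1)) / cr (p j) (p (j + 1)))
          (cr (p j) z / cr (p j) (p (j + 1))) (div_nonneg h1 hD.le) (div_nonneg h2 hD.le)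
        rw [← PL_rep hD.ne' z] at e1
        rw [e1]
        rfl
      intro z hz' w hw'
      rw [heq hz', heq hw']
      exact hlip z w
  · intro j a b ha hb
    have h1 := key (j % n) (Nat.mod_lt _ hn) a b ha hb
    rw [(hpm p h.per j).1, (hpm p h.per j).2, (hpm q hq j).1, (hpm q hq j).2] at h1
    exact h1

end Pool.Agent.H32.SG
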