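import Mathlib
import Pool.Agent.H32.SG.Basic
import Pool.Agent.H32.SG.Up
import Pool.Agent.H32.SG.Ray
import Pool.Agent.H32.SG.PL
import Pool.Agent.H32.SG.EnF
import Pool.Agent.H32.SG.BdF
import Pool.Agent.H32.Q4.NGn

set_option autoImplicit false

/-! The transplantation inequality -/

open Complex MeasureTheory Set Finset Filter Topology

open scoped NNReal

namespace Pool.Agent.H32.SG

open Pool.Agent.H32.Stek Pool.Agent.H32.Q4

variable {n : ℕ} {p : ℕ → ℂ} {Om : Set ℂ}

private lemma UB_rot {g : ℂ → ℂ} (hg : Tst n g) (j : ℕ) (z : ℂ) : g (om n ^ j * z) = om n ^ j * g z := by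
  induction j with
  | zero => simp
  | succ j ih => rw [pow_succ', mul_assoc, hg.rot, ih, mul_assoc]

private lemma UB_energy_le {u : ℂ → ℝ} {K : ℝ≥0} (hu : LipschitzWith K u)
    (hcov : Om ⊆ ⋃ j ∈ Finset.range n, tri 0 (p j) (p (j + 1))) :
    en Om u ≤ ∑ j ∈ Finset.range n, ∫ z in tri 0 (p j) (p (j + 1)), ‖grad u z‖ ^ 2 := by
  set f : ℂ → ℝ := fun z => ‖grad u z‖ ^ 2 with hf
  have hf0 : ∀ z, 0 ≤ f z := fun z => sq_nonneg _
  have hmeas : ∀ j, MeasurableSet (tri 0 (p j) (p (j + 1))) := fun j =>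
    (isCompact_tri _ _ _).isClosed.measurableSet
  have hint : ∀ j, Integrable ((tri 0 (p j) (p (j + 1))).indicator f) := fun j =>
    (integrable_indicator_iff (hmeas j)).mpr (integrableOn_grad hu (isCompact_tri _ _ _))
  have hU : MeasurableSet (⋃ j ∈ Finset.range n, tri 0 (p j) (p (j + 1))) :=
    Finset.measurableSet_biUnion _ fun j _ => hmeas j
  have hUc : IsCompact (⋃ j ∈ Finset.range n, tri 0 (p j) (p (j + 1))) :=
    (Finset.range n).isCompact_biUnion fun j _ => isCompact_tri _ _ _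
  have hUi : IntegrableOn f (⋃ j ∈ Finset.range n, tri 0 (p j) (p (j + 1))) := integrableOn_grad hu hUc
  unfold en
  calc ∫ z in Om, f z ≤ ∫ z in (⋃ j ∈ Finset.range n, tri 0 (p j) (p (j + 1))), f z :=
        setIntegral_mono_set hUi (Filter.Eventually.of_forall fun z => hf0 z)
          (Filter.Eventually.of_forall fun z hz => hcov hz)
    _ = ∫ z, (⋃ j ∈ Finset.range n, tri 0 (p j) (p (j + 1))).indicator f z := by
        rw [integral_indicator hU]
    _ ≤ ∫ z, ∑ j ∈ Finset.range n, (tri 0 (p j) (p (j + 1))).indicator f z := by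
        refine integral_mono ((integrable_indicator_iff hU).mpr hUi)
          (integrable_finsetSum _ fun j _ => hint j) ?_
        intro z
        by_cases hz : z ∈ ⋃ j ∈ Finset.range n, tri 0 (p j) (p (j + 1))
        · simp only [Set.indicator_of_mem hz]
          obtain ⟨j, hj, hzj⟩ := Set.mem_iUnion₂.mp hz
          calc f z = (tri 0 (p j) (p (j + 1))).indicator f z := by rw [Set.indicator_of_mem hzj]
            _ ≤ _ := Finset.single_le_sum (f := fun j => (tri 0 (p j) (p (j + 1))).indicator f z)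
              (fun i _ => Set.indicator_nonneg (fun w _ => hf0 w) z) hj
        · simp only [Set.indicator_of_notMem hz]
          exact Finset.sum_nonneg fun i _ => Set.indicator_nonneg (fun w _ => hf0 w) z
    _ = ∑ j ∈ Finset.range n, ∫ z, (tri 0 (p j) (p (j + 1))).indicator f z :=
        integral_finsetSum _ fun j _ => hint j
    _ = _ := by
        refine Finset.sum_congr rfl fun j _ => ?_
        rw [integral_indicator (hmeas j)]

/-- UB. `F = z + xi g (Phi z)` on the union of the triangles (`exists_pl` with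
`q j = (1 - i t) om^j`, so `Phi (X m_j + Y v_j) = om^j (X + i t Y)` and `g (Phi) = om^j g (X + i t Y)`),
extended to a Lipschitz map of the plane; `sig_le_cx`; `cover_tri`, `energy_side`, `seg_re_F`,
`seg_sq_F`; the linear terms cancel:
`sum_j om^j (conj v_j + i t conj m_j) = 0` (telescoping). -/
theorem ub {r th : ℕ → ℝ} (hP : Poly n p) (hR : Reg p Om) (hS : Star n p r th) (hC : Cen n p)
    {g : ℂ → ℂ} (hg : Tst n g) (xi : ℂ) :
    sig n p Om * (JJb n p + 2 * Ka n g * (xi * Sc n p).re + ‖xi‖ ^ 2 * Mg n g * perim n p) ≤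
      2 * Ast n p + ‖xi‖ ^ 2 * Est n p (Hn n g) (Ht n g) := by
  have hn : 3 ≤ n := hP.three
  have hn0 : 0 < n := hP.pos
  have hom := om_eq hn
  have homn := om_pow hn0
  set t : ℝ := tn n with ht
  have ht0 : 0 < t := tn_pos hn
  set q : ℕ → ℂ := fun j => (1 - t * I) * om n ^ j with hq
  have hqper : ∀ j, q (j + n) = q j := by
    intro j
    simp only [hq]
    rw [pow_add, homn, mul_one]
  obtain ⟨Phi, K, hPhi, hPhi2⟩ := exists_pl hS hn0 hqper
  set v : ℕ → ℂ := fun j => (p (j + 1) - p j) / 2 with hv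
  set m : ℕ → ℂ := fun j => (p j + p (j + 1)) / 2 with hm
  have hmv1 : ∀ j, m j - v j = p j := by intro j; simp only [hm, hv]; ring
  have hmv2 : ∀ j, m j + v j = p (j + 1) := by intro j; simp only [hm, hv]; ring
  have hPhim : ∀ (j : ℕ) (X Y : ℝ), |Y| ≤ X →
      Phi (X * m j + Y * v j) = om n ^ j * (X + (t * Y : ℝ) * I) := by
    intro j X Y hY
    have h1 := abs_le.mp hY
    have h2 := hPhi2 j ((X - Y) / 2) ((X + Y) / 2) (by linarith) (by linarith)
    have e1 : (((X - Y) / 2 : ℝ) : ℂ) * p j + (((X + Y) / 2 : ℝ) : ℂ) * p (j + 1) =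
        X * m j + Y * v j := by
      simp only [hm, hv]; push_cast; ring
    rw [e1] at h2
    rw [h2]
    simp only [hq]
    rw [pow_succ]
    have e2 : (1 - (t:ℂ) * I) * (om n ^ j * om n) = om n ^ j * (om n * (1 - t * I)) := by ring
    rw [e2, hom]
    push_cast
    ring
  -- the trial function
  set F0 : ℂ → ℂ := fun z => z + xi * g (Phi z) with hF0
  have hloc : LocallyLipschitz F0 := by
    have h1 : LocallyLipschitz (fun q : ℂ × ℂ => q.1 + xi * g q.2) := by
      have h2 : ContDiff ℝ 1 (fun q : ℂ × ℂ => q.1 + xi * g q.2) :=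
        contDiff_fst.add (contDiff_const.mul (hg.c1.comp contDiff_snd))
      exact h2.locallyLipschitz
    exact h1.comp (LocallyLipschitz.id.prodMk hPhi.locallyLipschitz)
  set S : Set ℂ := ⋃ j ∈ Finset.range n, tri 0 (p j) (p (j + 1)) with hSd
  have hSc : IsCompact S := (Finset.range n).isCompact_biUnion fun j _ => isCompact_tri _ _ _
  obtain ⟨K0, hK0⟩ := (hloc.locallyLipschitzOn (s := S)).exists_lipschitzOnWith_of_compact hSc
  obtain ⟨F, hF, hFe⟩ := hK0.extend_finite_dimension
  have hFtri : ∀ j < n, ∀ X Y : ℝ, |Y| ≤ X → X ≤ 1 → F (X * m j + Y * v j) =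
      X * m j + Y * v j + xi * om n ^ j * g (X + (t * Y : ℝ) * I) := by
    intro j hj X Y hY hX
    have hmem : ((X:ℂ) * m j + Y * v j) ∈ S := by
      refine Set.mem_biUnion (Finset.mem_coe.mpr (Finset.mem_range.mpr hj)) ?_
      rw [← hmv1 j, ← hmv2 j, ← EnD_image]
      refine ⟨⟨X, Y⟩, ⟨hY, hX⟩, ?_⟩
      rw [EnL_apply]
    rw [← hFe hmem]
    simp only [hF0]
    rw [hPhim j X Y hY, UB_rot hg]
    ring
  have hFside : ∀ j < n, ∀ Y : ℝ, |Y| ≤ 1 → F (m j + Y * v j) =
      m j + Y * v j + xi * om n ^ j * g (1 + (t * Y : ℝ) * I) := by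
    intro j hj Y hY
    have h1 := hFtri j hj 1 Y hY le_rfl
    simpa using h1
  -- boundary terms
  have hre : bd n p (fun z => (F z).re) = 0 := by
    rw [← hC.1]
    unfold bd
    refine Finset.sum_congr rfl fun j hj => ?_
    have h1 := (seg_re_F hg (hFside j (Finset.mem_range.mp hj))).1
    rwa [hmv1, hmv2] at h1
  have him : bd n p (fun z => (F z).im) = 0 := by
    rw [← hC.2]
    unfold bd
    refine Finset.sum_congr rfl fun j hj => ?_
    have h1 := (seg_re_F hg (hFside j (Finset.mem_range.mp hj))).2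
    rwa [hmv1, hmv2] at h1
  have homj : ∀ j, ‖om n ^ j‖ = 1 := by intro j; rw [norm_pow, norm_om, one_pow]
  have h2v : ∀ j, 2 * v j = sw p j := by intro j; simp only [hv, sw]; ring
  have hsq : bd n p (fun z => ‖F z‖ ^ 2) =
      JJb n p + 2 * Ka n g * (xi * Sc n p).re + ‖xi‖ ^ 2 * Mg n g * perim n p := by
    have h1 : ∀ j ∈ Finset.range n, segInt (fun z => ‖F z‖ ^ 2) (p j) (p (j + 1)) =
        segInt (fun z => ‖z‖ ^ 2) (p j) (p (j + 1)) +
        2 * Ka n g * (xi * ((‖sw p j‖ : ℂ) * I * (starRingEnd ℂ) (sw p j) * om n ^ j)).re +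
        ‖xi‖ ^ 2 * Mg n g * ‖p (j + 1) - p j‖ := by
      intro j hj
      have h2 := seg_sq_F hg (homj j) (hFside j (Finset.mem_range.mp hj))
      rw [hmv1, hmv2, h2v] at h2
      exact h2
    unfold bd
    rw [Finset.sum_congr rfl h1, Finset.sum_add_distrib, Finset.sum_add_distrib]
    unfold JJb bd perim Sc
    rw [Finset.mul_sum, Complex.re_sum, Finset.mul_sum, Finset.mul_sum]
  -- energy
  have hcov : Om ⊆ ⋃ j ∈ Finset.range n, tri 0 (p j) (p (j + 1)) := cover_tri hP hR
  have hF1 : LipschitzWith (lipschitzExtensionConstant ℂ * K0) (fun z => (F z).re) := by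
    have h1 : LipschitzWith 1 (fun z : ℂ => z.re) := by
      refine LipschitzWith.of_dist_le_mul fun x y => ?_
      rw [NNReal.coe_one, one_mul, Real.dist_eq, ← Complex.sub_re, Complex.dist_eq]
      exact Complex.abs_re_le_norm _
    have h2 := h1.comp hF
    rwa [one_mul] at h2
  have hF2 : LipschitzWith (lipschitzExtensionConstant ℂ * K0) (fun z => (F z).im) := by
    have h1 : LipschitzWith 1 (fun z : ℂ => z.im) := by
      refine LipschitzWith.of_dist_le_mul fun x y => ?_
      rw [NNReal.coe_one, one_mul, Real.dist_eq, ← Complex.sub_im, Complex.dist_eq]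
      exact Complex.abs_im_le_norm _
    have h2 := h1.comp hF
    rwa [one_mul] at h2
  have hE1 := UB_energy_le (Om := Om) (n := n) (p := p) hF1 hcov
  have hE2 := UB_energy_le (Om := Om) (n := n) (p := p) hF2 hcov
  set B : ℂ := (JJ (fun X Y => (fderiv ℝ g (X + (tn n * Y : ℝ) * I) I).re) : ℂ) +
        (JJ (fun X Y => (fderiv ℝ g (X + (tn n * Y : ℝ) * I) I).im) : ℂ) * I with hB
  have hcrmv : ∀ j, cr (m j) (v j) = al p j := by
    intro j
    simp only [hm, hv, al]
    unfold cr
    simp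
    ring
  have halpos : ∀ j, 0 < al p j := by
    intro j
    unfold al
    have := hS.cr_pos j
    linarith
  have hEs : ∀ j ∈ Finset.range n, (∫ z in tri 0 (p j) (p (j + 1)), ‖grad (fun z => (F z).re) z‖ ^ 2) +
      (∫ z in tri 0 (p j) (p (j + 1)), ‖grad (fun z => (F z).im) z‖ ^ 2) =
      2 * al p j - 2 * (xi * B * (om n ^ j * ((starRingEnd ℂ) (v j) + t * I * (starRingEnd ℂ) (m j)))).re +
      ‖xi‖ ^ 2 * (Hn n g * (‖sw p j‖ ^ 2 / (4 * tn n * al p j)) +
        Ht n g * (tn n * ‖mp p j‖ ^ 2 / al p j)) := by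
    intro j hj
    have hj' := Finset.mem_range.mp hj
    have h1 := energy_side hn hg (m := m j) (v := v j) (xi := xi) (w := om n ^ j) (homj j)
      (by rw [hcrmv]; exact halpos j) (u₁ := fun z => (F z).re) (u₂ := fun z => (F z).im)
      (fun X Y hY hX => by rw [hFtri j hj' X Y hY hX]) (fun X Y hY hX => by rw [hFtri j hj' X Y hY hX])
    rw [hmv1, hmv2, hcrmv] at h1
    rw [h1]
    have e1 : ‖v j‖ ^ 2 / (tn n * al p j) = ‖sw p j‖ ^ 2 / (4 * tn n * al p j) := by
      rw [← h2v j, norm_mul, Complex.norm_ofNat]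
      have := (halpos j).ne'
      have := ht0.ne'
      field_simp
      ring
    have e2 : mp p j = m j := rfl
    rw [e1, e2]
    congr 2
    rw [← hB]
    congr 2
    ring
  have htel : ∑ j ∈ Finset.range n, om n ^ j * ((starRingEnd ℂ) (v j) + t * I * (starRingEnd ℂ) (m j)) = 0 := by
    have h1 : ∀ j, om n ^ j * ((starRingEnd ℂ) (v j) + t * I * (starRingEnd ℂ) (m j)) =
        (1 - t * I) / 2 * (om n ^ (j + 1) * (starRingEnd ℂ) (p (j + 1))) -
        (1 - t * I) / 2 * (om n ^ j * (starRingEnd ℂ) (p j)) := by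
      intro j
      simp only [hm, hv, map_div₀, map_sub, map_add]
      have e3 : (starRingEnd ℂ) (2:ℂ) = 2 := map_ofNat (starRingEnd ℂ) 2
      rw [e3, pow_succ]
      have e4 : (1 - (t:ℂ) * I) / 2 * (om n ^ j * om n * (starRingEnd ℂ) (p (j + 1))) =
          om n ^ j * (om n * (1 - t * I)) * (starRingEnd ℂ) (p (j + 1)) / 2 := by ring
      rw [e4, hom]
      ring
    rw [Finset.sum_congr rfl fun j _ => h1 j,
      Finset.sum_range_sub (fun j => (1 - (t:ℂ) * I) / 2 * (om n ^ j * (starRingEnd ℂ) (p j))) n]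
    have h2 : p n = p 0 := by
      have := hP.per 0
      rwa [zero_add] at this
    rw [h2, homn, pow_zero, sub_self]
  have hEt : en Om (fun z => (F z).re) + en Om (fun z => (F z).im) ≤
      2 * Ast n p + ‖xi‖ ^ 2 * Est n p (Hn n g) (Ht n g) := by
    refine (add_le_add hE1 hE2).trans (le_of_eq ?_)
    rw [← Finset.sum_add_distrib, Finset.sum_congr rfl hEs, Finset.sum_add_distrib,
      Finset.sum_sub_distrib, ← Finset.mul_sum, ← Finset.mul_sum, ← Finset.mul_sum, ← Complex.re_sum,
      ← Finset.mul_sum, htel]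
    unfold Ast Est
    simp
  have hfin : volume Om ≠ ⊤ := hR.bd.measure_lt_top.ne
  have hmain := sig_le_cx (n := n) (p := p) hF hR.op.measurableSet hfin (perim_pos hP) hre him
  rw [hsq] at hmain
  exact hmain.trans hEt

end Pool.Agent.H32.SG
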